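import Mathlib
import Pool.Agent.N423.DE.Closed

/-!
# The rank of closed graphs: averaging over all orders of the vertices
-/

set_option autoImplicit false
set_option linter.unusedSectionVars false

namespace Pool.Agent.U656.RG

open Matrix Finset Pool.Agent.H283R2.DR Pool.Agent.H789R5 Pool.Agent.N423.DE

variable {V : Type} [Fintype V] {d : ℕ}

/-- the edges inside a set -/
def sub (C : SimpleGraph V) (W : Finset V) : SimpleGraph V where
  Adj u v := C.Adj u v ∧ u ∈ W ∧ v ∈ W
  symm := ⟨fun _ _ h => ⟨h.1.symm, h.2.2, h.2.1⟩⟩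
  loopless := ⟨fun _ h => h.1.ne rfl⟩

theorem sub_le (C : SimpleGraph V) (W : Finset V) : sub C W ≤ C := fun _ _ h => h.1

theorem sub_univ (C : SimpleGraph V) : sub C univ = C := by
  ext u v
  exact ⟨fun h => h.1, fun h => ⟨h, mem_univ _, mem_univ _⟩⟩

theorem sub_del [DecidableEq V] (C : SimpleGraph V) (W : Finset V) (w : V) :
    (sub C W).deleteIncidenceSet w = sub C (W.erase w) := by
  ext u v
  rw [SimpleGraph.deleteIncidenceSet_adj]
  constructor
  · rintro ⟨⟨h1, h2, h3⟩, h4, h5⟩
    exact ⟨h1, mem_erase.2 ⟨h4, h2⟩, mem_erase.2 ⟨h5, h3⟩⟩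
  · rintro ⟨h1, h2, h3⟩
    exact ⟨⟨h1, mem_of_mem_erase h2, mem_of_mem_erase h3⟩, (mem_erase.1 h2).1, (mem_erase.1 h3).1⟩

theorem nb_sub [DecidableEq V] (C : SimpleGraph V) {W : Finset V} {v : V} (hv : v ∈ W) :
    nb (sub C W) v = nb C v ∩ W := by
  ext z
  rw [mem_nb, mem_inter, mem_nb]
  exact ⟨fun h => ⟨h.1, h.2.2⟩, fun h => ⟨h.1, hv, h.2⟩⟩

open Classical in
/-- a lower bound for the number of independent bars from a new vertex to the set `T` -/
noncomputable def inc (C : SimpleGraph V) (d : ℕ) (T : Finset V) : ℕ :=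
  min d T.card + if d + 1 ≤ T.card ∧ ¬ Cq C T then 1 else 0

theorem step [DecidableEq V] {p : V → Fin d → ℝ} (hp : MG p) (hd : 1 ≤ d) {C : SimpleGraph V}
    (hC : Closed C p) {W : Finset V} {v : V} (hv : v ∈ W) :
    mo (sub C W) p + inc C d (nb C v ∩ W) ≤ mo (sub C (W.erase v)) p := by
  classical
  rw [← sub_del]
  unfold inc
  by_cases h : d + 1 ≤ (nb C v ∩ W).card ∧ ¬ Cq C (nb C v ∩ W)
  · rw [if_pos h, min_eq_left (by omega)]
    obtain ⟨h1, h2⟩ := h
    unfold Cq at h2
    push Not at h2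
    obtain ⟨x, hx, y, hy, hxy, hadj⟩ := h2
    rw [← nb_sub C hv] at h1 hx hy
    refine gain1 hp (mem_nb.1 hx) (mem_nb.1 hy) hxy h1 hd ?_
    exact hC.not_imp ((SimpleGraph.deleteIncidenceSet_le _ v).trans (sub_le C W)) hxy hadj
  · rw [if_neg h, add_zero]
    obtain ⟨T, hT, hTc⟩ := exists_subset_card_eq (min_le_right d (nb C v ∩ W).card)
    rw [← hTc]
    refine ext0 hp _ v T (by rw [hTc]; exact min_le_left _ _) ?_
    intro z hz
    have := hT hz
    rw [← nb_sub C hv] at this
    exact mem_nb.1 this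

/-- **Averaging.** -/
theorem pot [DecidableEq V] {p : V → Fin d → ℝ} (hp : MG p) (hd : 1 ≤ d) {C : SimpleGraph V}
    (hC : Closed C p) (f : Finset V → ℝ)
    (hf : ∀ v T, T ⊆ nb C v → ((T.card : ℝ) + 1) * f T ≤ inc C d T + ∑ u ∈ T, f (T.erase u)) :
    ∀ (m : ℕ) (W : Finset V), W.card = m →
      ∑ v ∈ W, f (nb C v ∩ W) + (mo (sub C W) p : ℝ) ≤ d * Fintype.card V := by
  intro m
  induction m with
  | zero =>
    intro W hW
    rw [card_eq_zero] at hW
    subst hW
    rw [sum_empty, zero_add]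
    exact_mod_cast mo_le _ p
  | succ m ih =>
    intro W hW
    have h1 : ∀ w ∈ W, ∑ v ∈ W.erase w, f ((nb C v ∩ W).erase w) + (mo (sub C W) p : ℝ) +
        inc C d (nb C w ∩ W) ≤ d * Fintype.card V := by
      intro w hw
      have h2 := ih (W.erase w) (by rw [card_erase_of_mem hw, hW]; rfl)
      have h3 : ((mo (sub C W) p + inc C d (nb C w ∩ W) : ℕ) : ℝ) ≤
          (mo (sub C (W.erase w)) p : ℕ) := by
        exact_mod_cast step hp hd hC hw
      have h4 : ∑ v ∈ W.erase w, f (nb C v ∩ W.erase w) =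
          ∑ v ∈ W.erase w, f ((nb C v ∩ W).erase w) := by
        refine sum_congr rfl fun v _ => ?_
        rw [inter_erase]
      rw [h4] at h2
      push_cast at h3
      linarith
    have h5 := sum_le_sum h1
    rw [sum_add_distrib, sum_add_distrib, sum_const, sum_const, hW] at h5
    have h6 : ∑ w ∈ W, ∑ v ∈ W.erase w, f ((nb C v ∩ W).erase w) =
        ∑ v ∈ W, ∑ w ∈ W.erase v, f ((nb C v ∩ W).erase w) := by
      have e1 : ∀ g : V → V → ℝ, ∑ w ∈ W, ∑ v ∈ W.erase w, g w v =
          ∑ w ∈ W, ∑ v ∈ W, if v ≠ w then g w v else 0 := by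
        intro g
        refine sum_congr rfl fun w _ => ?_
        rw [← sum_filter]
        refine sum_congr ?_ fun _ _ => rfl
        ext v
        rw [mem_erase, mem_filter]
        tauto
      rw [e1 (fun w v => f ((nb C v ∩ W).erase w)), e1 (fun v w => f ((nb C v ∩ W).erase w)),
        sum_comm]
      refine sum_congr rfl fun v _ => sum_congr rfl fun w _ => ?_
      by_cases h : v = w
      · rw [if_neg (by simp [h]), if_neg (by simp [h])]
      · rw [if_pos h, if_pos (Ne.symm h)]
    have h7 : ∀ v ∈ W, ((m : ℝ) + 1) * f (nb C v ∩ W) ≤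
        inc C d (nb C v ∩ W) + ∑ w ∈ W.erase v, f ((nb C v ∩ W).erase w) := by
      intro v hv
      set T := nb C v ∩ W with hT
      have hTW : T ⊆ W.erase v := by
        intro z hz
        rw [hT, mem_inter] at hz
        exact mem_erase.2 ⟨(mem_nb.1 hz.1).ne', hz.2⟩
      have h8 : ∑ w ∈ W.erase v, f (T.erase w) =
          ∑ w ∈ T, f (T.erase w) + ((m : ℝ) - T.card) * f T := by
        rw [← sum_sdiff hTW, add_comm]
        congr 1
        have h9 : ∀ w ∈ W.erase v \ T, f (T.erase w) = f T := by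
          intro w hw
          rw [erase_eq_of_notMem (mem_sdiff.1 hw).2]
        rw [sum_congr rfl h9, sum_const, card_sdiff_of_subset hTW, card_erase_of_mem hv, hW,
          nsmul_eq_mul]
        have h10 := card_le_card hTW
        rw [card_erase_of_mem hv, hW] at h10
        rw [Nat.cast_sub (by simpa using h10)]
        simp
      rw [h8]
      have := hf v T inter_subset_left
      linarith
    have h8 := sum_le_sum h7
    rw [sum_add_distrib, ← mul_sum] at h8
    rw [h6] at h5
    simp only [nsmul_eq_mul] at h5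
    have h9 : ((m : ℝ) + 1) * (∑ v ∈ W, f (nb C v ∩ W) + (mo (sub C W) p : ℝ)) ≤
        ((m : ℝ) + 1) * (d * Fintype.card V) := by
      push_cast at h5
      linarith
    exact le_of_mul_le_mul_left h9 (by positivity)

end Pool.Agent.U656.RG
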