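import Mathlib
import Pool.Agent.U656.RG.Pot

/-!
# The potentials
-/

set_option autoImplicit false
set_option linter.unusedSectionVars false

namespace Pool.Agent.U656.RG

open Matrix Finset Pool.Agent.H283R2.DR Pool.Agent.H789R5 Pool.Agent.N423.DE

variable {V : Type} [Fintype V] {d : ℕ}

noncomputable def Kf (d t : ℕ) : ℝ := if t ≤ d then t / 2 else d - d * (d + 1) / (2 * (t + 1))

noncomputable def Af (d t : ℕ) : ℝ := if t ≤ d then t / 2 else d + 1 / 2 - d * (d + 1) / (2 * t)

theorem Kf_small {d t : ℕ} (h : t ≤ d) : Kf d t = t / 2 := if_pos h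

theorem Af_small {d t : ℕ} (h : t ≤ d) : Af d t = t / 2 := if_pos h

/-- the formula also holds at `t = d` and at `t + 1 = d` -/
theorem Kf_big {d t : ℕ} (h : d ≤ t + 1) : Kf d t = d - d * (d + 1) / (2 * (t + 1)) := by
  unfold Kf
  by_cases h1 : t ≤ d
  · rw [if_pos h1]
    have h2 : t = d ∨ t + 1 = d := by omega
    rcases h2 with rfl | rfl
    · have : (t : ℝ) + 1 ≠ 0 := by positivity
      field_simp
      ring
    · have : (t : ℝ) + 1 ≠ 0 := by positivity
      push_cast
      field_simp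
      ring
  · rw [if_neg h1]

theorem Af_big {d t : ℕ} (h : d ≤ t) (h1 : 1 ≤ t) : Af d t = d + 1 / 2 - d * (d + 1) / (2 * t) := by
  unfold Af
  by_cases h2 : t ≤ d
  · rw [if_pos h2]
    have h3 : t = d := by omega
    subst h3
    have : (t : ℝ) ≠ 0 := by positivity
    field_simp
    ring
  · rw [if_neg h2]

theorem Kf_le_Af (d t : ℕ) : Kf d t ≤ Af d t := by
  by_cases h : t ≤ d
  · rw [Kf_small h, Af_small h]
  · push Not at h
    rw [Kf_big (by omega), Af_big h.le (by omega)]
    have h1 : (d : ℝ) + 1 ≤ t := by exact_mod_cast h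
    have h0 : (0 : ℝ) ≤ d := by positivity
    have ht : (0 : ℝ) < t := by linarith
    have e : (d : ℝ) + 1 / 2 - d * (d + 1) / (2 * t) - (d - d * (d + 1) / (2 * (t + 1))) =
        (t * (t + 1) - d * (d + 1)) / (2 * t * (t + 1)) := by
      field_simp
      ring
    have e2 : 0 ≤ (t * (t + 1) - (d : ℝ) * (d + 1)) / (2 * t * (t + 1)) := by
      apply div_nonneg
      · nlinarith
      · positivity
    linarith

theorem Kf_rec {d t : ℕ} (h : d + 1 ≤ t) : ((t : ℝ) + 1) * Kf d t = d + t * Kf d (t - 1) := by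
  obtain ⟨s, rfl⟩ : ∃ s, t = s + 1 := ⟨t - 1, by omega⟩
  rw [Kf_big (by omega), Nat.add_sub_cancel, Kf_big (t := s) (by omega)]
  push_cast
  have h1 : (s : ℝ) + 1 ≠ 0 := by positivity
  have h2 : (s : ℝ) + 1 + 1 ≠ 0 := by positivity
  field_simp
  ring

theorem Af_rec {d t : ℕ} (h : d + 1 ≤ t) (hd : 1 ≤ d) :
    ((t : ℝ) + 1) * Af d t = d + 1 + (Kf d (t - 1) + ((t : ℝ) - 1) * Af d (t - 1)) := by
  obtain ⟨s, rfl⟩ : ∃ s, t = s + 1 := ⟨t - 1, by omega⟩
  rw [Af_big (by omega) (by omega), Nat.add_sub_cancel, Kf_big (t := s) (by omega),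
    Af_big (t := s) (by omega) (by omega)]
  push_cast
  have h1 : (s : ℝ) + 1 ≠ 0 := by positivity
  have h2 : (s : ℝ) ≠ 0 := by
    have : 1 ≤ s := by omega
    positivity
  field_simp
  ring

open Classical in
/-- the potential -/
noncomputable def fA (C : SimpleGraph V) (d : ℕ) (T : Finset V) : ℝ :=
  if Cq C T then Kf d T.card else Af d T.card

theorem fA_small {C : SimpleGraph V} {T : Finset V} (h : T.card ≤ d) : fA C d T = T.card / 2 := by
  unfold fA
  rw [Kf_small h, Af_small h, ite_self]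

theorem inc_small {C : SimpleGraph V} {T : Finset V} (h : T.card ≤ d) : inc C d T = T.card := by
  unfold inc
  rw [if_neg (by rintro ⟨h1, -⟩; omega), min_eq_right h, add_zero]

theorem inc_clique {C : SimpleGraph V} {T : Finset V} (h : d + 1 ≤ T.card) (hT : Cq C T) :
    inc C d T = d := by
  unfold inc
  rw [if_neg (fun h => h.2 hT), min_eq_left (by omega), add_zero]

theorem inc_big {C : SimpleGraph V} {T : Finset V} (h : d + 1 ≤ T.card) (hT : ¬ Cq C T) :
    inc C d T = d + 1 := by
  unfold inc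
  rw [if_pos ⟨h, hT⟩, min_eq_left (by omega)]

theorem nadj_of_two [DecidableEq V] {C : SimpleGraph V} {T : Finset V} (hT : ¬ Cq C T) {u w : V}
    (hu : Cq C (T.erase u)) (hw : Cq C (T.erase w)) (huw : u ≠ w) :
    u ∈ T ∧ w ∈ T ∧ ¬ C.Adj u w := by
  unfold Cq at hT
  push Not at hT
  obtain ⟨x, hx, y, hy, hxy, hadj⟩ := hT
  have h1 : x = u ∨ y = u := by
    by_contra h
    push Not at h
    exact hadj (hu x (mem_erase.2 ⟨h.1, hx⟩) y (mem_erase.2 ⟨h.2, hy⟩) hxy)
  have h2 : x = w ∨ y = w := by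
    by_contra h
    push Not at h
    exact hadj (hw x (mem_erase.2 ⟨h.1, hx⟩) y (mem_erase.2 ⟨h.2, hy⟩) hxy)
  rcases h1 with rfl | rfl
  · rcases h2 with rfl | rfl
    · exact absurd rfl huw
    · exact ⟨hx, hy, hadj⟩
  · rcases h2 with rfl | rfl
    · exact ⟨hy, hx, fun h => hadj h.symm⟩
    · exact absurd rfl huw

/-- a set of neighbours which is no clique has at most one element whose removal leaves a clique -/
theorem erase_unique [DecidableEq V] {p : V → Fin d → ℝ} (hp : MG p) {C : SimpleGraph V}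
    (hC : Closed C p) {v : V} {T : Finset V} (hTv : T ⊆ nb C v) (ht : d + 1 ≤ T.card)
    (hT : ¬ Cq C T) {u w : V} (hu : Cq C (T.erase u)) (hw : Cq C (T.erase w)) : u = w := by
  by_contra huw
  obtain ⟨huT, hwT, hadj⟩ := nadj_of_two hT hu hw huw
  apply hadj
  have hvT : v ∉ T := fun h => not_mem_nb C v (hTv h)
  have h2c : 1 < T.card := one_lt_card.2 ⟨u, huT, w, hwT, huw⟩
  have hc : (insert v ((T.erase u).erase w)).card = T.card - 1 := by
    rw [card_insert_of_notMem (fun h => hvT (mem_of_mem_erase (mem_of_mem_erase h))),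
      card_erase_of_mem (mem_erase.2 ⟨Ne.symm huw, hwT⟩), card_erase_of_mem huT]
    omega
  refine closed_common hp hC (T := insert v ((T.erase u).erase w)) (by omega) ?_ huw ?_ ?_
  · intro a ha b hb hab
    rw [mem_insert] at ha hb
    rcases ha with rfl | ha <;> rcases hb with rfl | hb
    · exact absurd rfl hab
    · exact mem_nb.1 (hTv (mem_of_mem_erase (mem_of_mem_erase hb)))
    · exact (mem_nb.1 (hTv (mem_of_mem_erase (mem_of_mem_erase ha)))).symm
    · exact hu a (mem_of_mem_erase ha) b (mem_of_mem_erase hb) hab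
  · intro t ht
    rw [mem_insert] at ht
    rcases ht with rfl | ht
    · exact (mem_nb.1 (hTv huT)).symm
    · obtain ⟨h1, h2⟩ := mem_erase.1 ht
      obtain ⟨h3, h4⟩ := mem_erase.1 h2
      exact hw u (mem_erase.2 ⟨huw, huT⟩) t (mem_erase.2 ⟨h1, h4⟩) (Ne.symm h3)
  · intro t ht
    rw [mem_insert] at ht
    rcases ht with rfl | ht
    · exact (mem_nb.1 (hTv hwT)).symm
    · obtain ⟨h1, h2⟩ := mem_erase.1 ht
      exact hu w (mem_erase.2 ⟨Ne.symm huw, hwT⟩) t h2 (Ne.symm h1)

theorem hfA [DecidableEq V] {p : V → Fin d → ℝ} (hp : MG p) (hd : 1 ≤ d) {C : SimpleGraph V}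
    (hC : Closed C p) (v : V) (T : Finset V) (hTv : T ⊆ nb C v) :
    ((T.card : ℝ) + 1) * fA C d T ≤ inc C d T + ∑ u ∈ T, fA C d (T.erase u) := by
  classical
  by_cases ht : T.card ≤ d
  · rw [fA_small ht, inc_small ht]
    have h1 : ∀ u ∈ T, fA C d (T.erase u) = ((T.card : ℝ) - 1) / 2 := by
      intro u hu
      rw [fA_small (by rw [card_erase_of_mem hu]; omega), card_erase_of_mem hu,
        Nat.cast_sub (card_pos.2 ⟨u, hu⟩)]
      simp
    rw [sum_congr rfl h1, sum_const, nsmul_eq_mul]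
    apply le_of_eq
    ring
  push Not at ht
  have ht' : d + 1 ≤ T.card := ht
  by_cases hT : Cq C T
  · rw [inc_clique ht' hT]
    have h1 : ∀ u ∈ T, fA C d (T.erase u) = Kf d (T.card - 1) := by
      intro u hu
      unfold fA
      rw [if_pos (hT.subset (erase_subset _ _)), card_erase_of_mem hu]
    rw [sum_congr rfl h1, sum_const, nsmul_eq_mul]
    unfold fA
    rw [if_pos hT, Kf_rec ht']
  · rw [inc_big ht' hT]
    have h0 : fA C d T = Af d T.card := by unfold fA; rw [if_neg hT]
    rw [h0, Af_rec ht' hd]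
    push_cast
    have h1 : ∀ u ∈ T, ¬ Cq C (T.erase u) → fA C d (T.erase u) = Af d (T.card - 1) := by
      intro u hu h
      unfold fA
      rw [if_neg h, card_erase_of_mem hu]
    by_cases hex : ∃ u ∈ T, Cq C (T.erase u)
    · obtain ⟨u, hu, hcl⟩ := hex
      rw [← add_sum_erase T _ hu]
      have h2 : fA C d (T.erase u) = Kf d (T.card - 1) := by
        unfold fA
        rw [if_pos hcl, card_erase_of_mem hu]
      have h3 : ∀ w ∈ T.erase u, fA C d (T.erase w) = Af d (T.card - 1) := by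
        intro w hw
        refine h1 w (mem_of_mem_erase hw) fun hcl' => ?_
        exact (mem_erase.1 hw).1 (erase_unique hp hC hTv ht' hT hcl' hcl)
      rw [h2, sum_congr rfl h3, sum_const, card_erase_of_mem hu, nsmul_eq_mul,
        Nat.cast_sub (by omega)]
      push_cast
      exact le_rfl
    · push Not at hex
      rw [sum_congr rfl (fun u hu => h1 u hu (hex u hu)), sum_const, nsmul_eq_mul]
      have := Kf_le_Af d (T.card - 1)
      linarith

/-- **The rank of a closed graph.** -/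
theorem potA [DecidableEq V] {p : V → Fin d → ℝ} (hp : MG p) (hd : 1 ≤ d) {C : SimpleGraph V}
    (hC : Closed C p) (W : Finset V) :
    ∑ v ∈ W, fA C d (nb C v ∩ W) + (mo (sub C W) p : ℝ) ≤ d * Fintype.card V :=
  pot hp hd hC (fA C d) (hfA hp hd hC) W.card W rfl

end Pool.Agent.U656.RG
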