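import Mathlib
import Pool.Agent.U656.RG.Fn
import Pool.Agent.H283R2.DR.TaskC

/-!
# Automorphisms, complete closures, and unions of complete graphs
-/

set_option autoImplicit false
set_option linter.unusedSectionVars false

namespace Pool.Agent.U656.RG

open Matrix Finset Pool.Agent.H283R2.DR Pool.Agent.H789R5 Pool.Agent.N423.DE

variable {V : Type} [Fintype V] {d : ℕ}

theorem mo_comp_le {H G : SimpleGraph V} (e : V ≃ V) (h : ∀ x y, G.Adj (e x) (e y) → H.Adj x y)
    (p : V → Fin d → ℝ) : mo H (fun v => p (e v)) ≤ mo G p := by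
  classical
  let Φ : Mot H (fun v => p (e v)) →ₗ[ℝ] Mot G p :=
    { toFun := fun q => ⟨fun v => q.1 (e.symm v), by
        rw [mem_mot]
        intro u v huv
        have h1 : H.Adj (e.symm u) (e.symm v) := h _ _ (by simpa using huv)
        have h2 := (mem_mot H _ q.1).1 q.2 _ _ h1
        simpa using h2⟩
      map_add' := fun a b => rfl
      map_smul' := fun c a => rfl }
  have hinj : Function.Injective Φ := by
    intro a b hab
    apply Subtype.ext
    funext v
    have h1 := congrFun (congrArg Subtype.val hab) (e v)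
    change a.1 (e.symm (e v)) = b.1 (e.symm (e v)) at h1
    simpa using h1
  exact LinearMap.finrank_le_finrank_of_injective hinj

/-- the closure is invariant under automorphisms -/
theorem imp_aut {p : V → Fin d → ℝ} (hp : MG p) {G : SimpleGraph V} (φ : G ≃g G) {x y : V}
    (hxy : x ≠ y) (h : Imp G p x y) : Imp G p (φ x) (φ y) := by
  classical
  have hne : φ x ≠ φ y := fun h => hxy (φ.injective h)
  refine imp_of_mo_le (G' := G ⊔ SimpleGraph.edge (φ x) (φ y)) le_sup_left ?_
    (Or.inr (by rw [SimpleGraph.edge_adj]; exact ⟨Or.inl ⟨rfl, rfl⟩, hne⟩))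
  have h1 : mo G p ≤ mo (G ⊔ SimpleGraph.edge x y) p := by
    apply mo_le_of_imp
    rintro a b (hab | hab)
    · exact imp_of_adj hab
    · rw [SimpleGraph.edge_adj] at hab
      rcases hab.1 with ⟨rfl, rfl⟩ | ⟨rfl, rfl⟩
      · exact h
      · exact h.symm
  refine h1.trans ((hp.min _ (fun v => p (φ v))).trans (mo_comp_le φ.toEquiv ?_ p))
  rintro a b (hab | hab)
  · exact Or.inl (φ.map_rel_iff.1 hab)
  · rw [SimpleGraph.edge_adj] at hab
    refine Or.inr ?_
    rw [SimpleGraph.edge_adj]
    obtain ⟨h2, h3⟩ := hab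
    refine ⟨?_, fun h => h3 (by rw [h])⟩
    rcases h2 with ⟨h4, h5⟩ | ⟨h4, h5⟩
    · exact Or.inl ⟨φ.injective h4, φ.injective h5⟩
    · exact Or.inr ⟨φ.injective h4, φ.injective h5⟩

theorem cl_aut {p : V → Fin d → ℝ} (hp : MG p) {G : SimpleGraph V} (φ : G ≃g G) (x y : V) :
    (cl G p).Adj (φ x) (φ y) ↔ (cl G p).Adj x y := by
  constructor
  · rintro ⟨h1, h2⟩
    have h3 : x ≠ y := fun h => h1 (by rw [h])
    refine ⟨h3, ?_⟩
    have h4 := imp_aut hp φ.symm h1 h2
    have e1 : φ.symm (φ x) = x := φ.toEquiv.symm_apply_apply x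
    have e2 : φ.symm (φ y) = y := φ.toEquiv.symm_apply_apply y
    rwa [e1, e2] at h4
  · rintro ⟨h1, h2⟩
    exact ⟨fun h => h1 (φ.injective h), imp_aut hp φ h1 h2⟩

theorem nb_aut [DecidableEq V] {p : V → Fin d → ℝ} (hp : MG p) {G : SimpleGraph V} (φ : G ≃g G)
    (v : V) : nb (cl G p) (φ v) = (nb (cl G p) v).image φ := by
  ext z
  rw [mem_nb, mem_image]
  constructor
  · intro h
    have e1 : φ (φ.symm z) = z := φ.toEquiv.apply_symm_apply z
    refine ⟨φ.symm z, ?_, e1⟩
    rw [mem_nb, ← cl_aut hp φ, e1]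
    exact h
  · rintro ⟨w, hw, rfl⟩
    rw [cl_aut hp φ]
    exact mem_nb.1 hw

theorem cq_aut [DecidableEq V] {p : V → Fin d → ℝ} (hp : MG p) {G : SimpleGraph V} (φ : G ≃g G)
    (T : Finset V) : Cq (cl G p) (T.image φ) ↔ Cq (cl G p) T := by
  constructor
  · intro h a ha b hb hab
    rw [← cl_aut hp φ]
    exact h _ (mem_image_of_mem _ ha) _ (mem_image_of_mem _ hb) (fun h => hab (φ.injective h))
  · intro h a ha b hb hab
    rw [mem_image] at ha hb
    obtain ⟨a, ha, rfl⟩ := ha
    obtain ⟨b, hb, rfl⟩ := hb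
    rw [cl_aut hp φ]
    exact h a ha b hb (fun h => hab (by rw [h]))

/-- a connected graph in which all neighbourhoods are complete is complete -/
theorem complete_of_local {C : SimpleGraph V} (hC : C.Connected) (h : ∀ v, Cq C (nb C v))
    (x y : V) (hxy : x ≠ y) : C.Adj x y := by
  obtain ⟨w⟩ := hC.preconnected x y
  have key : ∀ {a b : V}, C.Walk a b → a ≠ b → C.Adj a b := by
    intro a b w
    induction w with
    | nil => intro h; exact absurd rfl h
    | @cons a b c hab _ ih =>
      intro hac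
      by_cases hbc : b = c
      · rw [← hbc]; exact hab
      · have h1 := ih hbc
        exact h b a (mem_nb.2 hab.symm) c (mem_nb.2 h1) hac
  exact key w hxy

theorem rigid_of_complete {p : V → Fin d → ℝ} (hp : MG p) (hd : d ≤ Fintype.card V)
    {G : SimpleGraph V} (h : ∀ x y, x ≠ y → (cl G p).Adj x y) : GenRigid d G := by
  rw [genRigid_iff hp hd, ← mo_cl, ← genRigid_iff hp hd]
  refine ⟨p, ?_⟩
  rw [← rigidOn_univ_iff]
  have := rigid_complete hp.toGen (cl G p) univ (fun u _ v _ huv => h u v huv)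
  simpa using this

/-- **Disjoint unions**: a family of pairwise disjoint sets with at least `d` elements such that
each edge is inside a set. -/
theorem blocks_le {p : V → Fin d → ℝ} (hp : MG p) {G : SimpleGraph V} {ι : Type} [Fintype ι]
    (β : V → ι) (hG : ∀ u v, G.Adj u v → β u = β v)
    (hβ : ∀ i, ∃ S : Finset V, d ≤ S.card ∧ ∀ v ∈ S, β v = i) :
    Fintype.card ι * (d * (d + 1) / 2) ≤ mo G p := by
  classical
  let Φ : (ι → TA.Sk d × (Fin d → ℝ)) →ₗ[ℝ] Mot G p :=
    { toFun := fun a => ⟨fun v => ((a (β v)).1 : Matrix (Fin d) (Fin d) ℝ) *ᵥ p v + (a (β v)).2, by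
        rw [mem_mot]
        intro u v huv
        show (p u - p v) ⬝ᵥ (((a (β u)).1 : Matrix (Fin d) (Fin d) ℝ) *ᵥ p u + (a (β u)).2 -
          (((a (β v)).1 : Matrix (Fin d) (Fin d) ℝ) *ᵥ p v + (a (β v)).2)) = 0
        rw [hG u v huv, add_sub_add_right_eq_sub, ← Matrix.mulVec_sub]
        have hsk : ((a (β v)).1 : Matrix (Fin d) (Fin d) ℝ)ᵀ = -(a (β v)).1 := (a (β v)).1.2
        exact skew_dot_self hsk _⟩
      map_add' := by
        intro a b
        apply Subtype.ext
        funext v
        simp only [Pi.add_apply, Prod.fst_add, Prod.snd_add, Submodule.coe_add, add_mulVec]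
        abel
      map_smul' := by
        intro c a
        apply Subtype.ext
        funext v
        simp only [Pi.smul_apply, Prod.smul_fst, Prod.smul_snd, Submodule.coe_smul, smul_mulVec,
          RingHom.id_apply, smul_add] }
  have hinj : Function.Injective Φ := by
    intro a b hab
    funext i
    obtain ⟨S, hS, hSi⟩ := hβ i
    have h1 : ∀ v ∈ S, ((a i).1 : Matrix (Fin d) (Fin d) ℝ) *ᵥ p v + (a i).2 =
        ((b i).1 : Matrix (Fin d) (Fin d) ℝ) *ᵥ p v + (b i).2 := by
      intro v hv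
      have h2 := congrFun (congrArg Subtype.val hab) v
      change ((a (β v)).1 : Matrix (Fin d) (Fin d) ℝ) *ᵥ p v + (a (β v)).2 =
        ((b (β v)).1 : Matrix (Fin d) (Fin d) ℝ) *ᵥ p v + (b (β v)).2 at h2
      rwa [hSi v hv] at h2
    obtain ⟨h3, h4⟩ := triv_unique hp.toGen hS (a i).1.2 (b i).1.2 h1
    exact Prod.ext (Subtype.ext h3) h4
  have h1 := LinearMap.finrank_le_finrank_of_injective hinj
  rw [Module.finrank_pi_fintype, Finset.sum_const, finrank_triv, smul_eq_mul,
    Finset.card_univ] at h1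
  exact h1

end Pool.Agent.U656.RG
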