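import Mathlib
import Pool.Agent.U656.RG.Aut

/-!
# Graphs with a partition into complete graphs
-/

set_option autoImplicit false
set_option linter.unusedSectionVars false

namespace Pool.Agent.U656.RG

open Matrix Finset Pool.Agent.H283R2.DR Pool.Agent.H789R5 Pool.Agent.N423.DE

variable {V : Type} [Fintype V] {d : ℕ}

/-- the block of each vertex -/
def IsPart (k : ℕ) (G : SimpleGraph V) (B : V → Finset V) : Prop :=
  ∀ v, v ∈ B v ∧ (B v).card = k ∧ ∀ w ∈ B v, B w = B v ∧ (w ≠ v → G.Adj v w)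

theorem IsPart.mem_iff {k : ℕ} {G : SimpleGraph V} {B : V → Finset V} (h : IsPart k G B) (v w : V) :
    w ∈ B v ↔ B w = B v :=
  ⟨fun hw => ((h v).2.2 w hw).1, fun hw => hw ▸ (h w).1⟩

/-- the edges between different blocks -/
def outer (G : SimpleGraph V) (B : V → Finset V) : SimpleGraph V where
  Adj u v := G.Adj u v ∧ B u ≠ B v
  symm := ⟨fun _ _ h => ⟨h.1.symm, h.2.symm⟩⟩
  loopless := ⟨fun _ h => h.1.ne rfl⟩

/-- the edges inside the blocks -/
def inner (G : SimpleGraph V) (B : V → Finset V) : SimpleGraph V where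
  Adj u v := G.Adj u v ∧ B u = B v
  symm := ⟨fun _ _ h => ⟨h.1.symm, h.2.symm⟩⟩
  loopless := ⟨fun _ h => h.1.ne rfl⟩

theorem sum_nb (G : SimpleGraph V) : ∑ v, (nb G v).card = 2 * G.edgeSet.ncard := by
  classical
  have h := G.sum_degrees_eq_twice_card_edges
  rw [← SimpleGraph.coe_edgeFinset, Set.ncard_coe_finset, ← h]
  refine sum_congr rfl fun v _ => ?_
  rw [← SimpleGraph.card_neighborFinset_eq_degree]
  congr 1
  ext z
  rw [mem_nb, SimpleGraph.mem_neighborFinset]

theorem outer_card [DecidableEq V] {k : ℕ} {G : SimpleGraph V} {B : V → Finset V}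
    (h : IsPart k G B) {v : V} (hk : (nb G v).card = k) : (nb (outer G B) v).card = 1 := by
  have h1 : (B v).erase v ⊆ nb G v := by
    intro z hz
    rw [mem_erase] at hz
    exact mem_nb.2 (((h v).2.2 z hz.2).2 hz.1)
  have h2 : nb (outer G B) v = nb G v \ (B v).erase v := by
    ext z
    rw [mem_nb, mem_sdiff, mem_nb, mem_erase]
    constructor
    · rintro ⟨h3, h4⟩
      refine ⟨h3, fun h5 => h4 ?_⟩
      exact ((h.mem_iff v z).1 h5.2).symm
    · rintro ⟨h3, h4⟩
      refine ⟨h3, fun h5 => h4 ⟨h3.ne', ?_⟩⟩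
      exact (h.mem_iff v z).2 h5.symm
  rw [h2, card_sdiff_of_subset h1, card_erase_of_mem (h v).1, (h v).2.1, hk]
  have : 0 < (B v).card := card_pos.2 ⟨v, (h v).1⟩
  rw [(h v).2.1] at this
  omega

theorem outer_edges [DecidableEq V] {k : ℕ} {G : SimpleGraph V} {B : V → Finset V}
    (h : IsPart k G B) (hk : ∀ v, (nb G v).card = k) :
    2 * (outer G B).edgeSet.ncard = Fintype.card V := by
  rw [← sum_nb, sum_congr rfl fun v _ => outer_card h (hk v)]
  simp

theorem blocks_card [DecidableEq V] {k : ℕ} {G : SimpleGraph V} {B : V → Finset V}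
    (h : IsPart k G B) : (univ.image B).card * k = Fintype.card V := by
  have h1 := card_eq_sum_card_image B univ
  rw [card_univ] at h1
  rw [h1]
  have h2 : ∀ b ∈ univ.image B, (univ.filter fun a => B a = b).card = k := by
    intro b hb
    obtain ⟨v, -, rfl⟩ := mem_image.1 hb
    rw [← (h v).2.1]
    congr 1
    ext w
    rw [mem_filter, h.mem_iff v w]
    simp
  rw [sum_congr rfl h2, sum_const, smul_eq_mul]

/-- **An upper bound for the rank.** -/
theorem part_upper {p : V → Fin d → ℝ} (hp : MG p) {k : ℕ} (hdk : d ≤ k) {G : SimpleGraph V}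
    {B : V → Finset V} (h : IsPart k G B) (hk : ∀ v, (nb G v).card = k) :
    Fintype.card V * (d * (d + 1)) ≤ 2 * k * mo G p + k * Fintype.card V := by
  classical
  have h1 := blocks_card h
  have h2 := outer_edges h hk
  have h3 : Fintype.card (univ.image B : Finset (Finset V)) * (d * (d + 1) / 2) ≤
      mo (inner G B) p := by
    refine blocks_le hp (ι := (univ.image B : Finset (Finset V)))
      (fun v => ⟨B v, mem_image_of_mem _ (mem_univ v)⟩) ?_ ?_
    · intro u v huv
      exact Subtype.ext huv.2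
    · rintro ⟨b, hb⟩
      obtain ⟨v, -, rfl⟩ := mem_image.1 hb
      refine ⟨B v, by rw [(h v).2.1]; exact hdk, fun w hw => ?_⟩
      exact Subtype.ext ((h.mem_iff v w).1 hw)
  rw [Fintype.card_coe] at h3
  have h4 := mo_le_add (G := inner G B) (G' := G) p
  have h5 : G.edgeSet \ (inner G B).edgeSet = (outer G B).edgeSet := by
    ext e
    induction e using Sym2.ind with
    | _ a b =>
      rw [Set.mem_sdiff, SimpleGraph.mem_edgeSet, SimpleGraph.mem_edgeSet, SimpleGraph.mem_edgeSet]
      constructor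
      · rintro ⟨h6, h7⟩
        exact ⟨h6, fun h8 => h7 ⟨h6, h8⟩⟩
      · rintro ⟨h6, h7⟩
        exact ⟨h6, fun h8 => h7 h8.2⟩
  rw [h5] at h4
  have heven : 2 * (d * (d + 1) / 2) = d * (d + 1) :=
    Nat.mul_div_cancel' (Nat.even_mul_succ_self d).two_dvd
  set m := (univ.image B).card
  set D := d * (d + 1) / 2
  calc Fintype.card V * (d * (d + 1)) = 2 * k * (m * D) := by rw [← h1, ← heven]; ring
    _ ≤ 2 * k * (mo G p + (outer G B).edgeSet.ncard) := Nat.mul_le_mul_left _ (h3.trans h4)
    _ = 2 * k * mo G p + k * (2 * (outer G B).edgeSet.ncard) := by ring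
    _ = _ := by rw [h2]

theorem not_rigid_of_part {k : ℕ} (hdk : d ≤ k) (hn : d ≤ Fintype.card V) {G : SimpleGraph V}
    {B : V → Finset V} (h : IsPart k G B) (hk : ∀ v, (nb G v).card = k)
    (hlt : d * (d + 1) * k < (d * (d + 1) - k) * Fintype.card V) : ¬ GenRigid d G := by
  obtain ⟨p, hp⟩ := exists_mg V d
  rw [genRigid_iff hp hn]
  intro hmo
  have h1 := part_upper hp hdk h hk
  have heven : 2 * (d * (d + 1) / 2) = d * (d + 1) :=
    Nat.mul_div_cancel' (Nat.even_mul_succ_self d).two_dvd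
  have h2 : 2 * k * mo G p ≤ k * (d * (d + 1)) := by
    calc 2 * k * mo G p ≤ 2 * k * (d * (d + 1) / 2) := Nat.mul_le_mul_left _ hmo
      _ = k * (2 * (d * (d + 1) / 2)) := by ring
      _ = _ := by rw [heven]
  have h3 : k ≤ d * (d + 1) := by
    by_contra hc
    push Not at hc
    rw [Nat.sub_eq_zero_of_le hc.le, zero_mul] at hlt
    exact absurd hlt (Nat.not_lt_zero _)
  zify [h3] at hlt h1 h2
  nlinarith

end Pool.Agent.U656.RG
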