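import Mathlib
import Pool.Agent.U656.RG.Blk

/-!
# Truncated complete bipartite graphs
-/

set_option autoImplicit false
set_option linter.unusedSectionVars false

namespace Pool.Agent.U656.RG

open Matrix Finset Pool.Agent.H283R2.DR Pool.Agent.H789R5 Pool.Agent.N423.DE

/-- the darts of the complete bipartite graph `K_{m,m}`; darts with the same initial vertex are
adjacent, and so are the two darts of an edge -/
def dart (m : ℕ) : SimpleGraph (Bool × Fin m × Fin m) where
  Adj u v := (u.1 = v.1 ∧ u.2.1 = v.2.1 ∧ u.2.2 ≠ v.2.2) ∨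
    (u.1 = !v.1 ∧ u.2.1 = v.2.2 ∧ u.2.2 = v.2.1)
  symm := by
    refine ⟨?_⟩
    rintro ⟨a, i, j⟩ ⟨b, k, l⟩ (⟨h1, h2, h3⟩ | ⟨h1, h2, h3⟩)
    · exact Or.inl ⟨h1.symm, h2.symm, h3.symm⟩
    · refine Or.inr ⟨?_, h3.symm, h2.symm⟩
      simp only at h1 ⊢
      rw [h1, Bool.not_not]
  loopless := by
    refine ⟨?_⟩
    rintro ⟨a, i, j⟩ (⟨-, -, h3⟩ | ⟨h1, -, -⟩)
    · exact h3 rfl
    · simp at h1

/-- an automorphism -/
def dartAut (m : ℕ) (b : Bool) (π : Bool → Equiv.Perm (Fin m)) : dart m ≃g dart m where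
  toFun u := (xor u.1 b, π u.1 u.2.1, π (!u.1) u.2.2)
  invFun u := (xor u.1 b, (π (xor u.1 b)).symm u.2.1, (π (!(xor u.1 b))).symm u.2.2)
  left_inv := by
    rintro ⟨a, i, j⟩
    simp
  right_inv := by
    rintro ⟨a, i, j⟩
    simp
  map_rel_iff' := by
    rintro ⟨a, i, j⟩ ⟨c, k, l⟩
    simp only [dart, Equiv.coe_fn_mk]
    constructor
    · rintro (⟨h1, h2, h3⟩ | ⟨h1, h2, h3⟩)
      · have h4 : a = c := by simpa using h1
        subst h4
        exact Or.inl ⟨rfl, (π a).injective h2, fun h => h3 (by rw [h])⟩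
      · have h4 : a = !c := by
          revert h1
          cases a <;> cases b <;> cases c <;> simp
        subst h4
        refine Or.inr ⟨rfl, (π (!c)).injective h2, ?_⟩
        rw [Bool.not_not] at h3
        exact (π c).injective h3
    · rintro (⟨h1, h2, h3⟩ | ⟨h1, h2, h3⟩)
      · subst h1
        subst h2
        exact Or.inl ⟨rfl, rfl, fun h => h3 ((π (!a)).injective h)⟩
      · subst h1
        subst h2
        subst h3
        refine Or.inr ⟨?_, rfl, ?_⟩
        · cases b <;> cases c <;> simp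
        · rw [Bool.not_not]

theorem dart_trans (m : ℕ) (u v : Bool × Fin m × Fin m) : ∃ φ : dart m ≃g dart m, φ u = v := by
  obtain ⟨a, i, j⟩ := u
  obtain ⟨c, k, l⟩ := v
  refine ⟨dartAut m (xor a c) (fun t => if t = a then Equiv.swap i k else Equiv.swap j l), ?_⟩
  show (xor a (xor a c), (if a = a then Equiv.swap i k else Equiv.swap j l) i,
    (if (!a) = a then Equiv.swap i k else Equiv.swap j l) j) = (c, k, l)
  rw [if_pos rfl, if_neg (by simp), Equiv.swap_apply_left, Equiv.swap_apply_left]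
  congr 1
  cases a <;> cases c <;> rfl

theorem dart_same {m : ℕ} (a : Bool) (i j k : Fin m) :
    (dart m).Reachable (a, i, j) (a, i, k) := by
  by_cases h : j = k
  · rw [h]
  · exact SimpleGraph.Adj.reachable (Or.inl ⟨rfl, rfl, h⟩)

theorem dart_conn {m : ℕ} (hm : 0 < m) : (dart m).Connected := by
  have : Nonempty (Bool × Fin m × Fin m) := ⟨(true, ⟨0, hm⟩, ⟨0, hm⟩)⟩
  have hflip : ∀ (a : Bool) (i j : Fin m), (dart m).Reachable (a, i, j) (!a, j, i) := by
    intro a i j
    exact SimpleGraph.Adj.reachable (Or.inr ⟨by simp, rfl, rfl⟩)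
  have hside : ∀ (a : Bool) (i j k l : Fin m), (dart m).Reachable (a, i, j) (a, k, l) := by
    intro a i j k l
    have h1 := hflip a i j
    have h2 := dart_same (!a) j i k
    have h3 := hflip (!a) j k
    rw [Bool.not_not] at h3
    exact ((h1.trans h2).trans h3).trans (dart_same a k j l)
  refine ⟨?_⟩
  rintro ⟨a, i, j⟩ ⟨c, k, l⟩
  by_cases h : a = c
  · subst h
    exact hside a i j k l
  · have h' : c = !a := by
      cases a <;> cases c <;> simp_all
    subst h'
    exact (hflip a i j).trans (hside _ _ _ _ _)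

theorem dart_part (m : ℕ) : IsPart m (dart m) (fun v => univ.image fun j => (v.1, v.2.1, j)) := by
  rintro ⟨a, i, j⟩
  refine ⟨mem_image.2 ⟨j, mem_univ _, rfl⟩, ?_, ?_⟩
  · rw [card_image_of_injective _ (fun x y h => by simpa using h), card_univ, Fintype.card_fin]
  · rintro w hw
    obtain ⟨k, -, rfl⟩ := mem_image.1 hw
    exact ⟨rfl, fun h => Or.inl ⟨rfl, rfl, fun h' => h (by simp only at h'; rw [h'])⟩⟩

theorem dart_deg {m : ℕ} (v : Bool × Fin m × Fin m) : (nb (dart m) v).card = m := by
  classical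
  obtain ⟨a, i, j⟩ := v
  have h1 : nb (dart m) (a, i, j) =
      insert (!a, j, i) ((univ.image fun k => (a, i, k)).erase (a, i, j)) := by
    ext ⟨c, k, l⟩
    rw [mem_nb, mem_insert, mem_erase, mem_image]
    constructor
    · rintro (⟨h1, h2, h3⟩ | ⟨h1, h2, h3⟩)
      · simp only at h1 h2 h3
        subst h1
        subst h2
        refine Or.inr ⟨fun h => h3 ?_, l, mem_univ _, rfl⟩
        simpa using h.symm
      · simp only at h1 h2 h3
        subst h1
        subst h2
        subst h3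
        exact Or.inl (by simp)
    · rintro (h | ⟨h1, x, -, h2⟩)
      · simp only [Prod.mk.injEq] at h
        obtain ⟨rfl, rfl, rfl⟩ := h
        exact Or.inr ⟨by simp, rfl, rfl⟩
      · simp only [Prod.mk.injEq] at h2
        obtain ⟨rfl, rfl, rfl⟩ := h2
        refine Or.inl ⟨rfl, rfl, fun h => h1 ?_⟩
        simp only at h
        rw [h]
  have h2 : (!a, j, i) ∉ (univ.image fun k => (a, i, k)).erase (a, i, j) := by
    intro h
    obtain ⟨x, -, hx⟩ := mem_image.1 (mem_of_mem_erase h)
    simp at hx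
  rw [h1, card_insert_of_notMem h2, card_erase_of_mem (mem_image.2 ⟨j, mem_univ _, rfl⟩),
    card_image_of_injective _ (fun x y h => by simpa using h), card_univ, Fintype.card_fin]
  have := j.pos
  omega

/-- **Sharpness**: a connected vertex-transitive graph of degree `d (d + 1) - 1` which is not
generically rigid. -/
theorem sharp {d : ℕ} (hd : 2 ≤ d) : ∃ (V : Type) (_ : Fintype V) (G : SimpleGraph V),
    G.Connected ∧ (∀ u v, ∃ φ : G ≃g G, φ u = v) ∧ (∀ v, (nb G v).card + 1 = d * (d + 1)) ∧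
    ¬ GenRigid d G := by
  obtain ⟨m, hm⟩ : ∃ m, m + 1 = d * (d + 1) := ⟨d * (d + 1) - 1, by
    have : 1 ≤ d * (d + 1) := Nat.one_le_iff_ne_zero.2 (by positivity)
    omega⟩
  have h6 : 6 ≤ d * (d + 1) := by nlinarith
  have hdm : d ≤ m := by nlinarith
  refine ⟨Bool × Fin m × Fin m, inferInstance, dart m, dart_conn (by omega), dart_trans m,
    fun v => by rw [dart_deg, hm], ?_⟩
  have hcard : Fintype.card (Bool × Fin m × Fin m) = 2 * (m * m) := by simp
  refine not_rigid_of_part hdm ?_ (dart_part m) dart_deg ?_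
  · rw [hcard]
    nlinarith
  · rw [hcard, ← hm]
    have : m + 1 - m = 1 := by omega
    rw [this]
    nlinarith

end Pool.Agent.U656.RG
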