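import Mathlib
import Pool.Agent.U656.RG.Sharp

/-!
# Cones over the truncated complete bipartite graphs
-/

set_option autoImplicit false
set_option linter.unusedSectionVars false

namespace Pool.Agent.U656.RG

open Matrix Finset Pool.Agent.H283R2.DR Pool.Agent.H789R5 Pool.Agent.N423.DE

theorem rigid_of_equiv {W W' : Type} {d : ℕ} {G : SimpleGraph W} {G' : SimpleGraph W'}
    (e : W ≃ W') (h : ∀ x y, G'.Adj (e x) (e y) → G.Adj x y) (hr : GenRigid d G') :
    GenRigid d G := by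
  obtain ⟨p, hp⟩ := hr
  refine ⟨fun x => p (e x), fun q hq => ?_⟩
  obtain ⟨A, b, hA, hb⟩ := hp (fun y => q (e.symm y)) (by
    intro u v huv
    have h1 := hq (e.symm u) (e.symm v) (h _ _ (by
      rw [Equiv.apply_symm_apply, Equiv.apply_symm_apply]
      exact huv))
    simp only [Equiv.apply_symm_apply] at h1
    exact h1)
  refine ⟨A, b, hA, fun v => ?_⟩
  have := hb (e v)
  simpa using this

/-- surviving edges -/
def alive {m : ℕ} (X : Set (Bool × Fin m × Fin m)) (e : Fin m × Fin m) : Prop :=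
  (true, e.1, e.2) ∉ X ∧ (false, e.2, e.1) ∉ X

theorem exists_alive {m : ℕ} [NeZero m] {X : Set (Bool × Fin m × Fin m)} (hX : X.ncard < m)
    (i j : Fin m) : ∃ t : Fin m, alive X (i, j + t) ∧ alive X (i + t, j + t) ∧
      alive X (i + t, j) := by
  classical
  -- the index of an edge
  set κ : Fin m × Fin m → Fin m := fun e => if e.1 = i then e.2 - j else e.1 - i with hκ
  set π : Bool × Fin m × Fin m → Fin m × Fin m := fun v =>
    if v.1 then (v.2.1, v.2.2) else (v.2.2, v.2.1) with hπ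
  have h1 : ((fun v => κ (π v)) '' X).ncard < m :=
    (Set.ncard_image_le (Set.toFinite _)).trans_lt hX
  obtain ⟨t, ht⟩ : ∃ t : Fin m, t ∉ (fun v => κ (π v)) '' X := by
    by_contra hcon
    push Not at hcon
    have h2 : (fun v => κ (π v)) '' X = Set.univ := Set.eq_univ_of_forall hcon
    rw [h2, Set.ncard_univ, Nat.card_eq_fintype_card, Fintype.card_fin] at h1
    exact lt_irrefl _ h1
  have key : ∀ e : Fin m × Fin m, κ e = t → alive X e := by
    rintro ⟨x, y⟩ he
    refine ⟨fun h => ht ⟨_, h, he⟩, fun h => ht ⟨_, h, he⟩⟩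
  refine ⟨t, key _ ?_, key _ ?_, key _ ?_⟩
  · show (if i = i then j + t - j else i - i) = t
    rw [if_pos rfl, add_sub_cancel_left]
  · show (if i + t = i then j + t - j else i + t - i) = t
    rw [add_sub_cancel_left, add_sub_cancel_left, ite_self]
  · show (if i + t = i then j - j else i + t - i) = t
    split_ifs with h
    · rw [sub_self]
      exact (left_eq_add.1 h.symm).symm
    · rw [add_sub_cancel_left]

theorem dart_kconn {m : ℕ} (hm : 1 ≤ m) : m < Nat.card (Bool × Fin m × Fin m) ∧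
    ∀ X : Set (Bool × Fin m × Fin m), X.ncard < m → ((dart m).induce Xᶜ).Connected := by
  haveI : NeZero m := ⟨by omega⟩
  refine ⟨?_, ?_⟩
  · rw [Nat.card_eq_fintype_card, Fintype.card_prod, Fintype.card_bool, Fintype.card_prod,
      Fintype.card_fin]
    nlinarith
  intro X hX
  set G := (dart m).induce Xᶜ with hG
  have hrow : ∀ (s : Bool) (i j k : Fin m) (h1 : (s, i, j) ∈ Xᶜ) (h2 : (s, i, k) ∈ Xᶜ),
      G.Reachable ⟨(s, i, j), h1⟩ ⟨(s, i, k), h2⟩ := by
    intro s i j k h1 h2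
    by_cases h : j = k
    · subst h
      exact SimpleGraph.Reachable.refl _
    · exact SimpleGraph.Adj.reachable (Or.inl ⟨rfl, rfl, h⟩)
  have hflip : ∀ (i j : Fin m) (h1 : (true, i, j) ∈ Xᶜ) (h2 : (false, j, i) ∈ Xᶜ),
      G.Reachable ⟨(true, i, j), h1⟩ ⟨(false, j, i), h2⟩ := by
    intro i j h1 h2
    exact SimpleGraph.Adj.reachable (Or.inr ⟨rfl, rfl, rfl⟩)
  have hopp : ∀ (i j0 j i0 : Fin m) (h1 : (true, i, j0) ∈ Xᶜ) (h2 : (false, j, i0) ∈ Xᶜ),
      G.Reachable ⟨(true, i, j0), h1⟩ ⟨(false, j, i0), h2⟩ := by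
    intro i j0 j i0 h1 h2
    obtain ⟨t, ha, hb, hc⟩ := exists_alive hX i j
    exact (((((hrow true i j0 (j + t) h1 ha.1).trans (hflip i (j + t) ha.1 ha.2)).trans
      (hrow false (j + t) i (i + t) ha.2 hb.2)).trans (hflip (i + t) (j + t) hb.1 hb.2).symm).trans
      (hrow true (i + t) (j + t) j hb.1 hc.1)).trans ((hflip (i + t) j hc.1 hc.2).trans
      (hrow false j (i + t) i0 hc.2 h2))
  have hne : ∀ (i j : Fin m), ∃ t : Fin m, (true, i, j + t) ∈ Xᶜ ∧ (false, j, i + t) ∈ Xᶜ := by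
    intro i j
    obtain ⟨t, ha, hb, hc⟩ := exists_alive hX i j
    exact ⟨t, ha.1, hc.2⟩
  have hbase : ∃ (i j : Fin m), (true, i, j) ∈ Xᶜ := by
    obtain ⟨t, h, -⟩ := hne 0 0
    exact ⟨_, _, h⟩
  haveI : Nonempty ↥Xᶜ := by
    obtain ⟨i, j, h⟩ := hbase
    exact ⟨⟨_, h⟩⟩
  refine ⟨?_⟩
  rintro ⟨⟨s, i, j⟩, hu⟩ ⟨⟨s', i', j'⟩, hv⟩
  cases s <;> cases s'
  · obtain ⟨t, h, -⟩ := hne i i
    exact (hopp _ _ _ _ h hu).symm.trans (hopp _ _ _ _ h hv)
  · exact (hopp _ _ _ _ hv hu).symm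
  · exact hopp _ _ _ _ hu hv
  · obtain ⟨t, -, h⟩ := hne i i
    exact (hopp _ _ _ _ hu h).trans (hopp _ _ _ _ hv h).symm

/-- adding `k` universal vertices -/
def cone {W : Type} (G : SimpleGraph W) (k : ℕ) : SimpleGraph (W ⊕ Fin k) where
  Adj u v := u ≠ v ∧ ∀ x y, u = Sum.inl x → v = Sum.inl y → G.Adj x y
  symm := ⟨fun _ _ h => ⟨h.1.symm, fun x y hx hy => (h.2 y x hy hx).symm⟩⟩
  loopless := ⟨fun _ h => h.1 rfl⟩

theorem cone_kconn {W : Type} [Fintype W] {G : SimpleGraph W} {m k : ℕ} (h1 : m < Nat.card W)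
    (h2 : ∀ X : Set W, X.ncard < m → (G.induce Xᶜ).Connected) :
    m + k < Nat.card (W ⊕ Fin k) ∧
      ∀ X : Set (W ⊕ Fin k), X.ncard < m + k → ((cone G k).induce Xᶜ).Connected := by
  refine ⟨?_, ?_⟩
  · rw [Nat.card_eq_fintype_card, Fintype.card_sum, Fintype.card_fin]
    rw [Nat.card_eq_fintype_card] at h1
    omega
  intro X hX
  by_cases hall : ∃ t : Fin k, Sum.inr t ∉ X
  · obtain ⟨t, ht⟩ := hall
    have key : ∀ v : ↥Xᶜ, ((cone G k).induce Xᶜ).Reachable v ⟨Sum.inr t, ht⟩ := by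
      intro v
      by_cases hv : v.1 = Sum.inr t
      · have : v = ⟨Sum.inr t, ht⟩ := Subtype.ext hv
        rw [this]
      · refine SimpleGraph.Adj.reachable ⟨hv, ?_⟩
        intro x y _ hy
        exact absurd hy (by simp)
    haveI : Nonempty ↥Xᶜ := ⟨⟨Sum.inr t, ht⟩⟩
    exact ⟨fun u v => (key u).trans (key v).symm⟩
  · push Not at hall
    have hsub : Sum.inl '' (Sum.inl ⁻¹' X : Set W) ∪ Set.range (Sum.inr : Fin k → W ⊕ Fin k) ⊆
        X := by
      rintro v (⟨x, hx, rfl⟩ | ⟨t, rfl⟩)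
      · exact hx
      · exact hall t
    have h3 := Set.ncard_le_ncard hsub (Set.toFinite _)
    rw [Set.ncard_union_eq (by
      rw [Set.disjoint_left]
      rintro v ⟨x, -, rfl⟩ ⟨t, ht⟩
      exact absurd ht (by simp)) (Set.toFinite _) (Set.toFinite _),
      Set.ncard_image_of_injective _ Sum.inl_injective, ← Set.image_univ,
      Set.ncard_image_of_injective _ Sum.inr_injective, Set.ncard_univ,
      Nat.card_eq_fintype_card, Fintype.card_fin] at h3
    have h4 := h2 (Sum.inl ⁻¹' X) (by omega)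
    let φ : G.induce (Sum.inl ⁻¹' X : Set W)ᶜ →g (cone G k).induce Xᶜ :=
      { toFun := fun x => ⟨Sum.inl x.1, x.2⟩
        map_rel' := by
          intro x y hxy
          refine ⟨?_, ?_⟩
          · intro h
            exact hxy.ne (Subtype.ext (Sum.inl_injective h))
          · intro x' y' hx hy
            have e1 : x.1 = x' := Sum.inl_injective hx
            have e2 : y.1 = y' := Sum.inl_injective hy
            rw [← e1, ← e2]
            exact hxy }
    have hsurj : ∀ v : ↥Xᶜ, ∃ x, φ x = v := by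
      rintro ⟨v, hv⟩
      rcases v with x | t
      · exact ⟨⟨x, hv⟩, rfl⟩
      · exact absurd (hall t) hv
    haveI : Nonempty ↥Xᶜ := by
      obtain ⟨x⟩ := h4.nonempty
      exact ⟨φ x⟩
    refine ⟨fun u v => ?_⟩
    obtain ⟨x, rfl⟩ := hsurj u
    obtain ⟨y, rfl⟩ := hsurj v
    exact (h4.preconnected x y).map φ

theorem cone_not_rigid {W : Type} {d k : ℕ} {G : SimpleGraph W} (hG : ¬ GenRigid d G) :
    ¬ GenRigid d (((cone G k).deleteEdges ∅).induce (Set.range (Sum.inr : Fin k → W ⊕ Fin k))ᶜ) := by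
  intro h
  apply hG
  have hx : ∀ x : W, (Sum.inl x : W ⊕ Fin k) ∈ (Set.range (Sum.inr : Fin k → W ⊕ Fin k))ᶜ := by
    rintro x ⟨t, ht⟩
    exact absurd ht (by simp)
  refine rigid_of_equiv (Equiv.ofBijective (fun x : W =>
    (⟨Sum.inl x, hx x⟩ : ↥(Set.range (Sum.inr : Fin k → W ⊕ Fin k))ᶜ)) ⟨?_, ?_⟩) ?_ h
  · intro x y hxy
    exact Sum.inl_injective (Subtype.ext_iff.1 hxy)
  · rintro ⟨v, hv⟩
    rcases v with x | t
    · exact ⟨x, rfl⟩
    · exact absurd ⟨t, rfl⟩ hv
  · intro x y hxy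
    have h1 : ((cone G k).deleteEdges ∅).Adj (Sum.inl x) (Sum.inl y) := hxy
    rw [SimpleGraph.deleteEdges_adj] at h1
    exact h1.1.2 x y rfl rfl

/-- **Sharpness for vertex deletions.** -/
theorem cone_sharp {d : ℕ} (hd : 2 ≤ d) (a c : ℕ) (hac : c < a + d * (d + 1)) :
    ∃ (V : Type) (_ : Fintype V) (G : SimpleGraph V) (U : Set V),
      (c < Nat.card V ∧ ∀ X : Set V, X.ncard < c → (G.induce Xᶜ).Connected) ∧ U.ncard ≤ a ∧
        ¬ GenRigid d ((G.deleteEdges ∅).induce Uᶜ) := by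
  obtain ⟨m, hm⟩ : ∃ m, m + 1 = d * (d + 1) := ⟨d * (d + 1) - 1, by
    have : 1 ≤ d * (d + 1) := Nat.one_le_iff_ne_zero.2 (by positivity)
    omega⟩
  have h6 : 6 ≤ d * (d + 1) := by nlinarith
  have hdm : d ≤ m := by nlinarith
  have hnr : ¬ GenRigid d (dart m) := by
    have hcard : Fintype.card (Bool × Fin m × Fin m) = 2 * (m * m) := by simp
    refine not_rigid_of_part hdm ?_ (dart_part m) dart_deg ?_
    · rw [hcard]
      nlinarith
    · rw [hcard, ← hm]
      have : m + 1 - m = 1 := by omega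
      rw [this]
      nlinarith
  set k := min a c with hk
  have hle : c ≤ m + k := by omega
  have h1 := dart_kconn (m := m) (by omega)
  have h2 := cone_kconn (k := k) h1.1 h1.2
  refine ⟨(Bool × Fin m × Fin m) ⊕ Fin k, inferInstance, cone (dart m) k,
    Set.range Sum.inr, ⟨by omega, fun X hX => h2.2 X (by omega)⟩, ?_, cone_not_rigid hnr⟩
  rw [← Set.image_univ, Set.ncard_image_of_injective _ Sum.inr_injective, Set.ncard_univ,
    Nat.card_eq_fintype_card, Fintype.card_fin]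
  exact min_le_left _ _

end Pool.Agent.U656.RG
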