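import Mathlib
import Pool.Agent.U656.RG.Aut

/-!
# The rank of graphs of minimum degree at least `d (d + 1)` and small vertex cuts
-/

set_option autoImplicit false
set_option linter.unusedSectionVars false

namespace Pool.Agent.U656.RG

open Matrix Finset Pool.Agent.H283R2.DR Pool.Agent.H789R5 Pool.Agent.N423.DE

variable {V : Type} [Fintype V] {d : ℕ}

section ends

variable [DecidableEq V]

/-- the closed neighbourhood -/
noncomputable def cN (C : SimpleGraph V) (v : V) : Finset V := insert v (nb C v)

theorem mem_cN {C : SimpleGraph V} {v w : V} : w ∈ cN C v ↔ w = v ∨ C.Adj v w := by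
  unfold cN
  rw [mem_insert, mem_nb]

/-- simplicial vertices -/
def Simp (C : SimpleGraph V) (v : V) : Prop := Cq C (nb C v)

theorem cN_clique {C : SimpleGraph V} {v : V} (h : Simp C v) : Cq C (cN C v) := by
  intro a ha b hb hab
  rw [mem_cN] at ha hb
  rcases ha with rfl | ha <;> rcases hb with rfl | hb
  · exact absurd rfl hab
  · exact hb
  · exact ha.symm
  · exact h a (mem_nb.2 ha) b (mem_nb.2 hb) hab

theorem cN_eq {C : SimpleGraph V} {v u : V} (hv : Simp C v) (hu : Simp C u) (h : u ∈ cN C v) :
    cN C u = cN C v := by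
  have key : ∀ {x y : V}, Simp C x → Simp C y → y ∈ cN C x → cN C x ⊆ cN C y := by
    intro x y hx _ hy z hz
    by_cases hzy : z = y
    · rw [hzy]; exact mem_cN.2 (Or.inl rfl)
    · exact mem_cN.2 (Or.inr ((cN_clique hx) y hy z hz (Ne.symm hzy)))
  have h' : v ∈ cN C u := by
    rw [mem_cN] at h ⊢
    rcases h with rfl | h
    · exact Or.inl rfl
    · exact Or.inr h.symm
  exact (key hu hv h').antisymm (key hv hu h)

open Classical in
/-- the end cliques -/
noncomputable def ends (C : SimpleGraph V) : Finset (Finset V) :=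
  (univ.filter fun v => Simp C v).image (cN C)

theorem mem_ends {C : SimpleGraph V} {R : Finset V} :
    R ∈ ends C ↔ ∃ v, Simp C v ∧ cN C v = R := by
  classical
  unfold ends
  rw [mem_image]
  constructor
  · rintro ⟨v, hv, h⟩
    exact ⟨v, (mem_filter.1 hv).2, h⟩
  · rintro ⟨v, hv, h⟩
    exact ⟨v, mem_filter.2 ⟨mem_univ _, hv⟩, h⟩

open Classical in
/-- the interior: the simplicial vertices -/
noncomputable def itr (C : SimpleGraph V) (R : Finset V) : Finset V := R.filter fun v => Simp C v

open Classical in
/-- the boundary: the other vertices -/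
noncomputable def bd (C : SimpleGraph V) (R : Finset V) : Finset V := R.filter fun v => ¬ Simp C v

open Classical in
/-- all vertices which are not simplicial -/
noncomputable def core (C : SimpleGraph V) : Finset V := univ.filter fun v => ¬ Simp C v

theorem mem_itr {C : SimpleGraph V} {R : Finset V} {v : V} : v ∈ itr C R ↔ v ∈ R ∧ Simp C v := by
  classical
  unfold itr; rw [mem_filter]

theorem mem_bd {C : SimpleGraph V} {R : Finset V} {v : V} : v ∈ bd C R ↔ v ∈ R ∧ ¬ Simp C v := by
  classical
  unfold bd; rw [mem_filter]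

theorem mem_core {C : SimpleGraph V} {v : V} : v ∈ core C ↔ ¬ Simp C v := by
  classical
  unfold core; rw [mem_filter]; simp

theorem ends_clique {C : SimpleGraph V} {R : Finset V} (hR : R ∈ ends C) : Cq C R := by
  obtain ⟨v, hv, rfl⟩ := mem_ends.1 hR
  exact cN_clique hv

theorem cN_of_itr {C : SimpleGraph V} {R : Finset V} (hR : R ∈ ends C) {u : V} (hu : u ∈ itr C R) :
    cN C u = R := by
  obtain ⟨v, hv, rfl⟩ := mem_ends.1 hR
  rw [mem_itr] at hu
  exact cN_eq hv hu.2 hu.1

theorem ends_inter {p : V → Fin d → ℝ} (hp : MG p) {C : SimpleGraph V} (hC : Closed C p)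
    {R R' : Finset V} (hR : R ∈ ends C) (hR' : R' ∈ ends C) (hne : R ≠ R') :
    (R ∩ R').card < d := by
  by_contra hcon
  push Not at hcon
  apply hne
  have key : ∀ {S S' : Finset V}, S ∈ ends C → S' ∈ ends C → d ≤ (S ∩ S').card → S ⊆ S' := by
    intro S S' hS hS' hc x hx
    by_contra hx'
    obtain ⟨u, hu, rfl⟩ := mem_ends.1 hS'
    -- x is adjacent to `u`
    have hxu : x ≠ u := by rintro rfl; exact hx' (mem_cN.2 (Or.inl rfl))
    have huS : u ∉ S := by
      intro h
      exact hx' (by rw [cN_of_itr hS (mem_itr.2 ⟨h, hu⟩)]; exact hx)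
    apply hx'
    rw [mem_cN]
    refine Or.inr (closed_common hp hC hc ((ends_clique hS).subset inter_subset_left) hxu.symm
      ?_ ?_)
    · intro t ht
      rw [mem_inter] at ht
      exact (ends_clique hS') u (mem_cN.2 (Or.inl rfl)) t ht.2 (fun h => huS (h ▸ ht.1))
    · intro t ht
      rw [mem_inter] at ht
      exact (ends_clique hS) x hx t ht.1 (fun h => hx' (h ▸ ht.2))
  exact (key hR hR' hcon).antisymm (key hR' hR (by rw [inter_comm]; exact hcon))

/-- twice the rank which is lost when a complete graph is built from `b` vertices -/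
def hh (d b : ℕ) : ℕ := (d - b) * (d - b + 1)

theorem hh_step (d b : ℕ) : hh d b = 2 * (d - b) + hh d (b + 1) := by
  unfold hh
  by_cases h : b < d
  · obtain ⟨c, rfl⟩ : ∃ c, d = b + 1 + c := ⟨d - b - 1, by omega⟩
    have e1 : b + 1 + c - b = c + 1 := by omega
    have e2 : b + 1 + c - (b + 1) = c := by omega
    rw [e1, e2]
    ring
  · have e1 : d - b = 0 := by omega
    have e2 : d - (b + 1) = 0 := by omega
    rw [e1, e2]

/-- adding the interior of an end clique -/
theorem add_itr {p : V → Fin d → ℝ} (hp : MG p) (hd : 1 ≤ d) {C : SimpleGraph V}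
    (hC : Closed C p) {R : Finset V} (hR : R ∈ ends C) {W : Finset V} (hW : core C ⊆ W)
    (hdis : Disjoint (itr C R) W) : ∀ A : Finset V, A ⊆ itr C R →
      2 * mo (sub C (W ∪ A)) p + 2 * d * A.card + hh d ((bd C R).card + A.card) ≤
        2 * mo (sub C W) p + hh d (bd C R).card := by
  intro A
  induction A using Finset.induction_on with
  | empty => intro _; simp
  | insert v A hvA ih =>
    intro hA
    have hA' : A ⊆ itr C R := (subset_insert _ _).trans hA
    have hv : v ∈ itr C R := hA (mem_insert_self _ _)
    have h1 := ih hA'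
    have hvW : v ∉ W := fun h => disjoint_left.1 hdis hv h
    have hvWA : v ∉ W ∪ A := by rw [mem_union]; tauto
    have h2 := step hp hd hC (W := W ∪ insert v A) (v := v)
      (mem_union_right _ (mem_insert_self _ _))
    have e1 : (W ∪ insert v A).erase v = W ∪ A := by
      rw [union_insert, erase_insert hvWA]
    rw [e1] at h2
    have h3 : (bd C R).card + A.card ≤ (nb C v ∩ (W ∪ insert v A)).card := by
      rw [← card_union_of_disjoint]
      · apply card_le_card
        intro z hz
        rw [mem_union] at hz
        have hvR := cN_of_itr hR hv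
        have hzR : z ∈ R := by
          rcases hz with hz | hz
          · exact (mem_bd.1 hz).1
          · exact (mem_itr.1 (hA' hz)).1
        have hzv : z ≠ v := by
          rintro rfl
          rcases hz with hz | hz
          · exact (mem_bd.1 hz).2 (mem_itr.1 hv).2
          · exact hvA hz
        rw [← hvR, mem_cN] at hzR
        rw [mem_inter, mem_nb, mem_union, mem_insert]
        refine ⟨hzR.resolve_left hzv, ?_⟩
        rcases hz with hz | hz
        · exact Or.inl (hW (mem_core.2 (mem_bd.1 hz).2))
        · exact Or.inr (Or.inr hz)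
      · rw [disjoint_left]
        intro z hz hz'
        exact (mem_bd.1 hz).2 (mem_itr.1 (hA' hz')).2
    have h4 : min d ((bd C R).card + A.card) ≤ inc C d (nb C v ∩ (W ∪ insert v A)) := by
      unfold inc
      exact (min_le_min_left d h3).trans (Nat.le_add_right _ _)
    have h5 := hh_step d ((bd C R).card + A.card)
    rw [card_insert_of_notMem hvA]
    have e2 : (bd C R).card + (A.card + 1) = (bd C R).card + A.card + 1 := by ring
    rw [e2]
    have h6 : min d ((bd C R).card + A.card) + (d - ((bd C R).card + A.card)) = d := by omega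
    have e3 : 2 * d * (A.card + 1) = 2 * d * A.card + 2 * d := by ring
    rw [e3]
    omega

/-- adding the interiors of all end cliques -/
theorem add_all {p : V → Fin d → ℝ} (hp : MG p) (hd : 1 ≤ d) {C : SimpleGraph V}
    (hC : Closed C p) : ∀ S : Finset (Finset V), S ⊆ ends C →
      2 * mo (sub C (core C ∪ S.biUnion (itr C))) p + 2 * d * ∑ R ∈ S, (itr C R).card ≤
        2 * mo (sub C (core C)) p + ∑ R ∈ S, hh d (bd C R).card := by
  intro S
  induction S using Finset.induction_on with
  | empty => intro _; simp
  | insert R S hRS ih =>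
    intro hS
    have hS' : S ⊆ ends C := (subset_insert _ _).trans hS
    have hR : R ∈ ends C := hS (mem_insert_self _ _)
    have h1 := ih hS'
    have hdis : Disjoint (itr C R) (core C ∪ S.biUnion (itr C)) := by
      rw [disjoint_left]
      intro v hv hv'
      rw [mem_union, mem_biUnion] at hv'
      rcases hv' with hv' | ⟨R', hR', hv'⟩
      · exact (mem_core.1 hv') (mem_itr.1 hv).2
      · have e1 := cN_of_itr hR hv
        have e2 := cN_of_itr (hS' hR') hv'
        rw [e1] at e2
        exact hRS (e2 ▸ hR')
    have h2 := add_itr hp hd hC hR (W := core C ∪ S.biUnion (itr C)) subset_union_left hdis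
      (itr C R) (Subset.refl _)
    have e1 : core C ∪ (insert R S).biUnion (itr C) =
        core C ∪ S.biUnion (itr C) ∪ itr C R := by
      rw [biUnion_insert]
      ext z
      simp only [mem_union]
      tauto
    rw [e1, sum_insert hRS, sum_insert hRS, Nat.mul_add]
    omega

theorem core_union (C : SimpleGraph V) : core C ∪ (ends C).biUnion (itr C) = univ := by
  ext v
  refine ⟨fun _ => mem_univ _, fun _ => ?_⟩
  rw [mem_union, mem_biUnion]
  by_cases h : Simp C v
  · exact Or.inr ⟨cN C v, mem_ends.2 ⟨v, h, rfl⟩, mem_itr.2 ⟨mem_cN.2 (Or.inl rfl), h⟩⟩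
  · exact Or.inl (mem_core.2 h)

theorem card_core (C : SimpleGraph V) :
    (core C).card + ∑ R ∈ ends C, (itr C R).card = Fintype.card V := by
  have h1 : ((ends C).biUnion (itr C)).card = ∑ R ∈ ends C, (itr C R).card := by
    apply card_biUnion
    intro R hR R' hR' hne
    show Disjoint (itr C R) (itr C R')
    rw [disjoint_left]
    intro v hv hv'
    apply hne
    rw [← cN_of_itr hR hv, ← cN_of_itr hR' hv']
  rw [← h1, ← card_union_of_disjoint, core_union, card_univ]
  rw [disjoint_left]
  intro v hv hv'
  obtain ⟨R, -, hv''⟩ := mem_biUnion.1 hv'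
  exact (mem_core.1 hv) (mem_itr.1 hv'').2

end ends

end Pool.Agent.U656.RG
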