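import Mathlib
import Pool.Agent.U656.RG.Fn

/-!
# The finer potential
-/

set_option autoImplicit false
set_option linter.unusedSectionVars false

namespace Pool.Agent.U656.RG

open Matrix Finset Pool.Agent.H283R2.DR Pool.Agent.H789R5 Pool.Agent.N423.DE

variable {V : Type} [Fintype V] {d : ℕ}

noncomputable def Bf (d t : ℕ) : ℝ :=
  if t ≤ d then t / 2 else
    d + (t - d * (d + 3) / 2 - (t - d) * (t - d - 1) * (t - d - 2) / (3 * t * (t - 1))) / (t + 1)

theorem Bf_small {t : ℕ} (h : t ≤ d) : Bf d t = t / 2 := if_pos h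

theorem Bf_big {t : ℕ} (h : d + 1 ≤ t) : Bf d t =
    d + (t - d * (d + 3) / 2 - (t - d) * (t - d - 1) * (t - d - 2) / (3 * t * (t - 1))) / (t + 1) :=
  if_neg (by omega)

theorem Bf_d1 (hd : 1 ≤ d) : Bf d (d + 1) = Af d (d + 1) := by
  rw [Bf_big le_rfl, Af_big (by omega) (by omega)]
  push_cast
  have h1 : (d : ℝ) ≠ 0 := by positivity
  have h2 : (d : ℝ) + 1 ≠ 0 := by positivity
  have h3 : (d : ℝ) + 1 + 1 ≠ 0 := by positivity
  have h4 : (d : ℝ) + 1 - 1 ≠ 0 := by simpa using h1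
  have h5 : ((d : ℝ) + 1 - d - 1) = 0 := by ring
  rw [h5]
  field_simp
  ring

theorem Bf_d2 (hd : 1 ≤ d) :
    (((d + 2 : ℕ) : ℝ) + 1) * Bf d (d + 2) = d + 1 + (((d + 2 : ℕ) : ℝ)) * Af d (d + 1) := by
  rw [Bf_big (by omega), Af_big (by omega) (by omega)]
  push_cast
  have h1 : (d : ℝ) + 1 ≠ 0 := by positivity
  have h2 : (d : ℝ) + 2 ≠ 0 := by positivity
  have h3 : (d : ℝ) + 2 + 1 ≠ 0 := by positivity
  have h4 : (d : ℝ) + 2 - 1 ≠ 0 := by
    have : (0 : ℝ) ≤ d := by positivity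
    linarith
  have h5 : ((d : ℝ) + 2 - d - 2) = 0 := by ring
  rw [h5]
  field_simp
  ring

theorem Bf_rec {t : ℕ} (hd : 1 ≤ d) (h : d + 3 ≤ t) :
    ((t : ℝ) + 1) * Bf d t = d + 1 + (2 * Af d (t - 1) + ((t : ℝ) - 2) * Bf d (t - 1)) := by
  obtain ⟨s, rfl⟩ : ∃ s, t = s + d + 3 := ⟨t - d - 3, by omega⟩
  have e : s + d + 3 - 1 = s + d + 2 := by omega
  rw [e, Bf_big (by omega), Bf_big (t := s + d + 2) (by omega), Af_big (by omega) (by omega)]
  push_cast
  have h0 : (0 : ℝ) ≤ s := by positivity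
  have hd0 : (0 : ℝ) ≤ d := by positivity
  have h1 : (s : ℝ) + d + 3 ≠ 0 := by positivity
  have h2 : (s : ℝ) + d + 3 - 1 ≠ 0 := by linarith
  have h3 : (s : ℝ) + d + 2 ≠ 0 := by positivity
  have h4 : (s : ℝ) + d + 2 - 1 ≠ 0 := by linarith
  have h5 : (s : ℝ) + d + 3 + 1 ≠ 0 := by positivity
  have h6 : (s : ℝ) + d + 2 + 1 ≠ 0 := by positivity
  field_simp
  ring

theorem Af_le_Bf (hd : 1 ≤ d) (t : ℕ) : Af d t ≤ Bf d t := by
  by_cases h : t ≤ d
  · rw [Af_small h, Bf_small h]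
  push Not at h
  rw [Af_big h.le (by omega), Bf_big h]
  obtain ⟨s, rfl⟩ : ∃ s, t = s + d + 1 := ⟨t - d - 1, by omega⟩
  push_cast
  have h0 : (0 : ℝ) ≤ s := by positivity
  have hd0 : (1 : ℝ) ≤ d := by exact_mod_cast hd
  have h1 : (s : ℝ) + d + 1 ≠ 0 := by positivity
  have h2 : (s : ℝ) + d + 1 - 1 ≠ 0 := by linarith
  have h3 : (s : ℝ) + d + 1 + 1 ≠ 0 := by positivity
  have e : (d : ℝ) + ((s : ℝ) + d + 1 - d * (d + 3) / 2 - ((s : ℝ) + d + 1 - d) *
      (s + d + 1 - d - 1) * (s + d + 1 - d - 2) / (3 * (s + d + 1) * (s + d + 1 - 1))) /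
      (s + d + 1 + 1) - (d + 1 / 2 - d * (d + 1) / (2 * (s + d + 1))) =
      s * (s + 1) * (s + 3 * d + 2) / (6 * (s + d + 1) * (s + d + 1 - 1) * (s + d + 1 + 1)) := by
    field_simp
    ring
  have e2 : 0 ≤ (s : ℝ) * (s + 1) * (s + 3 * d + 2) /
      (6 * (s + d + 1) * (s + d + 1 - 1) * (s + d + 1 + 1)) := by
    have h4 : (0 : ℝ) < (s : ℝ) + d + 1 - 1 := by linarith
    positivity
  linarith

theorem Bf_ge {t : ℕ} (hd : 1 ≤ d) (h : 3 * (d * (d + 1)) + 4 ≤ 4 * t) : (d : ℝ) ≤ Bf d t := by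
  have hdt : d + 1 ≤ t := by nlinarith
  rw [Bf_big hdt]
  have hd1 : (1 : ℝ) ≤ d := by exact_mod_cast hd
  have h1 : (3 : ℝ) * (d * (d + 1)) + 4 ≤ 4 * t := by exact_mod_cast h
  obtain ⟨x, hx⟩ : ∃ x : ℝ, (t : ℝ) = (3 * (d * (d + 1)) + 4) / 4 + x :=
    ⟨t - (3 * (d * (d + 1)) + 4) / 4, by ring⟩
  have hx0 : 0 ≤ x := by linarith
  have ht0 : (0 : ℝ) < t := by rw [hx]; positivity
  have ht1 : (0 : ℝ) < (t : ℝ) - 1 := by rw [hx]; nlinarith
  have key : 0 ≤ (t : ℝ) - d * (d + 3) / 2 -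
      (t - d) * (t - d - 1) * (t - d - 2) / (3 * t * (t - 1)) := by
    have e : (t : ℝ) - d * (d + 3) / 2 - (t - d) * (t - d - 1) * (t - d - 2) / (3 * t * (t - 1)) =
        (3 * t * (t - 1) * (2 * t - d * (d + 3)) - 2 * ((t - d) * (t - d - 1) * (t - d - 2))) /
          (6 * t * (t - 1)) := by
      field_simp
      ring
    rw [e]
    apply div_nonneg _ (by positivity)
    have e2 : 3 * (t : ℝ) * (t - 1) * (2 * t - d * (d + 3)) -
        2 * ((t - d) * (t - d - 1) * (t - d - 2)) =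
        8 * x + 12 * x ^ 2 + 4 * x ^ 3 + 4 * d + 9 * d * x + 6 * d * x ^ 2 + 6 * d ^ 2 +
        45 / 4 * d ^ 2 * x + 6 * d ^ 2 * x ^ 2 + 2 * d ^ 3 + 9 / 2 * d ^ 3 * x +
        9 / 4 * d ^ 4 * x := by
      rw [hx]
      ring
    rw [e2]
    positivity
  have := div_nonneg key (by positivity : (0 : ℝ) ≤ (t : ℝ) + 1)
  linarith

open Classical in
/-- the potential -/
noncomputable def fB [DecidableEq V] (C : SimpleGraph V) (d : ℕ) (T : Finset V) : ℝ :=
  if Cq C T then Kf d T.card else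
    if ∃ u ∈ T, Cq C (T.erase u) then Af d T.card else Bf d T.card

theorem fB_small [DecidableEq V] {C : SimpleGraph V} {T : Finset V} (h : T.card ≤ d) :
    fB C d T = T.card / 2 := by
  unfold fB
  rw [Kf_small h, Af_small h, Bf_small h, ite_self, ite_self]

theorem Af_le_fB [DecidableEq V] (hd : 1 ≤ d) {C : SimpleGraph V} {T : Finset V}
    (hT : ¬ Cq C T) : Af d T.card ≤ fB C d T := by
  unfold fB
  rw [if_neg hT]
  split_ifs
  · exact le_rfl
  · exact Af_le_Bf hd _

/-- two cliques with few exceptional elements -/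
theorem two_cliques [DecidableEq V] {p : V → Fin d → ℝ} (hp : MG p) {C : SimpleGraph V}
    (hC : Closed C p) {v : V} {T : Finset V} (hTv : T ⊆ nb C v) (ht : d + 3 ≤ T.card)
    {u w u' w' : V} (hQ : Cq C ((T.erase u).erase w)) (hQ' : Cq C ((T.erase u').erase w')) :
    Cq C ((T.erase u).erase w ∪ (T.erase u').erase w') := by
  have hvT : v ∉ T := fun h => not_mem_nb C v (hTv h)
  set Q := (T.erase u).erase w with hQdef
  set Q' := (T.erase u').erase w' with hQ'def
  have hQT : Q ⊆ T := (erase_subset _ _).trans (erase_subset _ _)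
  have hQT' : Q' ⊆ T := (erase_subset _ _).trans (erase_subset _ _)
  have hcard : T.card ≤ (Q ∩ Q').card + 4 := by
    have h1 : T \ {u, w, u', w'} ⊆ Q ∩ Q' := by
      intro z hz
      rw [mem_sdiff] at hz
      simp only [mem_insert, mem_singleton, not_or] at hz
      rw [mem_inter]
      exact ⟨mem_erase.2 ⟨hz.2.2.1, mem_erase.2 ⟨hz.2.1, hz.1⟩⟩,
        mem_erase.2 ⟨hz.2.2.2.2, mem_erase.2 ⟨hz.2.2.2.1, hz.1⟩⟩⟩
    have h2 : ({u, w, u', w'} : Finset V).card ≤ 4 := card_le_four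
    have h3 := le_card_sdiff {u, w, u', w'} T
    have h4 := card_le_card h1
    omega
  have hvQ : v ∉ Q ∩ Q' := fun h => hvT (hQT (mem_inter.1 h).1)
  have hS : d ≤ (insert v (Q ∩ Q')).card := by
    rw [card_insert_of_notMem hvQ]
    omega
  have hSc : Cq C (insert v (Q ∩ Q')) := by
    intro a ha b hb hab
    rw [mem_insert] at ha hb
    rcases ha with rfl | ha <;> rcases hb with rfl | hb
    · exact absurd rfl hab
    · exact mem_nb.1 (hTv (hQT (mem_inter.1 hb).1))
    · exact (mem_nb.1 (hTv (hQT (mem_inter.1 ha).1))).symm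
    · exact hQ a (mem_inter.1 ha).1 b (mem_inter.1 hb).1 hab
  have key : ∀ x ∈ Q, x ∉ Q' → ∀ y ∈ Q', y ∉ Q → C.Adj x y := by
    intro x hx hx' y hy hy'
    have hxy : x ≠ y := by rintro rfl; exact hx' hy
    refine closed_common hp hC hS hSc hxy ?_ ?_
    · intro t ht
      rw [mem_insert] at ht
      rcases ht with rfl | ht
      · exact (mem_nb.1 (hTv (hQT hx))).symm
      · exact hQ x hx t (mem_inter.1 ht).1 (fun h => hx' (h ▸ (mem_inter.1 ht).2))
    · intro t ht
      rw [mem_insert] at ht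
      rcases ht with rfl | ht
      · exact (mem_nb.1 (hTv (hQT' hy))).symm
      · exact hQ' y hy t (mem_inter.1 ht).2 (fun h => hy' (h ▸ (mem_inter.1 ht).1))
  intro a ha b hb hab
  by_cases h1 : a ∈ Q <;> by_cases h2 : b ∈ Q
  · exact hQ a h1 b h2 hab
  · have hb' : b ∈ Q' := (mem_union.1 hb).resolve_left h2
    by_cases h3 : a ∈ Q'
    · exact hQ' a h3 b hb' hab
    · exact key a h1 h3 b hb' h2
  · have ha' : a ∈ Q' := (mem_union.1 ha).resolve_left h1
    by_cases h3 : b ∈ Q'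
    · exact hQ' a ha' b h3 hab
    · exact (key b h2 h3 a ha' h1).symm
  · exact hQ' a ((mem_union.1 ha).resolve_left h1) b ((mem_union.1 hb).resolve_left h2) hab

theorem hfB [DecidableEq V] {p : V → Fin d → ℝ} (hp : MG p) (hd : 1 ≤ d) {C : SimpleGraph V}
    (hC : Closed C p) (v : V) (T : Finset V) (hTv : T ⊆ nb C v) :
    ((T.card : ℝ) + 1) * fB C d T ≤ inc C d T + ∑ u ∈ T, fB C d (T.erase u) := by
  classical
  by_cases ht : T.card ≤ d
  · rw [fB_small ht, inc_small ht]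
    have h1 : ∀ u ∈ T, fB C d (T.erase u) = ((T.card : ℝ) - 1) / 2 := by
      intro u hu
      rw [fB_small (by rw [card_erase_of_mem hu]; omega), card_erase_of_mem hu,
        Nat.cast_sub (card_pos.2 ⟨u, hu⟩)]
      simp
    rw [sum_congr rfl h1, sum_const, nsmul_eq_mul]
    apply le_of_eq
    ring
  push Not at ht
  have ht' : d + 1 ≤ T.card := ht
  by_cases hT : Cq C T
  · rw [inc_clique ht' hT]
    have h1 : ∀ u ∈ T, fB C d (T.erase u) = Kf d (T.card - 1) := by
      intro u hu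
      unfold fB
      rw [if_pos (hT.subset (erase_subset _ _)), card_erase_of_mem hu]
    rw [sum_congr rfl h1, sum_const, nsmul_eq_mul]
    unfold fB
    rw [if_pos hT, Kf_rec ht']
  rw [inc_big ht' hT]
  push_cast
  by_cases hex : ∃ u ∈ T, Cq C (T.erase u)
  · have h0 : fB C d T = Af d T.card := by unfold fB; rw [if_neg hT, if_pos hex]
    rw [h0, Af_rec ht' hd]
    obtain ⟨u, hu, hcl⟩ := hex
    rw [← add_sum_erase T _ hu]
    have h2 : fB C d (T.erase u) = Kf d (T.card - 1) := by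
      unfold fB
      rw [if_pos hcl, card_erase_of_mem hu]
    have h3 : ∀ w ∈ T.erase u, Af d (T.card - 1) ≤ fB C d (T.erase w) := by
      intro w hw
      rw [← card_erase_of_mem (mem_of_mem_erase hw)]
      refine Af_le_fB hd fun hcl' => ?_
      exact (mem_erase.1 hw).1 (erase_unique hp hC hTv ht' hT hcl' hcl)
    have h4 := sum_le_sum h3
    rw [sum_const, card_erase_of_mem hu, nsmul_eq_mul, Nat.cast_sub (by omega)] at h4
    rw [h2]
    push_cast at h4 ⊢
    linarith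
  have h0 : fB C d T = Bf d T.card := by unfold fB; rw [if_neg hT, if_neg hex]
  rw [h0]
  push Not at hex
  have hc : ∀ w ∈ T, (T.erase w).card = T.card - 1 := fun w hw => card_erase_of_mem hw
  have hmin : ∀ w ∈ T, Af d (T.card - 1) ≤ fB C d (T.erase w) := by
    intro w hw
    rw [← hc w hw]
    exact Af_le_fB hd (hex w hw)
  have hB : ∀ w ∈ T, (¬ ∃ z ∈ T.erase w, Cq C ((T.erase w).erase z)) →
      fB C d (T.erase w) = Bf d (T.card - 1) := by
    intro w hw h
    unfold fB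
    rw [if_neg (hex w hw), if_neg h, hc w hw]
  by_cases h5 : T.card ≤ d + 2
  · -- small sets
    have h4 := sum_le_sum hmin
    rw [sum_const, nsmul_eq_mul] at h4
    have h6 : T.card = d + 1 ∨ T.card = d + 2 := by omega
    rcases h6 with h6 | h6
    · rw [h6] at h4 ⊢
      rw [Nat.add_sub_cancel, Af_small le_rfl] at h4
      rw [Bf_d1 hd, Af_big (by omega) (by omega)]
      push_cast at h4 ⊢
      have h7 : (d : ℝ) + 1 ≠ 0 := by positivity
      have e : ((d : ℝ) + 1 + 1) * (d + 1 / 2 - d * (d + 1) / (2 * (d + 1))) =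
          d + 1 + (d + 1) * (d / 2) := by
        field_simp
        ring
      rw [e]
      linarith
    · rw [h6] at h4 ⊢
      have e : d + 2 - 1 = d + 1 := by omega
      rw [e] at h4
      rw [Bf_d2 hd]
      linarith
  push Not at h5
  have h6 : d + 3 ≤ T.card := h5
  rw [Bf_rec hd h6]
  have hAB := Af_le_Bf hd (T.card - 1)
  by_cases hU : ∃ u ∈ T, ∃ w ∈ T.erase u, Cq C ((T.erase u).erase w)
  · obtain ⟨u, hu, w, hw, hQ⟩ := hU
    have huw : u ≠ w := fun h => (mem_erase.1 hw).1 h.symm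
    have hwT := mem_of_mem_erase hw
    rw [← add_sum_erase T _ hu, ← add_sum_erase (T.erase u) _ hw]
    have h7 : ∀ z ∈ (T.erase u).erase w, fB C d (T.erase z) = Bf d (T.card - 1) := by
      intro z hz
      have hzw := (mem_erase.1 hz).1
      have hzu := (mem_erase.1 (mem_erase.1 hz).2).1
      have hzT := mem_of_mem_erase (mem_erase.1 hz).2
      refine hB z hzT ?_
      rintro ⟨w', hw', hQ'⟩
      have hun := two_cliques hp hC hTv h6 hQ hQ'
      have hw'T := mem_of_mem_erase hw'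
      apply hex w' hw'T
      refine hun.subset ?_
      intro y hy
      obtain ⟨hyw', hyT⟩ := mem_erase.1 hy
      rw [mem_union]
      by_cases hyz : y = z
      · exact Or.inl (hyz ▸ hz)
      · exact Or.inr (mem_erase.2 ⟨hyw', mem_erase.2 ⟨hyz, hyT⟩⟩)
    rw [sum_congr rfl h7, sum_const, card_erase_of_mem hw, card_erase_of_mem hu, nsmul_eq_mul,
      Nat.cast_sub (by omega), Nat.cast_sub (by omega)]
    have h8 := hmin u hu
    have h9 := hmin w hwT
    push_cast
    linarith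
  · push Not at hU
    have h7 : ∀ z ∈ T, fB C d (T.erase z) = Bf d (T.card - 1) := by
      intro z hz
      refine hB z hz ?_
      rintro ⟨w', hw', hQ'⟩
      exact hU z hz w' hw' hQ'
    rw [sum_congr rfl h7, sum_const, nsmul_eq_mul]
    linarith

/-- **The rank of a closed graph.** -/
theorem potB [DecidableEq V] {p : V → Fin d → ℝ} (hp : MG p) (hd : 1 ≤ d) {C : SimpleGraph V}
    (hC : Closed C p) (W : Finset V) :
    ∑ v ∈ W, fB C d (nb C v ∩ W) + (mo (sub C W) p : ℝ) ≤ d * Fintype.card V :=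
  pot hp hd hC (fB C d) (hfB hp hd hC) W.card W rfl

end Pool.Agent.U656.RG
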