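import Mathlib
import Pool.Agent.U656.RG.Blk
import Pool.Agent.U656.RG.FnB

/-!
# Vertex-transitive graphs
-/

set_option autoImplicit false
set_option linter.unusedSectionVars false

namespace Pool.Agent.U656.RG

open Matrix Finset Pool.Agent.H283R2.DR Pool.Agent.H789R5 Pool.Agent.N423.DE

variable {V : Type} [Fintype V] {d : ℕ}

theorem nb_mono {G C : SimpleGraph V} (h : G ≤ C) (v : V) : nb G v ⊆ nb C v :=
  fun _ hz => mem_nb.2 (h (mem_nb.1 hz))

theorem card_nb_lt (G : SimpleGraph V) (v : V) : (nb G v).card < Fintype.card V := by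
  classical
  have h := card_insert_of_notMem (not_mem_nb G v)
  have h2 := card_le_univ (insert v (nb G v))
  omega

theorem Af_ge {t : ℕ} (h : d * (d + 1) ≤ t) (hd : 1 ≤ d) : (d : ℝ) ≤ Af d t := by
  have h1 : d ≤ t := by nlinarith
  rw [Af_big h1 (by omega)]
  have h2 : ((d * (d + 1) : ℕ) : ℝ) ≤ t := by exact_mod_cast h
  push_cast at h2
  have h3 : (0 : ℝ) < t := by
    have : 0 < t := by omega
    exact_mod_cast this
  have h4 : (d : ℝ) * (d + 1) / (2 * t) ≤ 1 / 2 := by
    rw [div_le_div_iff₀ (by positivity) (by norm_num)]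
    linarith
  linarith

theorem complete_of_one {p : V → Fin d → ℝ} (hp : MG p) (hd : d ≤ Fintype.card V)
    {G : SimpleGraph V} (hconn : G.Connected) (htr : ∀ u v, ∃ φ : G ≃g G, φ u = v) {v0 : V}
    (h : Cq (cl G p) (nb (cl G p) v0)) : GenRigid d G := by
  classical
  refine rigid_of_complete hp hd (complete_of_local (hconn.mono (le_cl G p)) fun v => ?_)
  obtain ⟨φ, rfl⟩ := htr v0 v
  rw [nb_aut hp φ, cq_aut hp φ]
  exact h

/-- **Vertex-transitive graphs of degree at least `d (d + 1)`.** -/
theorem vt_rigid (hd : 1 ≤ d) {G : SimpleGraph V} (hconn : G.Connected)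
    (htr : ∀ u v, ∃ φ : G ≃g G, φ u = v) (hdeg : ∀ v, d * (d + 1) ≤ (nb G v).card) :
    GenRigid d G := by
  classical
  obtain ⟨p, hp⟩ := exists_mg V d
  obtain ⟨v0⟩ := hconn.nonempty
  have hn : d ≤ Fintype.card V := by
    have h1 := card_nb_lt G v0
    have h2 := hdeg v0
    nlinarith
  by_cases hex : ∃ v, Cq (cl G p) (nb (cl G p) v)
  · obtain ⟨v, hv⟩ := hex
    exact complete_of_one hp hn hconn htr hv
  push Not at hex
  rw [genRigid_iff hp hn, ← mo_cl]
  have h1 := potA hp hd (closed_cl G p) univ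
  rw [sub_univ] at h1
  have h2 : ∀ v ∈ (univ : Finset V), (d : ℝ) ≤ fA (cl G p) d (nb (cl G p) v ∩ univ) := by
    intro v _
    rw [inter_univ]
    unfold fA
    rw [if_neg (hex v)]
    exact Af_ge ((hdeg v).trans (card_le_card (nb_mono (le_cl G p) v))) hd
  have h3 := sum_le_sum h2
  rw [sum_const, card_univ, nsmul_eq_mul] at h3
  have h4 : (mo (cl G p) p : ℝ) ≤ 0 := by nlinarith
  have h5 : mo (cl G p) p = 0 := by
    have : mo (cl G p) p ≤ 0 := by exact_mod_cast h4
    omega
  rw [h5]
  exact Nat.zero_le _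

/-- the blocks of a closed graph in which all neighbourhoods are complete up to one vertex -/
theorem part_of_typeA [DecidableEq V] {p : V → Fin d → ℝ} (hp : MG p) {C : SimpleGraph V}
    (hC : Closed C p) {D : ℕ} (hD : d + 1 ≤ D) (hcard : ∀ v, (nb C v).card = D)
    (hncl : ∀ v, ¬ Cq C (nb C v)) {w : V → V} (hw : ∀ v, w v ∈ nb C v)
    (hcl : ∀ v, Cq C ((nb C v).erase (w v))) :
    IsPart D C (fun v => insert v ((nb C v).erase (w v))) := by
  intro v
  have hvn : ∀ u, u ∉ (nb C u).erase (w u) := fun u h => not_mem_nb C u (mem_of_mem_erase h)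
  refine ⟨mem_insert_self _ _, ?_, ?_⟩
  · rw [card_insert_of_notMem (hvn v), card_erase_of_mem (hw v), hcard v]
    omega
  intro u hu
  rw [mem_insert] at hu
  rcases hu with rfl | hu
  · exact ⟨rfl, fun h => absurd rfl h⟩
  have hvu : C.Adj v u := mem_nb.1 (mem_of_mem_erase hu)
  refine ⟨?_, fun _ => hvu⟩
  set Bv := insert v ((nb C v).erase (w v)) with hBv
  have hBc : Cq C Bv := by
    intro a ha b hb hab
    rw [hBv, mem_insert] at ha hb
    rcases ha with rfl | ha <;> rcases hb with rfl | hb
    · exact absurd rfl hab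
    · exact mem_nb.1 (mem_of_mem_erase hb)
    · exact (mem_nb.1 (mem_of_mem_erase ha)).symm
    · exact hcl v a ha b hb hab
  have huB : u ∈ Bv := mem_insert_of_mem hu
  have hsub : Bv.erase u ⊆ nb C u := by
    intro z hz
    exact mem_nb.2 (hBc u huB z (mem_of_mem_erase hz) (mem_erase.1 hz).1.symm)
  have hBcard : Bv.card = D := by
    rw [hBv, card_insert_of_notMem (hvn v), card_erase_of_mem (hw v), hcard v]
    omega
  have h1 : (nb C u \ Bv.erase u).card = 1 := by
    rw [card_sdiff_of_subset hsub, card_erase_of_mem huB, hBcard, hcard u]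
    omega
  obtain ⟨z, hz⟩ := card_eq_one.1 h1
  have hzu : z ∈ nb C u := by
    have : z ∈ nb C u \ Bv.erase u := by rw [hz]; exact mem_singleton_self z
    exact (mem_sdiff.1 this).1
  have h2 : (nb C u).erase z = Bv.erase u := by
    ext y
    constructor
    · intro hy
      obtain ⟨h3, h4⟩ := mem_erase.1 hy
      by_contra h5
      have : y ∈ nb C u \ Bv.erase u := mem_sdiff.2 ⟨h4, h5⟩
      rw [hz, mem_singleton] at this
      exact h3 this
    · intro hy
      refine mem_erase.2 ⟨?_, hsub hy⟩
      rintro rfl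
      have : y ∈ nb C u \ Bv.erase u := by rw [hz]; exact mem_singleton_self y
      exact (mem_sdiff.1 this).2 hy
  have h3 : z = w u := by
    refine erase_unique hp hC (T := nb C u) (v := u) (Subset.refl _) (by rw [hcard u]; exact hD)
      (hncl u) ?_ (hcl u)
    rw [h2]
    exact hBc.subset (erase_subset _ _)
  rw [h3] at h2
  show insert u ((nb C u).erase (w u)) = Bv
  rw [h2, insert_erase huB]

/-- all classes of the map `B` have `D` elements and each vertex has exactly one neighbour outside
its class -/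
def IsSparsePart (D : ℕ) (G : SimpleGraph V) (B : V → Finset V) : Prop :=
  ∀ v, v ∈ B v ∧ (B v).card = D ∧ (∀ w ∈ B v, B w = B v) ∧ (nb (outer G B) v).card = 1

theorem IsSparsePart.mem_iff {D : ℕ} {G : SimpleGraph V} {B : V → Finset V}
    (h : IsSparsePart D G B) (v w : V) : w ∈ B v ↔ B w = B v :=
  ⟨fun hw => (h v).2.2.1 w hw, fun hw => hw ▸ (h w).1⟩

theorem sparse_upper {p : V → Fin d → ℝ} (hp : MG p) {D : ℕ} (hdD : d ≤ D) {G : SimpleGraph V}
    {B : V → Finset V} (h : IsSparsePart D G B) :
    Fintype.card V * (d * (d + 1)) ≤ 2 * D * mo G p + D * Fintype.card V := by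
  classical
  have h1 : (univ.image B).card * D = Fintype.card V := by
    have h1 := card_eq_sum_card_image B univ
    rw [card_univ] at h1
    rw [h1]
    have h2 : ∀ b ∈ univ.image B, (univ.filter fun a => B a = b).card = D := by
      intro b hb
      obtain ⟨v, -, rfl⟩ := mem_image.1 hb
      rw [← (h v).2.1]
      congr 1
      ext w
      rw [mem_filter, h.mem_iff v w]
      simp
    rw [sum_congr rfl h2, sum_const, smul_eq_mul]
  have h2 : 2 * (outer G B).edgeSet.ncard = Fintype.card V := by
    rw [← sum_nb, sum_congr rfl fun v _ => (h v).2.2.2]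
    simp
  have h3 : Fintype.card (univ.image B : Finset (Finset V)) * (d * (d + 1) / 2) ≤
      mo (inner G B) p := by
    refine blocks_le hp (ι := (univ.image B : Finset (Finset V)))
      (fun v => ⟨B v, mem_image_of_mem _ (mem_univ v)⟩) ?_ ?_
    · intro u v huv
      exact Subtype.ext huv.2
    · rintro ⟨b, hb⟩
      obtain ⟨v, -, rfl⟩ := mem_image.1 hb
      refine ⟨B v, by rw [(h v).2.1]; exact hdD, fun w hw => ?_⟩
      exact Subtype.ext ((h.mem_iff v w).1 hw)
  rw [Fintype.card_coe] at h3
  have h4 := mo_le_add (G := inner G B) (G' := G) p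
  have h5 : G.edgeSet \ (inner G B).edgeSet = (outer G B).edgeSet := by
    ext e
    induction e using Sym2.ind with
    | _ a b =>
      rw [Set.mem_sdiff, SimpleGraph.mem_edgeSet, SimpleGraph.mem_edgeSet, SimpleGraph.mem_edgeSet]
      constructor
      · rintro ⟨h6, h7⟩
        exact ⟨h6, fun h8 => h7 ⟨h6, h8⟩⟩
      · rintro ⟨h6, h7⟩
        exact ⟨h6, fun h8 => h7 h8.2⟩
  rw [h5] at h4
  have heven : 2 * (d * (d + 1) / 2) = d * (d + 1) :=
    Nat.mul_div_cancel' (Nat.even_mul_succ_self d).two_dvd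
  set m := (univ.image B).card
  set E := d * (d + 1) / 2
  calc Fintype.card V * (d * (d + 1)) = 2 * D * (m * E) := by rw [← h1, ← heven]; ring
    _ ≤ 2 * D * (mo G p + (outer G B).edgeSet.ncard) := Nat.mul_le_mul_left _ (h3.trans h4)
    _ = 2 * D * mo G p + D * (2 * (outer G B).edgeSet.ncard) := by ring
    _ = _ := by rw [h2]

theorem not_rigid_of_sparse {D : ℕ} (hdD : d ≤ D) (hn : d ≤ Fintype.card V) {G : SimpleGraph V}
    {B : V → Finset V} (h : IsSparsePart D G B)
    (hlt : d * (d + 1) * D < (d * (d + 1) - D) * Fintype.card V) : ¬ GenRigid d G := by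
  obtain ⟨p, hp⟩ := exists_mg V d
  rw [genRigid_iff hp hn]
  intro hmo
  have h1 := sparse_upper hp hdD h
  have heven : 2 * (d * (d + 1) / 2) = d * (d + 1) :=
    Nat.mul_div_cancel' (Nat.even_mul_succ_self d).two_dvd
  have h2 : 2 * D * mo G p ≤ D * (d * (d + 1)) := by
    calc 2 * D * mo G p ≤ 2 * D * (d * (d + 1) / 2) := Nat.mul_le_mul_left _ hmo
      _ = D * (2 * (d * (d + 1) / 2)) := by ring
      _ = _ := by rw [heven]
  have h3 : D ≤ d * (d + 1) := by
    by_contra hc
    push Not at hc
    rw [Nat.sub_eq_zero_of_le hc.le, zero_mul] at hlt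
    exact absurd hlt (Nat.not_lt_zero _)
  zify [h3] at hlt h1 h2
  nlinarith

/-- a sparse partition of a graph of degree `k` has classes with at least `k` elements -/
theorem sparse_ge [DecidableEq V] {D k : ℕ} {G : SimpleGraph V} {B : V → Finset V}
    (h : IsSparsePart D G B) (hdeg : ∀ v, (nb G v).card = k) (v : V) : k ≤ D := by
  have h1 : nb G v ⊆ (B v).erase v ∪ nb (outer G B) v := by
    intro z hz
    rw [mem_union]
    by_cases hB : B v = B z
    · exact Or.inl (mem_erase.2 ⟨(mem_nb.1 hz).ne', (h.mem_iff v z).2 hB.symm⟩)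
    · exact Or.inr (mem_nb.2 ⟨mem_nb.1 hz, hB⟩)
  have h2 := (card_le_card h1).trans (card_union_le _ _)
  rw [hdeg v, card_erase_of_mem (h v).1, (h v).2.1, (h v).2.2.2] at h2
  have h3 : 0 < (B v).card := card_pos.2 ⟨v, (h v).1⟩
  rw [(h v).2.1] at h3
  omega

/-- **Vertex-transitive graphs of degree at least `3 d (d + 1) / 4 + 1`.** -/
theorem vt_iff {G : SimpleGraph V} {k : ℕ} (hd : 1 ≤ d) (hk : 3 * (d * (d + 1)) + 4 ≤ 4 * k)
    (hconn : G.Connected) (htr : ∀ u v, ∃ φ : G ≃g G, φ u = v)
    (hdeg : ∀ v, (nb G v).card = k) :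
    GenRigid d G ↔ ¬ ∃ (B : V → Finset V) (D : ℕ), IsSparsePart D G B ∧
      d * (d + 1) * D < (d * (d + 1) - D) * Fintype.card V := by
  classical
  obtain ⟨v0⟩ := hconn.nonempty
  have hnk : k < Fintype.card V := by rw [← hdeg v0]; exact card_nb_lt G v0
  have hdk : d + 1 ≤ k := by nlinarith
  have hn : d ≤ Fintype.card V := by omega
  constructor
  · rintro hr ⟨B, D, hB, hlt⟩
    have := sparse_ge hB hdeg v0
    exact not_rigid_of_sparse (by omega) hn hB hlt hr
  intro hno
  by_contra hnr
  apply hno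
  obtain ⟨p, hp⟩ := exists_mg V d
  set C := cl G p with hCdef
  have hC : Closed C p := closed_cl G p
  have hGC : G ≤ C := le_cl G p
  have hncl : ∀ v, ¬ Cq C (nb C v) := fun v hv => hnr (complete_of_one hp hn hconn htr hv)
  have heven : 2 * (d * (d + 1) / 2) = d * (d + 1) :=
    Nat.mul_div_cancel' (Nat.even_mul_succ_self d).two_dvd
  have hmo : d * (d + 1) < 2 * mo C p := by
    rw [genRigid_iff hp hn, ← mo_cl] at hnr
    change ¬ mo C p ≤ d * (d + 1) / 2 at hnr
    omega
  have hmo' : (d : ℝ) * (d + 1) < 2 * mo C p := by exact_mod_cast hmo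
  have hcardC : ∀ v, (nb C v).card = (nb C v0).card := by
    intro v
    obtain ⟨φ, rfl⟩ := htr v0 v
    rw [nb_aut hp φ, card_image_of_injective _ φ.injective]
  set D := (nb C v0).card with hDdef
  have hkD : k ≤ D := by
    rw [← hdeg v0]
    exact card_le_card (nb_mono hGC v0)
  have hpot := potB hp hd hC univ
  rw [sub_univ] at hpot
  have hmo0 : (0 : ℝ) < mo C p := by
    have : 0 < mo C p := by
      have := Nat.zero_le (d * (d + 1))
      omega
    exact_mod_cast this
  -- all neighbourhoods are complete up to one vertex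
  have hA : ∀ v, ∃ u ∈ nb C v, Cq C ((nb C v).erase u) := by
    by_contra hc
    push Not at hc
    obtain ⟨v1, hv1⟩ := hc
    have hall : ∀ v, ¬ ∃ u ∈ nb C v, Cq C ((nb C v).erase u) := by
      rintro v ⟨u, hu, hcl⟩
      obtain ⟨φ, rfl⟩ := htr v v1
      refine hv1 (φ u) ?_ ?_
      · rw [nb_aut hp φ]
        exact mem_image_of_mem _ hu
      · rw [nb_aut hp φ, ← Finset.image_erase φ.injective, cq_aut hp φ]
        exact hcl
    have h2 : ∀ v ∈ (univ : Finset V), (d : ℝ) ≤ fB C d (nb C v ∩ univ) := by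
      intro v _
      rw [inter_univ]
      unfold fB
      rw [if_neg (hncl v), if_neg (hall v)]
      exact Bf_ge hd (by rw [hcardC v]; omega)
    have h3 := sum_le_sum h2
    rw [sum_const, card_univ, nsmul_eq_mul] at h3
    linarith
  choose w hw hcl using hA
  have hsum : ∀ v ∈ (univ : Finset V),
      fB C d (nb C v ∩ univ) = d + 1 / 2 - d * (d + 1) / (2 * D) := by
    intro v _
    rw [inter_univ]
    unfold fB
    rw [if_neg (hncl v), if_pos ⟨w v, hw v, hcl v⟩, hcardC v, Af_big (by omega) (by omega)]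
  rw [sum_congr rfl hsum, sum_const, card_univ, nsmul_eq_mul] at hpot
  have hD0 : (0 : ℝ) < D := by
    have : 0 < D := by omega
    exact_mod_cast this
  have hineq : (D : ℝ) * Fintype.card V + d * (d + 1) * D < d * (d + 1) * Fintype.card V := by
    have h1 : (Fintype.card V : ℝ) * (d + 1 / 2 - d * (d + 1) / (2 * D)) * (2 * D) =
        (2 * d + 1) * Fintype.card V * D - d * (d + 1) * Fintype.card V := by
      field_simp
    have h2 : ((Fintype.card V : ℝ) * (d + 1 / 2 - d * (d + 1) / (2 * D)) + mo C p) * (2 * D) ≤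
        d * Fintype.card V * (2 * D) := by
      apply mul_le_mul_of_nonneg_right _ (by positivity)
      linarith
    have h3 : (d : ℝ) * (d + 1) * D < 2 * mo C p * D := mul_lt_mul_of_pos_right hmo' hD0
    nlinarith
  have hineq' : D * Fintype.card V + d * (d + 1) * D < d * (d + 1) * Fintype.card V := by
    exact_mod_cast hineq
  have hDlt : D < d * (d + 1) := by
    by_contra hc
    push Not at hc
    have : d * (d + 1) * Fintype.card V ≤ D * Fintype.card V := Nat.mul_le_mul_right _ hc
    omega
  have hlt : d * (d + 1) * D < (d * (d + 1) - D) * Fintype.card V := by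
    have h1 : D * Fintype.card V + (d * (d + 1) - D) * Fintype.card V =
        d * (d + 1) * Fintype.card V := by
      rw [← Nat.add_mul]
      congr 1
      omega
    omega
  have hpart := part_of_typeA hp hC (D := D) (by omega) hcardC hncl hw hcl
  set B : V → Finset V := fun v => insert v ((nb C v).erase (w v)) with hB
  have hwB : ∀ v, w v ∉ B v := by
    intro v hv
    rw [hB] at hv
    simp only [mem_insert, mem_erase, ne_eq, not_true_eq_false, false_and, or_false] at hv
    have h1 := hw v
    rw [hv] at h1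
    exact not_mem_nb C v h1
  have hwφ : ∀ (φ : G ≃g G) (v : V), w (φ v) = φ (w v) := by
    intro φ v
    refine erase_unique hp hC (T := nb C (φ v)) (v := φ v) (Subset.refl _)
      (by rw [hcardC]; omega) (hncl _) (hcl _) ?_
    rw [nb_aut hp φ, ← Finset.image_erase φ.injective, cq_aut hp φ]
    exact hcl v
  have hnbC : ∀ u z, C.Adj u z → z ≠ w u → z ∈ B u := by
    intro u z huz hz
    exact mem_insert_of_mem (mem_erase.2 ⟨hz, mem_nb.2 huz⟩)
  have hall : ∀ v, G.Adj v (w v) := by
    by_cases hout : ∃ v, G.Adj v (w v)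
    · obtain ⟨v1, hv1⟩ := hout
      intro v
      obtain ⟨φ, rfl⟩ := htr v1 v
      rw [hwφ]
      exact φ.map_rel_iff.2 hv1
    · exfalso
      push Not at hout
      have hstep : ∀ u z, G.Adj u z → B z = B u := by
        intro u z huz
        have hne : z ≠ w u := fun h => hout u (h ▸ huz)
        exact (hpart.mem_iff u z).1 (hnbC u z (hGC huz) hne)
      have hwalk : ∀ {u z : V}, G.Walk u z → B z = B u := by
        intro u z wk
        induction wk with
        | nil => rfl
        | cons h _ ih => exact ih.trans (hstep _ _ h)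
      obtain ⟨wk⟩ := hconn.preconnected v0 (w v0)
      exact hwB v0 ((hpart.mem_iff v0 (w v0)).2 (hwalk wk))
  refine ⟨B, D, fun v => ⟨(hpart v).1, (hpart v).2.1, fun u hu => ((hpart v).2.2 u hu).1, ?_⟩, hlt⟩
  have h1 : nb (outer G B) v = {w v} := by
    ext z
    rw [mem_nb, mem_singleton]
    constructor
    · rintro ⟨h2, h3⟩
      by_contra h4
      exact h3 ((hpart.mem_iff v z).1 (hnbC v z (hGC h2) h4)).symm
    · rintro rfl
      exact ⟨hall v, fun h => hwB v ((hpart.mem_iff v (w v)).2 h.symm)⟩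
  rw [h1, card_singleton]

/-- **Vertex-transitive graphs of degree at least ten in three dimensions.** -/
theorem vt_three {G : SimpleGraph V} {k : ℕ} (hk : 10 ≤ k)
    (hconn : G.Connected) (htr : ∀ u v, ∃ φ : G ≃g G, φ u = v)
    (hdeg : ∀ v, (nb G v).card = k) :
    GenRigid 3 G ↔ ¬ ((∃ B : V → Finset V, IsPart k G B) ∧
      12 * k < (12 - k) * Fintype.card V) := by
  classical
  obtain ⟨v0⟩ := hconn.nonempty
  rw [vt_iff (by norm_num) (by omega) hconn htr hdeg, not_iff_not]
  constructor
  · rintro ⟨B, D, hB, hlt⟩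
    norm_num at hlt
    have hkD := sparse_ge hB hdeg v0
    have hD12 : D < 12 := by
      by_contra hc
      push Not at hc
      rw [Nat.sub_eq_zero_of_le hc, zero_mul] at hlt
      exact absurd hlt (Nat.not_lt_zero _)
    have hin : ∀ v, (nb G v ∩ B v).card = k - 1 := by
      intro v
      have h1 : nb G v ∩ B v = nb G v \ nb (outer G B) v := by
        ext z
        rw [mem_inter, mem_sdiff]
        refine and_congr_right fun hz => ?_
        rw [hB.mem_iff v z, mem_nb]
        constructor
        · rintro h2 ⟨-, h3⟩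
          exact h3 h2.symm
        · intro h2
          by_contra h3
          exact h2 ⟨mem_nb.1 hz, fun h => h3 h.symm⟩
      have h2 : nb (outer G B) v ⊆ nb G v := fun z hz => mem_nb.2 (mem_nb.1 hz).1
      rw [h1, card_sdiff_of_subset h2, hdeg v, (hB v).2.2.2]
    have hDk : D = k := by
      by_contra hne
      have hk10 : k = 10 := by omega
      have hD11 : D = 11 := by omega
      have h9 : ∀ u ∈ B v0, (nb (sub G (B v0)) u).card = 9 := by
        intro u hu
        have hBu : B u = B v0 := (hB.mem_iff v0 u).1 hu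
        rw [nb_sub G hu, ← hBu, hin u, hk10]
      have h0 : ∀ u, u ∉ B v0 → (nb (sub G (B v0)) u).card = 0 := by
        intro u hu
        rw [card_eq_zero, eq_empty_iff_forall_notMem]
        intro z hz
        exact hu (mem_nb.1 hz).2.1
      have h99 := sum_nb (sub G (B v0))
      rw [← sum_subset (subset_univ (B v0)) (fun u _ hu => h0 u hu), sum_congr rfl h9, sum_const,
        (hB v0).2.1, hD11, smul_eq_mul] at h99
      omega
    refine ⟨⟨B, fun v => ⟨(hB v).1, by rw [(hB v).2.1, hDk], fun u hu =>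
      ⟨(hB v).2.2.1 u hu, fun hne => ?_⟩⟩⟩, by rw [← hDk]; exact hlt⟩
    have h1 : nb G v ∩ B v = (B v).erase v := by
      apply eq_of_subset_of_card_le
      · intro z hz
        rw [mem_inter] at hz
        exact mem_erase.2 ⟨(mem_nb.1 hz.1).ne', hz.2⟩
      · rw [hin v, card_erase_of_mem (hB v).1, (hB v).2.1, hDk]
    have h2 : u ∈ (B v).erase v := mem_erase.2 ⟨hne, hu⟩
    rw [← h1, mem_inter] at h2
    exact mem_nb.1 h2.1
  · rintro ⟨⟨B, hB⟩, hlt⟩
    refine ⟨B, k, fun v => ⟨(hB v).1, (hB v).2.1, fun u hu => ((hB v).2.2 u hu).1,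
      outer_card hB (hdeg v)⟩, ?_⟩
    norm_num
    exact hlt

end Pool.Agent.U656.RG
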