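import Mathlib
import Pool.Agent.U656.RG.Cuts
import Pool.Agent.U656.RG.VT

/-!
# The defect of graphs of minimum degree at least `d (d + 1)`
-/

set_option autoImplicit false
set_option linter.unusedSectionVars false

namespace Pool.Agent.U656.RG

open Matrix Finset Pool.Agent.H283R2.DR Pool.Agent.H789R5 Pool.Agent.N423.DE

variable {V : Type} [Fintype V] {d : ℕ}

theorem Kf_ge {b t : ℕ} (hb : b ≤ d) (h : b ≤ t) : (b : ℝ) / 2 ≤ Kf d t := by
  have hb' : (b : ℝ) ≤ d := by exact_mod_cast hb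
  have h' : (b : ℝ) ≤ t := by exact_mod_cast h
  by_cases ht : t ≤ d
  · rw [Kf_small ht]
    linarith
  · push Not at ht
    rw [Kf_big (by omega)]
    have h1 : (d : ℝ) + 1 ≤ t + 1 := by
      have : (d : ℝ) < t := by exact_mod_cast ht
      linarith
    have h0 : (0 : ℝ) ≤ d := by positivity
    have h2 : (d : ℝ) * (d + 1) / (2 * (t + 1)) ≤ d / 2 := by
      rw [div_le_div_iff₀ (by positivity) (by norm_num)]
      nlinarith
    linarith

theorem Kf_nonneg (t : ℕ) : 0 ≤ Kf d t := by
  have := Kf_ge (d := d) (b := 0) (t := t) (Nat.zero_le _) (Nat.zero_le _)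
  simpa using this

theorem Af_ge' {b t : ℕ} (hb : d < b) (h : b ≤ t) :
    (d : ℝ) + 1 / 2 - d * (d + 1) / (2 * b) ≤ Af d t := by
  rw [Af_big (by omega) (by omega)]
  have hb0 : (0 : ℝ) < b := by
    have : 0 < b := by omega
    exact_mod_cast this
  have h' : (b : ℝ) ≤ t := by exact_mod_cast h
  have h2 : (d : ℝ) * (d + 1) / (2 * t) ≤ d * (d + 1) / (2 * b) := by
    apply div_le_div_of_nonneg_left (by positivity) (by positivity)
    linarith
  linarith

theorem fA_ge_Kf (C : SimpleGraph V) (T : Finset V) : Kf d T.card ≤ fA C d T := by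
  unfold fA
  split_ifs
  · exact le_rfl
  · exact Kf_le_Af _ _

/-- the loss at a boundary vertex -/
noncomputable def ell (d b : ℕ) : ℝ :=
  if b ≤ d then 2 * d - b else max ((d : ℝ) * (d + 1) - b) 0 / b

theorem ell_nonneg (d b : ℕ) : 0 ≤ ell d b := by
  unfold ell
  split_ifs with h
  · have : (b : ℝ) ≤ d := by exact_mod_cast h
    linarith [(Nat.cast_nonneg b : (0 : ℝ) ≤ b)]
  · exact div_nonneg (le_max_right _ _) (Nat.cast_nonneg _)

theorem ell_total (d b : ℕ) :
    (b : ℝ) * ell d b + (hh d b : ℕ) = ((d * (d + 1) - b : ℕ) : ℝ) := by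
  by_cases h : b ≤ d
  · have h1 : b ≤ d * (d + 1) := by nlinarith
    unfold ell hh
    rw [if_pos h, Nat.cast_sub h1]
    push_cast [Nat.cast_sub h]
    ring
  · push Not at h
    have e : d - b = 0 := by omega
    have hb0 : (b : ℝ) ≠ 0 := by
      have : 0 < b := by omega
      positivity
    unfold ell hh
    rw [if_neg (by omega), e, zero_mul, Nat.cast_zero, add_zero, mul_div_cancel₀ _ hb0]
    by_cases h2 : b ≤ d * (d + 1)
    · rw [Nat.cast_sub h2, max_eq_left]
      · push_cast; ring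
      · have : (b : ℝ) ≤ ((d * (d + 1) : ℕ) : ℝ) := by exact_mod_cast h2
        push_cast at this
        linarith
    · push Not at h2
      rw [Nat.sub_eq_zero_of_le h2.le, Nat.cast_zero, max_eq_right]
      have : (((d * (d + 1) : ℕ) : ℝ)) ≤ b := by exact_mod_cast h2.le
      push_cast at this
      linarith

section

variable [DecidableEq V]

theorem bd_sub_nb {C : SimpleGraph V} {R : Finset V} (hR : R ∈ ends C) {v : V} (hv : v ∈ R) :
    (bd C R).erase v ⊆ nb C v ∩ core C := by
  intro z hz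
  obtain ⟨h1, h2⟩ := mem_erase.1 hz
  rw [mem_inter, mem_nb, mem_core]
  rw [mem_bd] at h2
  exact ⟨ends_clique hR v hv z h2.1 (Ne.symm h1), h2.2⟩

/-- the loss at a boundary vertex with an outer neighbour -/
theorem loss {p : V → Fin d → ℝ} (hp : MG p) {C : SimpleGraph V} (hC : Closed C p)
    {R : Finset V} (hR : R ∈ ends C) {v w : V} (hv : v ∈ bd C R) (hw : w ∈ nb C v ∩ core C)
    (hwR : w ∉ R) : 2 * ((d : ℝ) - fA C d (nb C v ∩ core C)) ≤ ell d (bd C R).card := by
  have hvR := (mem_bd.1 hv).1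
  set T := nb C v ∩ core C with hT
  set b := (bd C R).card with hb
  have hsub : insert w ((bd C R).erase v) ⊆ T := by
    intro z hz
    rw [mem_insert] at hz
    rcases hz with rfl | hz
    · exact hw
    · exact bd_sub_nb hR hvR hz
  have hb1 : 0 < b := card_pos.2 ⟨v, hv⟩
  have hcard : b ≤ T.card := by
    have h1 := card_le_card hsub
    rw [card_insert_of_notMem (fun h => hwR (mem_bd.1 (mem_of_mem_erase h)).1),
      card_erase_of_mem hv, ← hb] at h1
    omega
  by_cases hbd : b ≤ d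
  · unfold ell
    rw [if_pos hbd]
    have h1 := (Kf_ge hbd hcard).trans (fA_ge_Kf C T)
    linarith
  · push Not at hbd
    have hncl : ¬ Cq C T := by
      intro hcl
      obtain ⟨u, hu, huR⟩ := mem_ends.1 hR
      have huRm : u ∈ R := by rw [← huR]; exact mem_cN.2 (Or.inl rfl)
      have huw : u ≠ w := fun h => hwR (h ▸ huRm)
      apply hwR
      rw [← huR, mem_cN]
      refine Or.inr (closed_common hp hC (T := bd C R) hbd.le
        ((ends_clique hR).subset (fun z hz => (mem_bd.1 hz).1)) huw ?_ ?_)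
      · intro t ht
        refine ends_clique hR u huRm t (mem_bd.1 ht).1 ?_
        rintro rfl
        exact (mem_bd.1 ht).2 hu
      · intro t ht
        by_cases htv : t = v
        · rw [htv]
          exact (mem_nb.1 (mem_inter.1 hw).1).symm
        · have htT : t ∈ T := hsub (mem_insert_of_mem (mem_erase.2 ⟨htv, ht⟩))
          exact hcl w hw t htT (fun h => hwR (h ▸ (mem_bd.1 ht).1))
    have h0 : fA C d T = Af d T.card := by unfold fA; rw [if_neg hncl]
    rw [h0]
    have h1 := Af_ge' hbd hcard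
    unfold ell
    rw [if_neg (by omega)]
    have hb0 : (0 : ℝ) < b := by exact_mod_cast hb1
    have h2 : ((d : ℝ) * (d + 1) - b) / b ≤ max ((d : ℝ) * (d + 1) - b) 0 / b :=
      div_le_div_of_nonneg_right (le_max_left _ _) hb0.le
    have h3 : ((d : ℝ) * (d + 1) - b) / b = 2 * (d * (d + 1) / (2 * b)) - 1 := by
      field_simp
    linarith

open Classical in
theorem local_bound {p : V → Fin d → ℝ} (hp : MG p) (hd : 1 ≤ d) {C : SimpleGraph V}
    (hC : Closed C p) (hdeg : ∀ v, d * (d + 1) ≤ (nb C v).card) {v : V} (hv : v ∈ core C) :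
    2 * ((d : ℝ) - fA C d (nb C v ∩ core C)) ≤
      ∑ R ∈ (ends C).filter (fun R => v ∈ R), ell d (bd C R).card := by
  have hvs := mem_core.1 hv
  have hpos : ∀ R ∈ (ends C).filter (fun R => v ∈ R), 0 ≤ ell d (bd C R).card :=
    fun R _ => ell_nonneg _ _
  by_cases h0 : ∃ R ∈ ends C, v ∈ R ∧ ∃ w ∈ nb C v ∩ core C, w ∉ R
  · obtain ⟨R, hR, hvR, w, hw, hwR⟩ := h0
    refine (loss hp hC hR (mem_bd.2 ⟨hvR, hvs⟩) hw hwR).trans ?_
    exact single_le_sum hpos (mem_filter.2 ⟨hR, hvR⟩)
  push Not at h0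
  by_cases h1 : ∃ R ∈ ends C, v ∈ R
  · obtain ⟨R1, hR1, hvR1⟩ := h1
    have hz : ∃ z ∈ nb C v, z ∉ R1 := by
      by_contra hcon
      push Not at hcon
      exact hvs ((ends_clique hR1).subset hcon)
    obtain ⟨z, hz, hzR⟩ := hz
    have hzs : Simp C z := by
      by_contra hc
      exact hzR (h0 R1 hR1 hvR1 z (mem_inter.2 ⟨hz, mem_core.2 hc⟩))
    have hR2 : cN C z ∈ ends C := mem_ends.2 ⟨z, hzs, rfl⟩
    have hvR2 : v ∈ cN C z := mem_cN.2 (Or.inr (mem_nb.1 hz).symm)
    have hne : R1 ≠ cN C z := by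
      rintro h
      exact hzR (h ▸ mem_cN.2 (Or.inl rfl))
    have hint := ends_inter hp hC hR1 hR2 hne
    have hsmall : ∀ R ∈ ends C, v ∈ R → bd C R ⊆ R1 ∩ cN C z := by
      intro R hR hvR u hu
      by_cases huv : u = v
      · rw [huv]; exact mem_inter.2 ⟨hvR1, hvR2⟩
      · have h2 : u ∈ nb C v ∩ core C := bd_sub_nb hR hvR (mem_erase.2 ⟨huv, hu⟩)
        exact mem_inter.2 ⟨h0 R1 hR1 hvR1 u h2, h0 _ hR2 hvR2 u h2⟩
    have hell : ∀ R ∈ ends C, v ∈ R → (d : ℝ) ≤ ell d (bd C R).card := by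
      intro R hR hvR
      have h2 := (card_le_card (hsmall R hR hvR)).trans_lt hint
      unfold ell
      rw [if_pos h2.le]
      have h3 : ((bd C R).card : ℝ) ≤ d := by exact_mod_cast h2.le
      linarith
    have h3 : ({R1, cN C z} : Finset (Finset V)) ⊆ (ends C).filter (fun R => v ∈ R) := by
      intro R hR
      rw [mem_insert, mem_singleton] at hR
      rcases hR with rfl | rfl
      · exact mem_filter.2 ⟨hR1, hvR1⟩
      · exact mem_filter.2 ⟨hR2, hvR2⟩
    have h4 := sum_le_sum_of_subset_of_nonneg h3 (f := fun R => ell d (bd C R).card)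
      (fun R _ _ => ell_nonneg _ _)
    rw [sum_pair hne] at h4
    have h5 := hell R1 hR1 hvR1
    have h6 := hell _ hR2 hvR2
    have h7 : 0 ≤ fA C d (nb C v ∩ core C) := (Kf_nonneg _).trans (fA_ge_Kf _ _)
    linarith
  · push Not at h1
    have h2 : nb C v ∩ core C = nb C v := by
      rw [inter_eq_left]
      intro z hz
      rw [mem_core]
      intro hzs
      exact h1 (cN C z) (mem_ends.2 ⟨z, hzs, rfl⟩) (mem_cN.2 (Or.inr (mem_nb.1 hz).symm))
    rw [h2]
    have h3 : fA C d (nb C v) = Af d (nb C v).card := by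
      unfold fA
      rw [if_neg (show ¬ Cq C (nb C v) from hvs)]
    have h4 := Af_ge (hdeg v) hd
    have h5 := sum_nonneg hpos
    rw [h3]
    linarith

/-- **The defect.** -/
theorem defect {p : V → Fin d → ℝ} (hp : MG p) (hd : 1 ≤ d) {C : SimpleGraph V}
    (hC : Closed C p) (hdeg : ∀ v, d * (d + 1) ≤ (nb C v).card) :
    2 * mo C p ≤ ∑ R ∈ ends C, (d * (d + 1) - (bd C R).card) := by
  classical
  have h1 := add_all hp hd hC (ends C) (Subset.refl _)
  rw [core_union, sub_univ] at h1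
  have h2 := potA hp hd hC (core C)
  have h3 := card_core C
  have h4 := sum_le_sum fun v (hv : v ∈ core C) => local_bound hp hd hC hdeg hv
  rw [← mul_sum, sum_sub_distrib, sum_const, nsmul_eq_mul] at h4
  have h5 : ∑ v ∈ core C, ∑ R ∈ (ends C).filter (fun R => v ∈ R), ell d (bd C R).card =
      ∑ R ∈ ends C, ((bd C R).card : ℝ) * ell d (bd C R).card := by
    simp_rw [sum_filter]
    rw [sum_comm]
    refine sum_congr rfl fun R _ => ?_
    rw [← sum_filter, sum_const, nsmul_eq_mul]
    congr 3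
    ext v
    rw [mem_filter, mem_core, mem_bd]
    tauto
  rw [h5] at h4
  have h1' : (2 : ℝ) * mo C p + 2 * d * ∑ R ∈ ends C, ((itr C R).card : ℝ) ≤
      2 * mo (sub C (core C)) p + ∑ R ∈ ends C, ((hh d (bd C R).card : ℕ) : ℝ) := by
    exact_mod_cast h1
  have h3' : ((core C).card : ℝ) + ∑ R ∈ ends C, ((itr C R).card : ℝ) = Fintype.card V := by
    exact_mod_cast h3
  have h6 : ∑ R ∈ ends C, ((d * (d + 1) - (bd C R).card : ℕ) : ℝ) =
      ∑ R ∈ ends C, ((bd C R).card : ℝ) * ell d (bd C R).card +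
        ∑ R ∈ ends C, ((hh d (bd C R).card : ℕ) : ℝ) := by
    rw [← sum_add_distrib]
    exact sum_congr rfl fun R _ => (ell_total d _).symm
  have h7 : (2 : ℝ) * mo C p ≤ ∑ R ∈ ends C, ((d * (d + 1) - (bd C R).card : ℕ) : ℝ) := by
    rw [h6]
    have h8 : (d : ℝ) * Fintype.card V = d * (core C).card +
        d * ∑ R ∈ ends C, ((itr C R).card : ℝ) := by
      rw [← h3']; ring
    linarith
  exact_mod_cast h7

end

end Pool.Agent.U656.RG
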