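import Mathlib
import Pool.Agent.U656.RG.Defect

/-!
# The defect of arbitrary graphs: end cliques and vertices of small degree
-/

set_option autoImplicit false
set_option linter.unusedSectionVars false

namespace Pool.Agent.U656.RG

open Matrix Finset Pool.Agent.H283R2.DR Pool.Agent.H789R5 Pool.Agent.N423.DE

variable {V : Type} [Fintype V] {d : ℕ}

theorem Af_loss {t : ℕ} (hd : 1 ≤ d) (ht : 1 ≤ t) :
    2 * ((d : ℝ) - Af d t) ≤ ((d * (d + 1) - t : ℕ) : ℝ) := by
  have hd' : (1 : ℝ) ≤ d := by exact_mod_cast hd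
  have ht' : (1 : ℝ) ≤ t := by exact_mod_cast ht
  by_cases h : t ≤ d
  · rw [Af_small h]
    have h1 : t ≤ d * (d + 1) := by nlinarith
    rw [Nat.cast_sub h1]
    push_cast
    nlinarith
  · push Not at h
    rw [Af_big h.le ht]
    have ht0 : (0 : ℝ) < t := by linarith
    have e1 : 2 * ((d : ℝ) - (d + 1 / 2 - d * (d + 1) / (2 * t))) = (d * (d + 1) - t) / t := by
      field_simp
      ring
    rw [e1]
    by_cases h2 : t ≤ d * (d + 1)
    · rw [Nat.cast_sub h2]
      push_cast
      have h3 : (t : ℝ) ≤ d * (d + 1) := by exact_mod_cast h2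
      rw [div_le_iff₀ ht0]
      nlinarith
    · push Not at h2
      have h3 : ((d : ℝ) * (d + 1)) < t := by exact_mod_cast h2
      have h4 : ((d : ℝ) * (d + 1) - t) / t ≤ 0 := by
        apply div_nonpos_of_nonpos_of_nonneg <;> linarith
      exact h4.trans (Nat.cast_nonneg _)

section

variable [DecidableEq V]

open Classical in
/-- the vertices in no end clique -/
noncomputable def far (C : SimpleGraph V) : Finset V := univ.filter fun v => ∀ R ∈ ends C, v ∉ R

theorem mem_far {C : SimpleGraph V} {v : V} : v ∈ far C ↔ ∀ R ∈ ends C, v ∉ R := by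
  classical
  unfold far
  rw [mem_filter]
  simp

theorem far_not_simp {C : SimpleGraph V} {v : V} (h : v ∈ far C) : ¬ Simp C v := fun hs =>
  mem_far.1 h _ (mem_ends.2 ⟨v, hs, rfl⟩) (mem_cN.2 (Or.inl rfl))

open Classical in
theorem local_bound' {p : V → Fin d → ℝ} (hp : MG p) (hd : 1 ≤ d) {C : SimpleGraph V}
    (hC : Closed C p) {v : V} (hv : v ∈ core C) :
    2 * ((d : ℝ) - fA C d (nb C v ∩ core C)) ≤
      ∑ R ∈ (ends C).filter (fun R => v ∈ R), ell d (bd C R).card +
        if v ∈ far C then ((d * (d + 1) - (nb C v).card : ℕ) : ℝ) else 0 := by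
  have hvs := mem_core.1 hv
  have hpos : ∀ R ∈ (ends C).filter (fun R => v ∈ R), 0 ≤ ell d (bd C R).card :=
    fun R _ => ell_nonneg _ _
  have hlow : (0 : ℝ) ≤ if v ∈ far C then ((d * (d + 1) - (nb C v).card : ℕ) : ℝ) else 0 := by
    split_ifs
    · exact Nat.cast_nonneg _
    · exact le_rfl
  by_cases h0 : ∃ R ∈ ends C, v ∈ R ∧ ∃ w ∈ nb C v ∩ core C, w ∉ R
  · obtain ⟨R, hR, hvR, w, hw, hwR⟩ := h0
    refine ((loss hp hC hR (mem_bd.2 ⟨hvR, hvs⟩) hw hwR).trans ?_).trans
      (le_add_of_nonneg_right hlow)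
    exact single_le_sum hpos (mem_filter.2 ⟨hR, hvR⟩)
  push Not at h0
  by_cases h1 : ∃ R ∈ ends C, v ∈ R
  · refine le_trans ?_ (le_add_of_nonneg_right hlow)
    obtain ⟨R1, hR1, hvR1⟩ := h1
    have hz : ∃ z ∈ nb C v, z ∉ R1 := by
      by_contra hcon
      push Not at hcon
      exact hvs ((ends_clique hR1).subset hcon)
    obtain ⟨z, hz, hzR⟩ := hz
    have hzs : Simp C z := by
      by_contra hc
      exact hzR (h0 R1 hR1 hvR1 z (mem_inter.2 ⟨hz, mem_core.2 hc⟩))
    have hR2 : cN C z ∈ ends C := mem_ends.2 ⟨z, hzs, rfl⟩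
    have hvR2 : v ∈ cN C z := mem_cN.2 (Or.inr (mem_nb.1 hz).symm)
    have hne : R1 ≠ cN C z := by
      rintro h
      exact hzR (h ▸ mem_cN.2 (Or.inl rfl))
    have hint := ends_inter hp hC hR1 hR2 hne
    have hsmall : ∀ R ∈ ends C, v ∈ R → bd C R ⊆ R1 ∩ cN C z := by
      intro R hR hvR u hu
      by_cases huv : u = v
      · rw [huv]; exact mem_inter.2 ⟨hvR1, hvR2⟩
      · have h2 : u ∈ nb C v ∩ core C := bd_sub_nb hR hvR (mem_erase.2 ⟨huv, hu⟩)
        exact mem_inter.2 ⟨h0 R1 hR1 hvR1 u h2, h0 _ hR2 hvR2 u h2⟩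
    have hell : ∀ R ∈ ends C, v ∈ R → (d : ℝ) ≤ ell d (bd C R).card := by
      intro R hR hvR
      have h2 := (card_le_card (hsmall R hR hvR)).trans_lt hint
      unfold ell
      rw [if_pos h2.le]
      have h3 : ((bd C R).card : ℝ) ≤ d := by exact_mod_cast h2.le
      linarith
    have h3 : ({R1, cN C z} : Finset (Finset V)) ⊆ (ends C).filter (fun R => v ∈ R) := by
      intro R hR
      rw [mem_insert, mem_singleton] at hR
      rcases hR with rfl | rfl
      · exact mem_filter.2 ⟨hR1, hvR1⟩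
      · exact mem_filter.2 ⟨hR2, hvR2⟩
    have h4 := sum_le_sum_of_subset_of_nonneg h3 (f := fun R => ell d (bd C R).card)
      (fun R _ _ => ell_nonneg _ _)
    rw [sum_pair hne] at h4
    have h5 := hell R1 hR1 hvR1
    have h6 := hell _ hR2 hvR2
    have h7 : 0 ≤ fA C d (nb C v ∩ core C) := (Kf_nonneg _).trans (fA_ge_Kf _ _)
    linarith
  · push Not at h1
    have h2 : nb C v ∩ core C = nb C v := by
      rw [inter_eq_left]
      intro z hz
      rw [mem_core]
      intro hzs
      exact h1 (cN C z) (mem_ends.2 ⟨z, hzs, rfl⟩) (mem_cN.2 (Or.inr (mem_nb.1 hz).symm))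
    rw [h2]
    have h3 : fA C d (nb C v) = Af d (nb C v).card := by
      unfold fA
      rw [if_neg (show ¬ Cq C (nb C v) from hvs)]
    have h4 : 1 ≤ (nb C v).card := by
      by_contra hc
      have h5 : nb C v = ∅ := by
        rw [← card_eq_zero]
        omega
      exact hvs (by
        unfold Simp
        rw [h5]
        intro a ha
        exact absurd ha (notMem_empty _))
    rw [if_pos (mem_far.2 h1), h3]
    refine (Af_loss hd h4).trans (le_add_of_nonneg_left (sum_nonneg hpos))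

/-- **The defect of an arbitrary graph.** -/
theorem defect' {p : V → Fin d → ℝ} (hp : MG p) (hd : 1 ≤ d) {C : SimpleGraph V}
    (hC : Closed C p) :
    2 * mo C p ≤ ∑ R ∈ ends C, (d * (d + 1) - (bd C R).card) +
      ∑ v ∈ far C, (d * (d + 1) - (nb C v).card) := by
  classical
  have h1 := add_all hp hd hC (ends C) (Subset.refl _)
  rw [core_union, sub_univ] at h1
  have h2 := potA hp hd hC (core C)
  have h3 := card_core C
  have h4 := sum_le_sum fun v (hv : v ∈ core C) => local_bound' hp hd hC hv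
  rw [← mul_sum, sum_sub_distrib, sum_const, nsmul_eq_mul, sum_add_distrib] at h4
  have h5 : ∑ v ∈ core C, ∑ R ∈ (ends C).filter (fun R => v ∈ R), ell d (bd C R).card =
      ∑ R ∈ ends C, ((bd C R).card : ℝ) * ell d (bd C R).card := by
    simp_rw [sum_filter]
    rw [sum_comm]
    refine sum_congr rfl fun R _ => ?_
    rw [← sum_filter, sum_const, nsmul_eq_mul]
    congr 3
    ext v
    rw [mem_filter, mem_core, mem_bd]
    tauto
  have h5' : ∑ v ∈ core C, (if v ∈ far C then ((d * (d + 1) - (nb C v).card : ℕ) : ℝ) else 0) =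
      ∑ v ∈ far C, ((d * (d + 1) - (nb C v).card : ℕ) : ℝ) := by
    rw [← sum_filter]
    refine sum_congr ?_ fun _ _ => rfl
    ext v
    rw [mem_filter, mem_core]
    exact ⟨fun h => h.2, fun h => ⟨far_not_simp h, h⟩⟩
  rw [h5, h5'] at h4
  have h1' : (2 : ℝ) * mo C p + 2 * d * ∑ R ∈ ends C, ((itr C R).card : ℝ) ≤
      2 * mo (sub C (core C)) p + ∑ R ∈ ends C, ((hh d (bd C R).card : ℕ) : ℝ) := by
    exact_mod_cast h1
  have h3' : ((core C).card : ℝ) + ∑ R ∈ ends C, ((itr C R).card : ℝ) = Fintype.card V := by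
    exact_mod_cast h3
  have h6 : ∑ R ∈ ends C, ((d * (d + 1) - (bd C R).card : ℕ) : ℝ) =
      ∑ R ∈ ends C, ((bd C R).card : ℝ) * ell d (bd C R).card +
        ∑ R ∈ ends C, ((hh d (bd C R).card : ℕ) : ℝ) := by
    rw [← sum_add_distrib]
    exact sum_congr rfl fun R _ => (ell_total d _).symm
  have h7 : (2 : ℝ) * mo C p ≤ ∑ R ∈ ends C, ((d * (d + 1) - (bd C R).card : ℕ) : ℝ) +
      ∑ v ∈ far C, ((d * (d + 1) - (nb C v).card : ℕ) : ℝ) := by
    rw [h6]
    have h8 : (d : ℝ) * Fintype.card V = d * (core C).card +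
        d * ∑ R ∈ ends C, ((itr C R).card : ℝ) := by
      rw [← h3']; ring
    linarith
  exact_mod_cast h7

end

end Pool.Agent.U656.RG
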