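import Mathlib
import Pool.Agent.U656.RG.Low

/-!
# Deleting edges from a highly connected graph
-/

set_option autoImplicit false
set_option linter.unusedSectionVars false

namespace Pool.Agent.U656.RG

open Matrix Finset Pool.Agent.H283R2.DR Pool.Agent.H789R5 Pool.Agent.N423.DE

/-- the counting lemma: costs `cost i ≤ δ i - s` -/
theorem sum_cost {ι : Type*} [DecidableEq ι] (I : Finset ι) (cost δ : ι → ℕ) (s f : ℕ)
    (h1 : ∀ i ∈ I, cost i ≤ δ i - s) (h2 : ∀ i ∈ I, δ i ≤ f) (h3 : ∑ i ∈ I, δ i ≤ 2 * f) :
    ∑ i ∈ I, cost i ≤ 2 * (f - s) := by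
  set J := I.filter fun i => 0 < cost i with hJ
  have hIJ : ∑ i ∈ I, cost i = ∑ i ∈ J, cost i := by
    rw [hJ, sum_filter]
    refine sum_congr rfl fun i _ => ?_
    split_ifs with h
    · rfl
    · omega
  have hJI : J ⊆ I := filter_subset _ _
  rw [hIJ]
  rcases Nat.lt_or_ge J.card 2 with hc | hc
  · rcases Nat.lt_or_ge J.card 1 with h0 | h0
    · have : J = ∅ := card_eq_zero.1 (by omega)
      rw [this, sum_empty]
      exact Nat.zero_le _
    · obtain ⟨j, hj⟩ := card_eq_one.1 (show J.card = 1 by omega)
      have hjI : j ∈ I := hJI (by rw [hj]; exact mem_singleton_self j)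
      rw [hj, sum_singleton]
      have := h1 j hjI
      have := h2 j hjI
      omega
  · have h4 : ∑ i ∈ J, (cost i + s) ≤ ∑ i ∈ J, δ i := by
      refine sum_le_sum fun i hi => ?_
      have h5 := h1 i (hJI hi)
      have h6 : 0 < cost i := (mem_filter.1 hi).2
      omega
    rw [sum_add_distrib, sum_const, smul_eq_mul] at h4
    have h5 : ∑ i ∈ J, δ i ≤ ∑ i ∈ I, δ i := sum_le_sum_of_subset hJI
    have h6 : 2 * s ≤ J.card * s := Nat.mul_le_mul_right s hc
    omega

/-- the other counting lemma -/
theorem sum_cost' {ι : Type*} (I : Finset ι) (cost δ : ι → ℕ) (s f D : ℕ)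
    (h1 : ∀ i ∈ I, cost i ≤ δ i - s) (h2 : ∀ i ∈ I, cost i ≤ D) (h3 : ∑ i ∈ I, δ i ≤ 2 * f) :
    (s + D) * ∑ i ∈ I, cost i ≤ 2 * (f * D) := by
  calc (s + D) * ∑ i ∈ I, cost i = ∑ i ∈ I, (s + D) * cost i := by rw [mul_sum]
    _ ≤ ∑ i ∈ I, D * δ i := by
        refine sum_le_sum fun i hi => ?_
        have h4 := h1 i hi
        have h5 := h2 i hi
        rcases Nat.eq_zero_or_pos (cost i) with h6 | h6
        · rw [h6]; exact Nat.zero_le _
        · have h7 : s + cost i ≤ δ i := by omega
          calc (s + D) * cost i = s * cost i + D * cost i := by ring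
            _ ≤ s * D + D * cost i := Nat.add_le_add_right (Nat.mul_le_mul_left _ h5) _
            _ = D * (s + cost i) := by ring
            _ ≤ D * δ i := Nat.mul_le_mul_left _ h7
    _ = D * ∑ i ∈ I, δ i := by rw [mul_sum]
    _ ≤ D * (2 * f) := Nat.mul_le_mul_left _ h3
    _ = 2 * (f * D) := by ring

variable {V : Type} [Fintype V] [DecidableEq V] {d : ℕ}

/-- the directed edges of a set of edges -/
def darts (F : Finset (Sym2 V)) : Finset (V × V) :=
  univ.filter fun q : V × V => s(q.1, q.2) ∈ F

theorem mem_darts {F : Finset (Sym2 V)} {q : V × V} : q ∈ darts F ↔ s(q.1, q.2) ∈ F := by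
  unfold darts
  rw [mem_filter]
  simp

theorem card_darts (F : Finset (Sym2 V)) : (darts F).card ≤ 2 * F.card := by
  have h1 := card_le_mul_card_image (f := fun q : V × V => s(q.1, q.2)) (darts F) 2 ?_
  · refine h1.trans (Nat.mul_le_mul_left _ (card_le_card ?_))
    intro e he
    obtain ⟨q, hq, rfl⟩ := mem_image.1 he
    exact mem_darts.1 hq
  · intro e _
    induction e using Sym2.ind with
    | _ x y =>
      refine (card_le_card (t := {(x, y), (y, x)}) ?_).trans card_le_two
      rintro ⟨a, b⟩ hq
      have h := (mem_filter.1 hq).2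
      simp only at h
      rw [mem_insert, mem_singleton]
      rcases Sym2.eq_iff.1 h with ⟨rfl, rfl⟩ | ⟨rfl, rfl⟩
      · exact Or.inl rfl
      · exact Or.inr rfl

/-- the neighbours of a set -/
noncomputable def nbs (G : SimpleGraph V) (A : Finset V) : Finset V :=
  (A.biUnion fun a => nb G a) \ A

theorem mem_nbs {G : SimpleGraph V} {A : Finset V} {w : V} :
    w ∈ nbs G A ↔ w ∉ A ∧ ∃ a ∈ A, G.Adj a w := by
  unfold nbs
  rw [mem_sdiff, mem_biUnion]
  constructor
  · rintro ⟨⟨a, ha, h⟩, h'⟩
    exact ⟨h', a, ha, mem_nb.1 h⟩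
  · rintro ⟨h', a, ha, h⟩
    exact ⟨⟨a, ha, mem_nb.2 h⟩, h'⟩

/-- more than `c` vertices, and each set which does not reach everything has at least `c`
neighbours -/
def Con (c : ℕ) (G : SimpleGraph V) : Prop :=
  c < Fintype.card V ∧ ∀ A : Finset V, A.Nonempty → (∃ v, v ∉ A ∧ v ∉ nbs G A) → c ≤ (nbs G A).card

theorem Con.deg {c : ℕ} {G : SimpleGraph V} (h : Con c G) (v : V) : c ≤ (nb G v).card := by
  have e : nbs G {v} = nb G v := by
    ext w
    rw [mem_nbs, mem_nb, mem_singleton]
    constructor
    · rintro ⟨-, a, ha, h⟩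
      rw [mem_singleton] at ha
      rwa [ha] at h
    · intro h
      exact ⟨h.ne', v, mem_singleton_self v, h⟩
  by_cases hx : ∃ w, w ∉ ({v} : Finset V) ∧ w ∉ nbs G {v}
  · rw [← e]
    exact h.2 {v} ⟨v, mem_singleton_self v⟩ hx
  · push Not at hx
    have h1 : (univ : Finset V).erase v ⊆ nb G v := by
      intro w hw
      rw [← e]
      exact hx w (by rw [mem_singleton]; exact (mem_erase.1 hw).1)
    have h2 := card_le_card h1
    rw [card_erase_of_mem (mem_univ v), card_univ] at h2
    have := h.1
    omega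

/-- **The rank after the deletion of edges.** -/
theorem mo_delete {p : V → Fin d → ℝ} (hp : MG p) (hd : 1 ≤ d) {c : ℕ} {G : SimpleGraph V}
    (hc : d * (d + 1) ≤ c) (hG : Con c G) (F : Finset (Sym2 V)) :
    mo (G.deleteEdges (F : Set (Sym2 V))) p ≤
      max (d * (d + 1) / 2) (min (F.card - (c - d * (d + 1))) (F.card * (d * (d + 1)) / c)) := by
  set G' := G.deleteEdges (F : Set (Sym2 V)) with hG'
  set C := cl G' p with hCdef
  have hC : Closed C p := closed_cl G' p
  have hGC : G' ≤ C := le_cl G' p
  have hmoC : mo C p = mo G' p := mo_cl G' p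
  have hn : d ≤ Fintype.card V := by
    have := hG.1
    nlinarith
  by_cases hall : ∃ R ∈ ends C, ∀ v, v ∈ R
  · obtain ⟨R, hR, hall⟩ := hall
    refine le_max_of_le_left ?_
    rw [← genRigid_iff hp hn]
    refine rigid_of_complete hp hn ?_
    intro x y hxy
    exact ends_clique hR x (hall x) y (hall y) hxy
  push Not at hall
  refine le_max_of_le_right ?_
  -- a missing edge is in `F`
  have hmiss : ∀ a b, G.Adj a b → ¬ C.Adj a b → s(a, b) ∈ F := by
    intro a b hab hnot
    by_contra hF
    apply hnot
    apply hGC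
    rw [hG', SimpleGraph.deleteEdges_adj]
    exact ⟨hab, fun h => hF (mem_coe.1 h)⟩
  -- the darts at the end cliques
  set δR : Finset V → Finset (V × V) := fun R =>
    (darts F).filter fun q => q.1 ∈ itr C R ∧ q.2 ∉ R with hδR
  set δv : V → Finset (V × V) := fun v => (darts F).filter fun q => q.1 = v with hδv
  have hcR : ∀ R ∈ ends C, c ≤ (bd C R).card + (δR R).card := by
    intro R hR
    obtain ⟨u, hu, huR⟩ := mem_ends.1 hR
    have huI : u ∈ itr C R := mem_itr.2 ⟨by rw [← huR]; exact mem_cN.2 (Or.inl rfl), hu⟩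
    set A := itr C R with hA
    have hAne : A.Nonempty := ⟨u, huI⟩
    have hsplit : ∀ w ∈ nbs G A, w ∈ bd C R ∨ (w ∉ R ∧ ∃ a ∈ A, G.Adj a w) := by
      intro w hw
      rw [mem_nbs] at hw
      obtain ⟨h1, a, ha, haw⟩ := hw
      by_cases hwR : w ∈ R
      · left
        rw [mem_bd]
        exact ⟨hwR, fun h2 => h1 (mem_itr.2 ⟨hwR, h2⟩)⟩
      · exact Or.inr ⟨hwR, a, ha, haw⟩
    have hdart : ∀ a ∈ A, ∀ w, w ∉ R → G.Adj a w → (a, w) ∈ δR R := by
      intro a ha w hw haw
      rw [hδR, mem_filter, mem_darts]
      refine ⟨hmiss a w haw ?_, ha, hw⟩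
      intro h
      apply hw
      rw [← cN_of_itr hR ha]
      exact mem_cN.2 (Or.inr h)
    set X := (nbs G A).filter fun w => w ∉ R with hX
    have hXd : X ⊆ (δR R).image Prod.snd := by
      intro w hw
      rw [hX, mem_filter] at hw
      rcases hsplit w hw.1 with h | ⟨-, a, ha, haw⟩
      · exact absurd (mem_bd.1 h).1 hw.2
      · exact mem_image.2 ⟨(a, w), hdart a ha w hw.2 haw, rfl⟩
    have hXc : X.card ≤ (δR R).card := (card_le_card hXd).trans card_image_le
    by_cases hv : ∃ v, v ∉ A ∧ v ∉ nbs G A
    · have h1 := hG.2 A hAne hv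
      have h2 : nbs G A ⊆ bd C R ∪ X := by
        intro w hw
        rcases hsplit w hw with h | h
        · exact mem_union_left _ h
        · exact mem_union_right _ (mem_filter.2 ⟨hw, h.1⟩)
      have h3 := (card_le_card h2).trans (card_union_le _ _)
      omega
    · push Not at hv
      set Y := (univ : Finset V) \ R with hY
      have hYX : Y ⊆ X := by
        intro y hy
        rw [hY, mem_sdiff] at hy
        rw [hX, mem_filter]
        exact ⟨hv y (fun h => hy.2 (mem_itr.1 h).1), hy.2⟩
      have hY1 : 1 ≤ Y.card := by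
        obtain ⟨v, hv'⟩ := hall R hR
        exact card_pos.2 ⟨v, mem_sdiff.2 ⟨mem_univ _, hv'⟩⟩
      have hYd : Y.card ≤ (δR R).card := (card_le_card hYX).trans hXc
      by_cases hbig : c ≤ (bd C R).card + Y.card
      · omega
      push Not at hbig
      -- each vertex of `Y` has many neighbours in `A`
      have h1 : ∀ y ∈ Y, c + 1 - Y.card - (bd C R).card ≤ ((δR R).filter fun q => q.2 = y).card := by
        intro y hy
        have hyR : y ∉ R := (mem_sdiff.1 hy).2
        have h2 : nb G y ⊆ (Y.erase y ∪ bd C R) ∪ (nb G y ∩ A) := by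
          intro z hz
          by_cases hzR : z ∈ R
          · by_cases hzA : z ∈ A
            · exact mem_union_right _ (mem_inter.2 ⟨hz, hzA⟩)
            · refine mem_union_left _ (mem_union_right _ (mem_bd.2 ⟨hzR, fun h => ?_⟩))
              exact hzA (mem_itr.2 ⟨hzR, h⟩)
          · refine mem_union_left _ (mem_union_left _ (mem_erase.2 ⟨?_, ?_⟩))
            · exact (mem_nb.1 hz).ne'
            · exact mem_sdiff.2 ⟨mem_univ _, hzR⟩
        have h3 := (card_le_card h2).trans (card_union_le _ _)
        have h4 := card_union_le (Y.erase y) (bd C R)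
        rw [card_erase_of_mem hy] at h4
        have h5 := hG.deg y
        have h6 : (nb G y ∩ A).card ≤ ((δR R).filter fun q => q.2 = y).card := by
          refine card_le_card_of_injOn (fun a => (a, y)) ?_ ?_
          · intro a ha
            rw [mem_coe, mem_inter, mem_nb] at ha
            rw [mem_coe, mem_filter]
            exact ⟨hdart a ha.2 y hyR ha.1.symm, rfl⟩
          · intro a _ b _ hab
            exact (Prod.mk.inj hab).1
        omega
      have h2 : Y.card * (c + 1 - Y.card - (bd C R).card) ≤ (δR R).card := by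
        calc Y.card * (c + 1 - Y.card - (bd C R).card)
            = ∑ y ∈ Y, (c + 1 - Y.card - (bd C R).card) := by rw [sum_const, smul_eq_mul]
          _ ≤ ∑ y ∈ Y, ((δR R).filter fun q => q.2 = y).card := sum_le_sum h1
          _ = (Y.biUnion fun y => (δR R).filter fun q => q.2 = y).card := by
              rw [card_biUnion]
              intro y _ z _ hyz
              show Disjoint _ _
              rw [disjoint_left]
              intro q hq hq'
              exact hyz ((mem_filter.1 hq).2.symm.trans (mem_filter.1 hq').2)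
          _ ≤ (δR R).card := by
              refine card_le_card ?_
              intro q hq
              obtain ⟨y, -, hq⟩ := mem_biUnion.1 hq
              exact (mem_filter.1 hq).1
      obtain ⟨k, hk⟩ : ∃ k, c = (bd C R).card + Y.card + 1 + k := ⟨c - (bd C R).card - Y.card - 1,
        by omega⟩
      have e1 : c + 1 - Y.card - (bd C R).card = k + 2 := by omega
      rw [e1] at h2
      obtain ⟨y, hy⟩ : ∃ y, Y.card = y + 1 := ⟨Y.card - 1, by omega⟩
      rw [hy] at h2 hk
      have : (y + 1) * (k + 2) = y * k + 2 * y + k + 2 := by ring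
      have h3 : 0 ≤ y * k := Nat.zero_le _
      omega
  have hcv : ∀ v ∈ far C, c ≤ (nb C v).card + (δv v).card := by
    intro v _
    have h1 := hG.deg v
    have h2 : nb G v ⊆ nb C v ∪ (δv v).image Prod.snd := by
      intro w hw
      by_cases h : C.Adj v w
      · exact mem_union_left _ (mem_nb.2 h)
      · refine mem_union_right _ (mem_image.2 ⟨(v, w), ?_, rfl⟩)
        rw [hδv, mem_filter, mem_darts]
        exact ⟨hmiss v w (mem_nb.1 hw) h, rfl⟩
    have h3 := (card_le_card h2).trans (card_union_le _ _)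
    have h4 : ((δv v).image Prod.snd).card ≤ (δv v).card := card_image_le
    omega
  have hdef := defect' hp hd hC
  rw [hmoC] at hdef
  -- the family of all costs
  set I : Finset (Finset V ⊕ V) := (ends C).disjSum (far C) with hI
  set cost : Finset V ⊕ V → ℕ := Sum.elim (fun R => d * (d + 1) - (bd C R).card)
    (fun v => d * (d + 1) - (nb C v).card) with hcost
  set δ : Finset V ⊕ V → Finset (V × V) := Sum.elim δR δv with hδ
  have hsum : ∑ i ∈ I, cost i = ∑ R ∈ ends C, (d * (d + 1) - (bd C R).card) +
      ∑ v ∈ far C, (d * (d + 1) - (nb C v).card) := by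
    rw [hI, sum_disjSum]
    rfl
  have hinj : ∀ i ∈ I, (δ i).card ≤ F.card := by
    intro i hi
    refine card_le_card_of_injOn (fun q : V × V => s(q.1, q.2)) ?_ ?_
    · intro q hq
      rw [mem_coe] at hq ⊢
      rcases i with R | v
      · exact mem_darts.1 (mem_filter.1 hq).1
      · exact mem_darts.1 (mem_filter.1 hq).1
    · rintro ⟨a, b⟩ hq ⟨a', b'⟩ hq' h
      rw [mem_coe] at hq hq'
      simp only at h
      rcases Sym2.eq_iff.1 h with ⟨rfl, rfl⟩ | ⟨rfl, rfl⟩
      · rfl
      · rcases i with R | v
        · have h1 := (mem_filter.1 hq).2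
          have h2 := (mem_filter.1 hq').2
          exact absurd (mem_itr.1 h1.1).1 h2.2
        · have h1 := (mem_filter.1 hq).2
          have h2 := (mem_filter.1 hq').2
          simp only at h1 h2
          rw [h1, h2]
  have htot : ∑ i ∈ I, (δ i).card ≤ 2 * F.card := by
    rw [← card_biUnion]
    · refine (card_le_card ?_).trans (card_darts F)
      intro q hq
      obtain ⟨i, -, hq⟩ := mem_biUnion.1 hq
      rcases i with R | v
      · exact (mem_filter.1 hq).1
      · exact (mem_filter.1 hq).1
    · intro i hi j hj hij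
      show Disjoint (δ i) (δ j)
      rw [disjoint_left]
      intro q hq hq'
      apply hij
      rcases i with R | v <;> rcases j with R' | v'
      · have h1 := (mem_filter.1 hq).2
        have h2 := (mem_filter.1 hq').2
        have e1 := cN_of_itr (inl_mem_disjSum.1 hi) h1.1
        have e2 := cN_of_itr (inl_mem_disjSum.1 hj) h2.1
        rw [← e1, ← e2]
      · have h1 := (mem_filter.1 hq).2
        have h2 : q.1 = v' := (mem_filter.1 hq').2
        have h3 := mem_far.1 (inr_mem_disjSum.1 hj) R (inl_mem_disjSum.1 hi)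
        rw [← h2] at h3
        exact absurd (mem_itr.1 h1.1).1 h3
      · have h1 : q.1 = v := (mem_filter.1 hq).2
        have h2 := (mem_filter.1 hq').2
        have h3 := mem_far.1 (inr_mem_disjSum.1 hi) R' (inl_mem_disjSum.1 hj)
        rw [← h1] at h3
        exact absurd (mem_itr.1 h2.1).1 h3
      · have h1 : q.1 = v := (mem_filter.1 hq).2
        have h2 : q.1 = v' := (mem_filter.1 hq').2
        rw [← h1, ← h2]
  have hle : ∀ i ∈ I, cost i ≤ (δ i).card - (c - d * (d + 1)) := by
    intro i hi
    rcases i with R | v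
    · have h1 := hcR R (inl_mem_disjSum.1 hi)
      show d * (d + 1) - (bd C R).card ≤ (δR R).card - (c - d * (d + 1))
      omega
    · have h1 := hcv v (inr_mem_disjSum.1 hi)
      show d * (d + 1) - (nb C v).card ≤ (δv v).card - (c - d * (d + 1))
      omega
  have hfin := sum_cost I cost (fun i => (δ i).card) (c - d * (d + 1)) F.card hle hinj htot
  have hfin' := sum_cost' I cost (fun i => (δ i).card) (c - d * (d + 1)) F.card (d * (d + 1)) hle
    (by
      intro i _
      rcases i with R | v
      · exact Nat.sub_le _ _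
      · exact Nat.sub_le _ _) htot
  rw [hsum] at hfin hfin'
  have hcc : c - d * (d + 1) + d * (d + 1) = c := by omega
  rw [hcc] at hfin'
  refine le_min (by omega) ?_
  have hc0 : 0 < c := by
    have : 1 ≤ d * (d + 1) := Nat.one_le_iff_ne_zero.2 (by positivity)
    omega
  rw [Nat.le_div_iff_mul_le hc0]
  have h1 := Nat.mul_le_mul_left c hdef
  nlinarith

end Pool.Agent.U656.RG
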