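import Mathlib
import Pool.Agent.U656.RG.Del

/-!
# Vertex connectivity and the deletion of vertices and edges
-/

set_option autoImplicit false
set_option linter.unusedSectionVars false

namespace Pool.Agent.U656.RG

open Matrix Finset Pool.Agent.H283R2.DR Pool.Agent.H789R5 Pool.Agent.N423.DE

variable {V : Type} [Fintype V] [DecidableEq V] {d : ℕ}

theorem con_of_kconn {c : ℕ} {G : SimpleGraph V} (h1 : c < Fintype.card V)
    (h2 : ∀ X : Set V, X.ncard < c → (G.induce Xᶜ).Connected) : Con c G := by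
  refine ⟨h1, ?_⟩
  rintro A ⟨a, ha⟩ ⟨v, hvA, hvN⟩
  by_contra hc
  push Not at hc
  have h3 := h2 (nbs G A : Set V) (by rw [Set.ncard_coe_finset]; exact hc)
  have haN : a ∈ ((nbs G A : Set V))ᶜ := by
    intro h
    exact (mem_nbs.1 (mem_coe.1 h)).1 ha
  have hvN' : v ∈ ((nbs G A : Set V))ᶜ := fun h => hvN (mem_coe.1 h)
  obtain ⟨w⟩ := h3.preconnected ⟨a, haN⟩ ⟨v, hvN'⟩
  have key : ∀ {x y : ↥((nbs G A : Set V))ᶜ} (w : (G.induce ((nbs G A : Set V))ᶜ).Walk x y),
      x.1 ∈ A → y.1 ∈ A := by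
    intro x y w
    induction w with
    | nil => exact id
    | @cons u z y' h p ih =>
      intro hx
      apply ih
      by_contra hy
      exact z.2 (mem_coe.2 (mem_nbs.2 ⟨hy, u.1, hx, h⟩))
  exact hvA (key w ha)

theorem card_compl (U : Set V) [Fintype ↥Uᶜ] :
    Fintype.card ↥Uᶜ + U.ncard = Fintype.card V := by
  have h1 := Set.ncard_add_ncard_compl U
  rw [← Nat.card_coe_set_eq Uᶜ, Nat.card_eq_fintype_card, Nat.card_eq_fintype_card] at h1
  omega

theorem Con.del {c : ℕ} {G : SimpleGraph V} (h : Con c G) (U : Set V)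
    (hU : U.ncard ≤ c) [Fintype ↥Uᶜ] [DecidableEq ↥Uᶜ] :
    Con (c - U.ncard) (G.induce Uᶜ) := by
  have hcard := card_compl U
  refine ⟨by have := h.1; omega, ?_⟩
  rintro A ⟨a, ha⟩ ⟨v, hvA, hvN⟩
  set A' : Finset V := A.map ⟨Subtype.val, Subtype.val_injective⟩ with hA'
  have hmem : ∀ x : ↥Uᶜ, x.1 ∈ A' ↔ x ∈ A := by
    intro x
    rw [hA', mem_map]
    constructor
    · rintro ⟨y, hy, hyx⟩
      have : y = x := Subtype.ext hyx
      rwa [← this]
    · intro hx
      exact ⟨x, hx, rfl⟩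
  have hsub : nbs G A' ⊆ (nbs (G.induce Uᶜ) A).map ⟨Subtype.val, Subtype.val_injective⟩ ∪
      U.toFinite.toFinset := by
    intro w hw
    rw [mem_nbs] at hw
    obtain ⟨hwA, b, hb, hbw⟩ := hw
    rw [mem_union]
    by_cases hwU : w ∈ U
    · right
      rw [Set.Finite.mem_toFinset]
      exact hwU
    · left
      obtain ⟨b', hb', rfl⟩ := mem_map.1 hb
      refine mem_map.2 ⟨⟨w, hwU⟩, mem_nbs.2 ⟨?_, b', hb', hbw⟩, rfl⟩
      intro hc
      exact hwA ((hmem ⟨w, hwU⟩).2 hc)
  have h1 := (card_le_card hsub).trans (card_union_le _ _)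
  rw [card_map, ← Set.ncard_eq_toFinset_card U U.toFinite] at h1
  have h2 := h.2 A' ⟨a.1, (hmem a).2 ha⟩ ⟨v.1, fun hc => hvA ((hmem v).1 hc), ?_⟩
  · omega
  · intro hc
    rcases mem_union.1 (hsub hc) with h3 | h3
    · obtain ⟨y, hy, hyv⟩ := mem_map.1 h3
      have : y = v := Subtype.ext hyv
      exact hvN (this ▸ hy)
    · rw [Set.Finite.mem_toFinset] at h3
      exact v.2 h3

/-- the edges in the rest of the graph -/
noncomputable def pull (U : Set V) [Fintype ↥Uᶜ] (F : Set (Sym2 V)) : Finset (Sym2 ↥Uᶜ) := by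
  classical
  exact univ.filter fun e => e.map Subtype.val ∈ F

theorem card_pull (U : Set V) [Fintype ↥Uᶜ] (F : Set (Sym2 V)) : (pull U F).card ≤ F.ncard := by
  classical
  rw [← Set.ncard_coe_finset (pull U F)]
  refine Set.ncard_le_ncard_of_injOn (Sym2.map Subtype.val) ?_ ?_ (Set.toFinite _)
  · intro e he
    unfold pull at he
    rw [mem_coe, mem_filter] at he
    exact he.2
  · exact (Sym2.map.injective Subtype.val_injective).injOn

theorem pull_eq (G : SimpleGraph V) (U : Set V) [Fintype ↥Uᶜ] (F : Set (Sym2 V)) :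
    (G.deleteEdges F).induce Uᶜ = (G.induce Uᶜ).deleteEdges (pull U F : Set (Sym2 ↥Uᶜ)) := by
  classical
  ext x y
  rw [SimpleGraph.comap_adj, SimpleGraph.deleteEdges_adj, SimpleGraph.deleteEdges_adj,
    SimpleGraph.comap_adj]
  unfold pull
  rw [mem_coe, mem_filter]
  simp

/-- **The rank after the deletion of vertices and edges.** -/
theorem mo_delete' (hd : 1 ≤ d) {c : ℕ} {G : SimpleGraph V} (hG : Con c G) (U : Set V)
    (F : Set (Sym2 V)) (hU : U.ncard + d * (d + 1) ≤ c) [Fintype ↥Uᶜ]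
    {p : ↥Uᶜ → Fin d → ℝ} (hp : MG p) :
    mo ((G.deleteEdges F).induce Uᶜ) p ≤ max (d * (d + 1) / 2)
      (min (F.ncard + (U.ncard + d * (d + 1)) - c) (F.ncard * (d * (d + 1)) / (c - U.ncard))) := by
  classical
  rw [pull_eq]
  have h1 := mo_delete hp hd (c := c - U.ncard) (by omega) (hG.del U (by omega)) (pull U F)
  have h2 := card_pull U F
  refine h1.trans (max_le_max le_rfl (min_le_min (by omega) ?_))
  exact Nat.div_le_div_right (Nat.mul_le_mul_right _ h2)

end Pool.Agent.U656.RG
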