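import Mathlib
import Pool.Agent.U656.RG.Aut

/-!
# Two complete graphs joined by disjoint edges
-/

set_option autoImplicit false
set_option linter.unusedSectionVars false

namespace Pool.Agent.U656.RG

open Matrix Finset Pool.Agent.H283R2.DR Pool.Agent.H789R5 Pool.Agent.N423.DE

/-- two complete graphs with `c + 1` vertices each, joined by `c` disjoint edges -/
def twin (c : ℕ) : SimpleGraph (Bool × Fin (c + 1)) where
  Adj u v := (u.1 = v.1 ∧ u.2 ≠ v.2) ∨ (u.1 ≠ v.1 ∧ u.2 = v.2 ∧ u.2.1 < c)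
  symm := by
    refine ⟨?_⟩
    rintro ⟨s, i⟩ ⟨t, j⟩ (⟨h1, h2⟩ | ⟨h1, h2, h3⟩)
    · exact Or.inl ⟨h1.symm, h2.symm⟩
    · refine Or.inr ⟨Ne.symm h1, h2.symm, ?_⟩
      simp only at h2 h3 ⊢
      rw [← h2]
      exact h3
  loopless := by
    refine ⟨?_⟩
    rintro ⟨s, i⟩ (⟨-, h2⟩ | ⟨h1, -, -⟩)
    · exact h2 rfl
    · exact h1 rfl

theorem fin_range_card (c lo hi : ℕ) :
    {i : Fin (c + 1) | lo ≤ i.1 ∧ i.1 < hi}.ncard ≤ hi - lo := by
  rw [← Nat.card_Ico, ← Set.ncard_coe_finset]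
  refine Set.ncard_le_ncard_of_injOn Fin.val ?_ Fin.val_injective.injOn (Set.toFinite _)
  intro i hi
  rw [mem_coe, mem_Ico]
  exact hi

theorem twin_conn (c : ℕ) : c < Nat.card (Bool × Fin (c + 1)) ∧
    ∀ X : Set (Bool × Fin (c + 1)), X.ncard < c → ((twin c).induce Xᶜ).Connected := by
  refine ⟨?_, ?_⟩
  · rw [Nat.card_eq_fintype_card, Fintype.card_prod, Fintype.card_bool, Fintype.card_fin]
    omega
  intro X hX
  obtain ⟨i, hic, hi⟩ : ∃ i : Fin (c + 1), i.1 < c ∧ ∀ s, (s, i) ∉ X := by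
    by_contra hcon
    push Not at hcon
    have h1 : Fin.val '' (Prod.snd '' X) ⊇ ((Finset.range c : Finset ℕ) : Set ℕ) := by
      intro j hj
      rw [mem_coe, mem_range] at hj
      obtain ⟨s, hs⟩ := hcon ⟨j, by omega⟩ hj
      exact ⟨⟨j, by omega⟩, ⟨(s, ⟨j, by omega⟩), hs, rfl⟩, rfl⟩
    have h2 := Set.ncard_le_ncard h1 (Set.toFinite _)
    rw [Set.ncard_coe_finset, card_range] at h2
    have h3 := Set.ncard_image_le (s := Prod.snd '' X) (f := Fin.val) (Set.toFinite _)
    have h4 := Set.ncard_image_le (s := X) (f := Prod.snd) (Set.toFinite _)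
    omega
  have key : ∀ v : ↥Xᶜ, ((twin c).induce Xᶜ).Reachable v ⟨(false, i), hi false⟩ := by
    rintro ⟨⟨s, j⟩, hv⟩
    have h1 : ((twin c).induce Xᶜ).Reachable ⟨(s, j), hv⟩ ⟨(s, i), hi s⟩ := by
      by_cases hij : j = i
      · subst hij
        exact SimpleGraph.Reachable.refl _
      · exact SimpleGraph.Adj.reachable (Or.inl ⟨rfl, hij⟩)
    refine h1.trans ?_
    by_cases hs : s = false
    · subst hs
      exact SimpleGraph.Reachable.refl _
    · exact SimpleGraph.Adj.reachable (Or.inr ⟨hs, rfl, hic⟩)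
  haveI : Nonempty ↥Xᶜ := ⟨⟨(false, i), hi false⟩⟩
  exact ⟨fun u v => (key u).trans (key v).symm⟩

/-- the deleted vertices -/
def twinU (c a : ℕ) : Set (Bool × Fin (c + 1)) := {v | v.1 = false ∧ v.2.1 < a}

/-- cross edges -/
def crossing (c lo hi : ℕ) : Set (Sym2 (Bool × Fin (c + 1))) :=
  (fun i : Fin (c + 1) => s((false, i), (true, i))) '' {i | lo ≤ i.1 ∧ i.1 < hi}

theorem crossing_card (c lo hi : ℕ) : (crossing c lo hi).ncard ≤ hi - lo :=
  (Set.ncard_image_le (Set.toFinite _)).trans (fin_range_card c lo hi)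

theorem twinU_card (c a : ℕ) : (twinU c a).ncard ≤ a := by
  have h1 : twinU c a ⊆ (fun i : Fin (c + 1) => (false, i)) '' {i | 0 ≤ i.1 ∧ i.1 < a} := by
    rintro ⟨s, i⟩ ⟨h1, h2⟩
    simp only at h1 h2
    subst h1
    exact ⟨i, ⟨Nat.zero_le _, h2⟩, rfl⟩
  exact (Set.ncard_le_ncard h1 (Set.toFinite _)).trans
    ((Set.ncard_image_le (Set.toFinite _)).trans (fin_range_card c 0 a))

/-- **Sharpness for edge deletions.** -/
theorem twin_not_rigid {d a c : ℕ} (hd : 1 ≤ d) (hac : a + d * (d + 1) ≤ c) :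
    ¬ GenRigid d (((twin c).deleteEdges (crossing c a (c + 1 - d * (d + 1) / 2))).induce
      (twinU c a)ᶜ) := by
  classical
  set U := twinU c a with hU
  set k := c + 1 - d * (d + 1) / 2 with hk
  set H := ((twin c).deleteEdges (crossing c a k)).induce Uᶜ with hH
  have heven : 2 * (d * (d + 1) / 2) = d * (d + 1) :=
    Nat.mul_div_cancel' (Nat.even_mul_succ_self d).two_dvd
  have hD2 : 2 ≤ d * (d + 1) := by nlinarith
  have hdD : d ≤ d * (d + 1) := by nlinarith
  -- the big blocks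
  have hblk : ∀ s : Bool, ∃ S : Finset ↥Uᶜ, d ≤ S.card ∧ ∀ v ∈ S, v.1.1 = s := by
    intro s
    have hmem : ∀ j : Fin (d * (d + 1)), ((s, ⟨a + j.1, by omega⟩) : Bool × Fin (c + 1)) ∈ Uᶜ := by
      intro j hj
      have := hj.2
      simp only at this
      omega
    refine ⟨univ.image fun j : Fin (d * (d + 1)) => ⟨(s, ⟨a + j.1, by omega⟩), hmem j⟩, ?_, ?_⟩
    · rw [card_image_of_injective]
      · rw [card_univ, Fintype.card_fin]
        exact hdD
      · intro j j' hjj
        have h1 := Subtype.ext_iff.1 hjj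
        have h2 := (Prod.mk.inj h1).2
        have h3 := Fin.val_eq_of_eq h2
        simp only at h3
        exact Fin.ext (by omega)
    · intro v hv
      obtain ⟨j, -, rfl⟩ := mem_image.1 hv
      rfl
  have hn : d ≤ Fintype.card ↥Uᶜ := by
    obtain ⟨S, hS, -⟩ := hblk true
    exact hS.trans (card_le_univ S)
  obtain ⟨p, hp⟩ := exists_mg ↥Uᶜ d
  rw [genRigid_iff hp hn]
  let I : SimpleGraph ↥Uᶜ :=
    { Adj := fun u v => H.Adj u v ∧ u.1.1 = v.1.1
      symm := ⟨fun _ _ h => ⟨h.1.symm, h.2.symm⟩⟩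
      loopless := ⟨fun _ h => h.1.ne rfl⟩ }
  have h1 := blocks_le hp (G := I) (ι := Bool) (fun v => v.1.1) (fun _ _ h => h.2) hblk
  rw [Fintype.card_bool] at h1
  have h2 := mo_le_add (G := I) (G' := H) p
  have h3 : (H.edgeSet \ I.edgeSet).ncard ≤ c - k := by
    refine (Set.ncard_le_ncard_of_injOn (t := crossing c k c) (Sym2.map Subtype.val) ?_
      (Sym2.map.injective Subtype.val_injective).injOn (Set.toFinite _)).trans (crossing_card c k c)
    intro e he
    induction e using Sym2.ind with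
    | _ x y =>
      rw [Set.mem_sdiff, SimpleGraph.mem_edgeSet, SimpleGraph.mem_edgeSet] at he
      obtain ⟨hxy, hnI⟩ := he
      have hne : x.1.1 ≠ y.1.1 := fun h => hnI ⟨hxy, h⟩
      have hadj : ((twin c).deleteEdges (crossing c a k)).Adj x.1 y.1 := hxy
      rw [SimpleGraph.deleteEdges_adj] at hadj
      obtain ⟨had, hnF⟩ := hadj
      rcases had with ⟨h4, -⟩ | ⟨-, h5, h6⟩
      · exact absurd h4 hne
      show s(x.1, y.1) ∈ crossing c k c
      obtain ⟨⟨sx, ix⟩, hxU⟩ := x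
      obtain ⟨⟨sy, iy⟩, hyU⟩ := y
      simp only at h5 h6 hne hnF hxy hnI ⊢
      subst h5
      have hsym : (s(((sx, ix) : Bool × Fin (c + 1)), (sy, ix))) = s((false, ix), (true, ix)) := by
        cases sx <;> cases sy
        · exact absurd rfl hne
        · rfl
        · exact Sym2.eq_swap
        · exact absurd rfl hne
      rw [hsym] at hnF ⊢
      have ha : a ≤ ix.1 := by
        by_contra hc
        push Not at hc
        cases sx <;> cases sy
        · exact hne rfl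
        · exact hxU ⟨rfl, hc⟩
        · exact hyU ⟨rfl, hc⟩
        · exact hne rfl
      refine ⟨ix, ⟨?_, h6⟩, rfl⟩
      by_contra hc
      push Not at hc
      exact hnF ⟨ix, ⟨ha, hc⟩, rfl⟩
  omega

end Pool.Agent.U656.RG
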