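import Mathlib
import Pool.Agent.U656.RG.Defect
import Pool.Agent.U656.RG.FnB

/-!
# Graphs of minimum degree at least `3 d (d + 1) / 4 + 1`
-/

set_option autoImplicit false
set_option linter.unusedSectionVars false

namespace Pool.Agent.U656.RG

open Matrix Finset Pool.Agent.H283R2.DR Pool.Agent.H789R5 Pool.Agent.N423.DE

variable {V : Type} [Fintype V] [DecidableEq V] {d : ℕ}

/-- a clique whose outer vertices have fewer than `d` neighbours in it -/
def Mx (d : ℕ) (C : SimpleGraph V) (K : Finset V) : Prop :=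
  Cq C K ∧ ∀ y, y ∉ K → (nb C y ∩ K).card < d

theorem simp_mx {p : V → Fin d → ℝ} (hp : MG p) {C : SimpleGraph V} (hC : Closed C p) {v : V}
    (hv : Simp C v) : Mx d C (cN C v) := by
  refine ⟨cN_clique hv, fun y hy => ?_⟩
  by_contra hcon
  push Not at hcon
  have hyv : ¬ C.Adj v y := fun h => hy (mem_cN.2 (Or.inr h))
  have hne : v ≠ y := fun h => hy (mem_cN.2 (Or.inl h.symm))
  refine hyv (closed_common hp hC hcon ((cN_clique hv).subset inter_subset_right) hne ?_ ?_)
  · intro t ht
    rw [mem_inter, mem_nb, mem_cN] at ht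
    rcases ht.2 with rfl | h
    · exact absurd ht.1.symm hyv
    · exact h
  · intro t ht
    exact mem_nb.1 (mem_inter.1 ht).1

theorem mx_unique {C : SimpleGraph V} {K K' : Finset V} (hK : Mx d C K) (hK' : Mx d C K')
    (h : d ≤ (K ∩ K').card) : K = K' := by
  have key : ∀ {A B : Finset V}, Mx d C A → Mx d C B → d ≤ (A ∩ B).card → B ⊆ A := by
    intro A B hA hB hc y hy
    by_contra hyA
    have h1 := hA.2 y hyA
    have h2 : A ∩ B ⊆ nb C y ∩ A := by
      intro z hz
      rw [mem_inter] at hz ⊢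
      exact ⟨mem_nb.2 (hB.1 y hy z hz.2 (fun h => hyA (h ▸ hz.1))), hz.1⟩
    have h3 := card_le_card h2
    omega
  exact (key hK' hK (by rw [inter_comm]; exact h)).antisymm (key hK hK' h)

/-- an outer vertex, adjacent to all elements of a large part of a clique -/
theorem Mx.absurd {C : SimpleGraph V} {K S : Finset V} (hK : Mx d C K) {y : V} (hy : y ∉ K)
    (hS : S ⊆ K) (hc : d ≤ S.card) (h : ∀ s ∈ S, C.Adj y s) : False := by
  have h1 := hK.2 y hy
  have h2 : S ⊆ nb C y ∩ K := fun z hz => mem_inter.2 ⟨mem_nb.2 (h z hz), hS hz⟩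
  have h3 := card_le_card h2
  omega

open Classical in
/-- the vertices of low degree whose neighbours, but one, are pairwise adjacent -/
noncomputable def bads (C : SimpleGraph V) (M : ℕ) : Finset V :=
  (core C).filter fun z => (nb C z).card < M ∧ ∃ u ∈ nb C z, Cq C ((nb C z).erase u)

theorem mem_bads {C : SimpleGraph V} {M : ℕ} {z : V} :
    z ∈ bads C M ↔ ¬ Simp C z ∧ (nb C z).card < M ∧ ∃ u ∈ nb C z, Cq C ((nb C z).erase u) := by
  classical
  unfold bads
  rw [mem_filter, mem_core]

open Classical in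
/-- the outer neighbour -/
noncomputable def uu (C : SimpleGraph V) (z : V) : V :=
  if h : ∃ u ∈ nb C z, Cq C ((nb C z).erase u) then h.choose else z

/-- the clique of a vertex with an outer neighbour -/
noncomputable def Kc (C : SimpleGraph V) (z : V) : Finset V := (cN C z).erase (uu C z)

theorem uu_spec {C : SimpleGraph V} {M : ℕ} {z : V} (hz : z ∈ bads C M) :
    uu C z ∈ nb C z ∧ Cq C ((nb C z).erase (uu C z)) := by
  have h := (mem_bads.1 hz).2.2
  unfold uu
  rw [dif_pos h]
  exact h.choose_spec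

theorem mem_Kc {C : SimpleGraph V} {M : ℕ} {z : V} (hz : z ∈ bads C M) : z ∈ Kc C z := by
  refine mem_erase.2 ⟨?_, mem_cN.2 (Or.inl rfl)⟩
  intro h
  have h1 := (uu_spec hz).1
  rw [← h] at h1
  exact not_mem_nb C z h1

theorem card_Kc {C : SimpleGraph V} {M : ℕ} {z : V} (hz : z ∈ bads C M) :
    (Kc C z).card = (nb C z).card := by
  unfold Kc
  rw [card_erase_of_mem (mem_cN.2 (Or.inr (mem_nb.1 (uu_spec hz).1)))]
  unfold cN
  rw [card_insert_of_notMem (not_mem_nb C z)]
  rfl

theorem Kc_erase {C : SimpleGraph V} {M : ℕ} {z : V} (hz : z ∈ bads C M) :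
    (Kc C z).erase z = (nb C z).erase (uu C z) := by
  ext y
  unfold Kc
  rw [mem_erase, mem_erase, mem_erase, mem_cN, mem_nb]
  constructor
  · rintro ⟨h1, h2, h3⟩
    exact ⟨h2, h3.resolve_left h1⟩
  · rintro ⟨h1, h2⟩
    exact ⟨h2.ne', h1, Or.inr h2⟩

theorem Kc_clique {C : SimpleGraph V} {M : ℕ} {z : V} (hz : z ∈ bads C M) : Cq C (Kc C z) := by
  have h := (uu_spec hz).2
  rw [← Kc_erase hz] at h
  have hadj : ∀ a ∈ (Kc C z).erase z, C.Adj z a := by
    intro a ha
    rw [Kc_erase hz] at ha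
    exact mem_nb.1 (mem_of_mem_erase ha)
  intro a ha b hb hab
  by_cases h1 : a = z
  · rw [h1]
    exact hadj b (mem_erase.2 ⟨fun h => hab (h1.trans h.symm), hb⟩)
  · by_cases h2 : b = z
    · rw [h2]
      exact (hadj a (mem_erase.2 ⟨h1, ha⟩)).symm
    · exact h a (mem_erase.2 ⟨h1, ha⟩) b (mem_erase.2 ⟨h2, hb⟩) hab

theorem bad_mx {p : V → Fin d → ℝ} (hp : MG p) {C : SimpleGraph V} (hC : Closed C p) {M : ℕ}
    {z : V} (hz : z ∈ bads C M) : Mx d C (Kc C z) := by
  refine ⟨Kc_clique hz, fun y hy => ?_⟩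
  by_contra hcon
  push Not at hcon
  set S := nb C y ∩ Kc C z with hS
  have hSc : Cq C S := (Kc_clique hz).subset inter_subset_right
  have hyS : ∀ t ∈ S, C.Adj y t := fun t ht => mem_nb.1 (mem_inter.1 ht).1
  by_cases h1 : y ∈ cN C z
  · have hyu : y = uu C z := by
      by_contra h
      exact hy (mem_erase.2 ⟨h, h1⟩)
    -- the outer neighbour is adjacent to the whole clique
    have h2 : ∀ a ∈ Kc C z, C.Adj y a := by
      intro a ha
      by_cases haS : a ∈ S
      · exact hyS a haS
      · have hya : y ≠ a := fun h => hy (h ▸ ha)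
        refine closed_common hp hC hcon hSc hya hyS fun t ht => ?_
        exact (Kc_clique hz) a ha t (mem_inter.1 ht).2 (fun h => haS (h ▸ ht))
    apply (mem_bads.1 hz).1
    intro a ha b hb hab
    have hmem : ∀ c ∈ nb C z, c ≠ y → c ∈ Kc C z := by
      intro c hc hcy
      exact mem_erase.2 ⟨fun h => hcy (h.trans hyu.symm), mem_cN.2 (Or.inr (mem_nb.1 hc))⟩
    by_cases h3 : a = y
    · rw [h3]
      exact h2 b (hmem b hb (fun h => hab (h3.trans h.symm)))
    · by_cases h4 : b = y
      · rw [h4]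
        exact (h2 a (hmem a ha h3)).symm
      · exact Kc_clique hz a (hmem a ha h3) b (hmem b hb h4) hab
  · have hyz : ¬ C.Adj z y := fun h => h1 (mem_cN.2 (Or.inr h))
    have hne : z ≠ y := fun h => h1 (mem_cN.2 (Or.inl h.symm))
    refine hyz (closed_common hp hC hcon hSc hne (fun t ht => ?_) hyS)
    refine (Kc_clique hz) z (mem_Kc hz) t (mem_inter.1 ht).2 ?_
    rintro rfl
    exact hyz (hyS _ ht).symm

/-- the hypotheses on the closed graph -/
structure Ctx (C : SimpleGraph V) (p : V → Fin d → ℝ) : Prop where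
  hp : MG p
  hd : 1 ≤ d
  hC : Closed C p
  hdeg : ∀ v, 3 * (d * (d + 1)) + 4 ≤ 4 * (nb C v).card
  hpair : ∀ u v, u ≠ v → d * (d + 1) ≤ ((nb C u ∪ nb C v) \ {u, v}).card

namespace Ctx

variable {C : SimpleGraph V} {p : V → Fin d → ℝ}

theorem deg_gt (h : Ctx C p) (v : V) : d + 1 ≤ (nb C v).card := by
  have h1 := h.hdeg v
  have h2 := h.hd
  nlinarith

/-- the degree of a bad vertex -/
theorem bad_num (h : Ctx C p) {z : V} (hz : z ∈ bads C (d * (d + 1))) : d + 3 ≤ (nb C z).card := by
  have h1 := h.hdeg z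
  have h2 := (mem_bads.1 hz).2.1
  have h3 : 8 ≤ d * (d + 1) := by omega
  have h4 : 3 ≤ d := by
    by_contra hc
    have : d = 1 ∨ d = 2 := by have := h.hd; omega
    rcases this with rfl | rfl <;> omega
  nlinarith

/-- the pair of vertices `y`, `z` of a clique `K` with few outer neighbours -/
theorem pair_card (h : Ctx C p) {K : Finset V} {y z : V} (hy : y ∈ K) (hz : z ∈ K) (hyz : y ≠ z)
    {O : Finset V} (hO : (nb C y ∪ nb C z) ⊆ K ∪ O) : d * (d + 1) + 2 ≤ K.card + O.card := by
  have h1 := h.hpair y z hyz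
  have h2 : (nb C y ∪ nb C z) \ {y, z} ⊆ (K \ {y, z}) ∪ O := by
    intro a ha
    obtain ⟨h3, h4⟩ := mem_sdiff.1 ha
    rcases mem_union.1 (hO h3) with h5 | h5
    · exact mem_union_left _ (mem_sdiff.2 ⟨h5, h4⟩)
    · exact mem_union_right _ h5
  have h3 := (card_le_card h2).trans (card_union_le _ _)
  have h4 : (K \ {y, z}).card + 2 = K.card := by
    have h5 : ({y, z} : Finset V) ⊆ K := by
      intro a ha
      rw [mem_insert, mem_singleton] at ha
      rcases ha with rfl | rfl <;> assumption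
    have h6 := card_sdiff_add_card_eq_card h5
    rw [card_pair hyz] at h6
    exact h6
  omega

/-- a bad vertex is the only simplicial or bad vertex of its clique -/
theorem bad_unique (h : Ctx C p) {z : V} (hz : z ∈ bads C (d * (d + 1))) {y : V} (hy : y ∈ Kc C z)
    (hyz : y ≠ z) : ¬ Simp C y ∧ y ∉ bads C (d * (d + 1)) := by
  have hKz := bad_mx h.hp h.hC hz
  have hcard := card_Kc hz
  have hlt := (mem_bads.1 hz).2.1
  have hnum := h.bad_num hz
  have hnbz : nb C z ⊆ insert (uu C z) (Kc C z) := by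
    intro a ha
    rw [mem_insert]
    by_cases hau : a = uu C z
    · exact Or.inl hau
    · exact Or.inr (mem_erase.2 ⟨hau, mem_cN.2 (Or.inr (mem_nb.1 ha))⟩)
  have key : ∀ u', nb C y ⊆ insert u' (Kc C z) → False := by
    intro u' hu'
    have h1 := h.pair_card hy (mem_Kc hz) hyz (O := {u', uu C z}) (by
      intro a ha
      rcases mem_union.1 ha with ha | ha
      · rcases mem_insert.1 (hu' ha) with h2 | h2
        · rw [h2]; exact mem_union_right _ (mem_insert_self _ _)
        · exact mem_union_left _ h2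
      · rcases mem_insert.1 (hnbz ha) with h2 | h2
        · rw [h2]; exact mem_union_right _ (mem_insert_of_mem (mem_singleton_self _))
        · exact mem_union_left _ h2)
    have h2 : ({u', uu C z} : Finset V).card ≤ 2 := card_le_two
    omega
  refine ⟨fun hs => ?_, fun hb => ?_⟩
  · have h1 : Kc C z ⊆ cN C y := by
      intro a ha
      by_cases hay : a = y
      · rw [hay]; exact mem_cN.2 (Or.inl rfl)
      · exact mem_cN.2 (Or.inr (Kc_clique hz y hy a ha (Ne.symm hay)))
    have h2 : Kc C z = cN C y := by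
      apply mx_unique hKz (simp_mx h.hp h.hC hs)
      rw [inter_eq_left.2 h1]
      omega
    apply key y
    intro a ha
    rw [h2]
    exact mem_insert_of_mem (mem_cN.2 (Or.inr (mem_nb.1 ha)))
  · have h1 : (Kc C z).erase (uu C y) ⊆ Kc C z ∩ Kc C y := by
      intro a ha
      obtain ⟨h2, h3⟩ := mem_erase.1 ha
      refine mem_inter.2 ⟨h3, mem_erase.2 ⟨h2, ?_⟩⟩
      by_cases hay : a = y
      · rw [hay]; exact mem_cN.2 (Or.inl rfl)
      · exact mem_cN.2 (Or.inr (Kc_clique hz y hy a h3 (Ne.symm hay)))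
    have h2 : Kc C z = Kc C y := by
      apply mx_unique hKz (bad_mx h.hp h.hC hb)
      have h3 := card_le_card h1
      have h4 := pred_card_le_card_erase (s := Kc C z) (a := uu C y)
      omega
    apply key (uu C y)
    intro a ha
    rw [mem_insert, h2]
    by_cases hau : a = uu C y
    · exact Or.inl hau
    · exact Or.inr (mem_erase.2 ⟨hau, mem_cN.2 (Or.inr (mem_nb.1 ha))⟩)

/-- there are no bad vertices in an end clique -/
theorem bad_not_end (h : Ctx C p) {z : V} (hz : z ∈ bads C (d * (d + 1))) {R : Finset V}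
    (hR : R ∈ ends C) : z ∉ R := by
  intro hzR
  obtain ⟨v, hv, rfl⟩ := mem_ends.1 hR
  have hvz : v ≠ z := by
    rintro rfl
    exact (mem_bads.1 hz).1 hv
  have hnum := h.bad_num hz
  have h1 : (cN C v).erase (uu C z) ⊆ cN C v ∩ Kc C z := by
    intro a ha
    obtain ⟨h2, h3⟩ := mem_erase.1 ha
    refine mem_inter.2 ⟨h3, mem_erase.2 ⟨h2, ?_⟩⟩
    by_cases haz : a = z
    · rw [haz]; exact mem_cN.2 (Or.inl rfl)
    · exact mem_cN.2 (Or.inr (cN_clique hv z hzR a h3 (Ne.symm haz)))
  have h2 : cN C v = Kc C z := by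
    apply mx_unique (simp_mx h.hp h.hC hv) (bad_mx h.hp h.hC hz)
    have h3 := card_le_card h1
    have h4 := pred_card_le_card_erase (s := cN C v) (a := uu C z)
    have h5 : (cN C v).card = (nb C v).card + 1 := by
      unfold cN
      rw [card_insert_of_notMem (not_mem_nb C v)]
    have h6 := h.deg_gt v
    omega
  exact (h.bad_unique hz (h2 ▸ mem_cN.2 (Or.inl rfl)) hvz).1 hv

end Ctx

end Pool.Agent.U656.RG
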