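import Mathlib
import Pool.Agent.U656.RG.Ess

/-!
# The gains of the vertices which are neither simplicial nor bad
-/

set_option autoImplicit false
set_option linter.unusedSectionVars false

namespace Pool.Agent.U656.RG

open Matrix Finset Pool.Agent.H283R2.DR Pool.Agent.H789R5 Pool.Agent.N423.DE

variable {V : Type} [Fintype V] [DecidableEq V] {d : ℕ}

theorem fB_ge_Kf (hd : 1 ≤ d) (C : SimpleGraph V) (T : Finset V) : Kf d T.card ≤ fB C d T := by
  by_cases h : Cq C T
  · unfold fB
    rw [if_pos h]
  · exact (Kf_le_Af d _).trans (Af_le_fB hd h)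

theorem Kf_ge_sub {r t : ℕ} (hr : 1 ≤ r) (h : d * (d + 1) ≤ 2 * r * (t + 1)) (ht : d ≤ t + 1) :
    (d : ℝ) - r ≤ Kf d t := by
  rw [Kf_big ht]
  have h1 : ((d : ℝ) * (d + 1)) ≤ 2 * r * (t + 1) := by exact_mod_cast h
  have h2 : (d : ℝ) * (d + 1) / (2 * (t + 1)) ≤ r := by
    rw [div_le_iff₀ (by positivity)]
    linarith
  linarith

/-- the vertices which are neither simplicial nor bad -/
noncomputable def Wc (C : SimpleGraph V) (d : ℕ) : Finset V := core C \ bads C (d * (d + 1))

theorem mem_Wc {C : SimpleGraph V} {w : V} :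
    w ∈ Wc C d ↔ ¬ Simp C w ∧ w ∉ bads C (d * (d + 1)) := by
  unfold Wc
  rw [mem_sdiff, mem_core]

/-- the number of bad vertices with the outer neighbour `w` -/
noncomputable def rr (C : SimpleGraph V) (d : ℕ) (w : V) : ℕ :=
  ((bads C (d * (d + 1))).filter fun z => uu C z = w).card

/-- a clique with one simplicial or bad vertex -/
structure Sp (C : SimpleGraph V) (d : ℕ) (y : V) (K : Finset V) : Prop where
  mx : Mx d C K
  hy : y ∈ K
  her : K.erase y ⊆ Wc C d
  hcard : (nb C y).card ≤ K.card
  hcd : d + 2 ≤ K.card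
  hout : nb C y ⊆ K ∨ (K.card = (nb C y).card ∧ (nb C y).card < d * (d + 1) ∧
    nb C y ⊆ insert (uu C y) K)

namespace Ctx

variable {C : SimpleGraph V} {p : V → Fin d → ℝ}

theorem special (h : Ctx C p) {w y : V} (hadj : C.Adj w y) (hy : y ∉ Wc C d)
    (hu : ¬ (y ∈ bads C (d * (d + 1)) ∧ uu C y = w))
    (hs : Simp C y → (itr C (cN C y)).card < 2) : ∃ K, Sp C d y K ∧ w ∈ K := by
  by_cases hS : Simp C y
  · refine ⟨cN C y, ⟨simp_mx h.hp h.hC hS, mem_cN.2 (Or.inl rfl), ?_, ?_, ?_, Or.inl ?_⟩,
      mem_cN.2 (Or.inr hadj.symm)⟩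
    · intro a ha
      obtain ⟨h1, h2⟩ := mem_erase.1 ha
      rw [mem_Wc]
      refine ⟨fun hsa => ?_, fun hb => h.bad_not_end hb (mem_ends.2 ⟨y, hS, rfl⟩) h2⟩
      have h3 := hs hS
      have h4 : 1 < (itr C (cN C y)).card :=
        one_lt_card.2 ⟨a, mem_itr.2 ⟨h2, hsa⟩, y, mem_itr.2 ⟨mem_cN.2 (Or.inl rfl), hS⟩, h1⟩
      omega
    · unfold cN
      rw [card_insert_of_notMem (not_mem_nb C y)]
      omega
    · unfold cN
      rw [card_insert_of_notMem (not_mem_nb C y)]
      have := h.deg_gt y
      omega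
    · intro a ha
      exact mem_cN.2 (Or.inr (mem_nb.1 ha))
  · have hb : y ∈ bads C (d * (d + 1)) := by
      by_contra hb
      exact hy (mem_Wc.2 ⟨hS, hb⟩)
    refine ⟨Kc C y, ⟨bad_mx h.hp h.hC hb, mem_Kc hb, ?_, (card_Kc hb).ge, ?_,
      Or.inr ⟨card_Kc hb, (mem_bads.1 hb).2.1, ?_⟩⟩, ?_⟩
    · intro a ha
      obtain ⟨h1, h2⟩ := mem_erase.1 ha
      rw [mem_Wc]
      exact h.bad_unique hb h2 h1
    · rw [card_Kc hb]
      have := h.bad_num hb
      omega
    · intro a ha
      rw [mem_insert]
      by_cases hau : a = uu C y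
      · exact Or.inl hau
      · exact Or.inr (mem_erase.2 ⟨hau, mem_cN.2 (Or.inr (mem_nb.1 ha))⟩)
    · exact mem_erase.2 ⟨fun hw => hu ⟨hb, hw.symm⟩, mem_cN.2 (Or.inr hadj.symm)⟩

/-- a vertex in the clique of a simplicial or bad vertex -/
theorem loc_sp (h : Ctx C p) {w : V} (hw : w ∈ Wc C d)
    (hs : ∀ R ∈ ends C, w ∈ R → (itr C R).card < 2) {y : V} {K : Finset V} (hK : Sp C d y K)
    (hwK : w ∈ K) (hwy : w ≠ y) : (d : ℝ) ≤ fB C d (nb C w ∩ Wc C d) + rr C d w := by
  set T := nb C w ∩ Wc C d with hT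
  set A := (K.erase y).erase w with hA
  have hAc : A.card + 2 = K.card := by
    rw [hA, card_erase_of_mem (mem_erase.2 ⟨hwy, hwK⟩), card_erase_of_mem hK.hy]
    have := hK.hcd
    omega
  have hAK : A ⊆ K := (erase_subset _ _).trans (erase_subset _ _)
  have hAT : A ⊆ T := by
    intro a ha
    obtain ⟨h1, h2⟩ := mem_erase.1 ha
    exact mem_inter.2 ⟨mem_nb.2 (hK.mx.1 w hwK a (hAK ha) (Ne.symm h1)), hK.her h2⟩
  have hdy := h.hdeg y
  have hcd := hK.hcd
  have hcard := hK.hcard
  have hd := h.hd
  -- a set with an outer element is no clique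
  have hncl : ∀ S : Finset V, S ⊆ nb C w → A ⊆ S → ∀ o ∈ S, o ∉ K → ¬ Cq C S := by
    intro S _ hAS o ho hoK hcl
    refine hK.mx.absurd hoK hAK (by omega) fun s hs => ?_
    exact hcl o ho s (hAS hs) (fun h => hoK (h ▸ hAK hs))
  rcases Nat.eq_zero_or_pos (rr C d w) with hr | hr
  · rw [hr, Nat.cast_zero, add_zero]
    have hr' : ∀ z, ¬ (z ∈ bads C (d * (d + 1)) ∧ uu C z = w) := by
      rintro z ⟨h1, h2⟩
      unfold rr at hr
      rw [card_eq_zero] at hr
      have h3 : z ∈ (bads C (d * (d + 1))).filter fun z => uu C z = w := mem_filter.2 ⟨h1, h2⟩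
      rw [hr] at h3
      exact notMem_empty _ h3
    set O := nb C w \ K with hO
    have hOne : O.Nonempty := by
      rw [nonempty_iff_ne_empty]
      intro h0
      rw [hO, sdiff_eq_empty_iff_subset] at h0
      exact (mem_Wc.1 hw).1 (hK.mx.1.subset h0)
    obtain ⟨o, ho⟩ := hOne
    by_cases hOW : O ⊆ Wc C d
    · have hsub : A ∪ O ⊆ T := by
        refine union_subset hAT fun a ha => ?_
        exact mem_inter.2 ⟨(mem_sdiff.1 ha).1, hOW ha⟩
      have hdis : Disjoint A O := by
        rw [disjoint_left]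
        intro a ha ha'
        exact (mem_sdiff.1 ha').2 (hAK ha)
      have hTc : A.card + O.card ≤ T.card := by
        rw [← card_union_of_disjoint hdis]
        exact card_le_card hsub
      have hoT : o ∈ T := hsub (mem_union_right _ ho)
      have hoK : o ∉ K := (mem_sdiff.1 ho).2
      have hTcl : ¬ Cq C T := hncl T inter_subset_left hAT o hoT hoK
      rcases hK.hout with hout | ⟨hKc, hlt, hout⟩
      · have h1 := h.pair_card hK.hy hwK (Ne.symm hwy) (O := O) (by
          intro a ha
          rcases mem_union.1 ha with ha | ha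
          · exact mem_union_left _ (hout ha)
          · by_cases haK : a ∈ K
            · exact mem_union_left _ haK
            · exact mem_union_right _ (mem_sdiff.2 ⟨ha, haK⟩))
        exact (Af_ge (by omega) hd).trans (Af_le_fB hd hTcl)
      · have h1 := h.pair_card hK.hy hwK (Ne.symm hwy) (O := insert (uu C y) O) (by
          intro a ha
          rcases mem_union.1 ha with ha | ha
          · rcases mem_insert.1 (hout ha) with h2 | h2
            · rw [h2]; exact mem_union_right _ (mem_insert_self _ _)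
            · exact mem_union_left _ h2
          · by_cases haK : a ∈ K
            · exact mem_union_left _ haK
            · exact mem_union_right _ (mem_insert_of_mem (mem_sdiff.2 ⟨ha, haK⟩)))
        have h2 := card_insert_le (uu C y) O
        have hy8 : d + 3 ≤ K.card := by
          have h3 : 8 ≤ d * (d + 1) := by omega
          have h4 : 3 ≤ d := by
            by_contra hc
            have : d = 1 ∨ d = 2 := by omega
            rcases this with rfl | rfl <;> omega
          nlinarith
        have hex : ¬ ∃ u ∈ T, Cq C (T.erase u) := by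
          rintro ⟨u, hu, hcl⟩
          have h3 : 1 < O.card := by omega
          obtain ⟨o', ho', hne⟩ : ∃ o' ∈ O, o' ≠ u := by
            obtain ⟨a, ha, b, hb, hab⟩ := one_lt_card.1 h3
            by_cases hau : a = u
            · exact ⟨b, hb, fun h => hab (hau.trans h.symm)⟩
            · exact ⟨a, ha, hau⟩
          have ho'K : o' ∉ K := (mem_sdiff.1 ho').2
          have ho'T : o' ∈ T := hsub (mem_union_right _ ho')
          have h4 := pred_card_le_card_erase (s := A) (a := u)
          refine hK.mx.absurd ho'K ((erase_subset u A).trans hAK) (by omega) fun s hs => ?_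
          obtain ⟨h5, h6⟩ := mem_erase.1 hs
          exact hcl o' (mem_erase.2 ⟨hne, ho'T⟩) s (mem_erase.2 ⟨h5, hAT h6⟩)
            (fun h => ho'K (h ▸ hAK h6))
        have h0 : fB C d T = Bf d T.card := by
          unfold fB
          rw [if_neg hTcl, if_neg hex]
        rw [h0]
        exact Bf_ge hd (by omega)
    · -- a second clique
      obtain ⟨o', ho', ho'W⟩ := not_subset.1 hOW
      have ho'K : o' ∉ K := (mem_sdiff.1 ho').2
      have hadj : C.Adj w o' := mem_nb.1 (mem_sdiff.1 ho').1
      obtain ⟨K', hK', hwK'⟩ := h.special hadj ho'W (hr' o') (fun hS =>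
        hs _ (mem_ends.2 ⟨o', hS, rfl⟩) (mem_cN.2 (Or.inr hadj.symm)))
      set B := (K'.erase o').erase w with hB
      have hBc : B.card + 2 = K'.card := by
        rw [hB, card_erase_of_mem (mem_erase.2 ⟨hadj.ne, hwK'⟩), card_erase_of_mem hK'.hy]
        have := hK'.hcd
        omega
      have hBK : B ⊆ K' := (erase_subset _ _).trans (erase_subset _ _)
      have hBT : B ⊆ T := by
        intro a ha
        obtain ⟨h1, h2⟩ := mem_erase.1 ha
        exact mem_inter.2 ⟨mem_nb.2 (hK'.mx.1 w hwK' a (hBK ha) (Ne.symm h1)), hK'.her h2⟩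
      have hint : (K ∩ K').card < d := by
        by_contra hc
        push Not at hc
        have := mx_unique hK.mx hK'.mx hc
        exact ho'K (this ▸ hK'.hy)
      have hAB : (A ∩ B).card + 1 ≤ (K ∩ K').card := by
        have h1 : insert w (A ∩ B) ⊆ K ∩ K' := by
          intro a ha
          rcases mem_insert.1 ha with rfl | ha
          · exact mem_inter.2 ⟨hwK, hwK'⟩
          · exact mem_inter.2 ⟨hAK (mem_inter.1 ha).1, hBK (mem_inter.1 ha).2⟩
        have h2 := card_le_card h1
        rwa [card_insert_of_notMem (fun h => (mem_erase.1 (mem_inter.1 h).1).1 rfl)] at h2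
      have hun := card_union_add_card_inter A B
      have hTc : (A ∪ B).card ≤ T.card := card_le_card (union_subset hAT hBT)
      have hdo := h.hdeg o'
      have hcd' := hK'.hcd
      have hcard' := hK'.hcard
      have hwB : w ∉ B := fun h => (mem_erase.1 h).1 rfl
      have hBne : ∃ b ∈ B, b ∉ K := by
        by_contra hc
        push Not at hc
        have h1 : insert w B ⊆ K ∩ K' := by
          intro a ha
          rcases mem_insert.1 ha with rfl | ha
          · exact mem_inter.2 ⟨hwK, hwK'⟩
          · exact mem_inter.2 ⟨hc a ha, hBK ha⟩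
        have h2 := card_le_card h1
        rw [card_insert_of_notMem hwB] at h2
        omega
      obtain ⟨b, hb, hbK⟩ := hBne
      have hTcl : ¬ Cq C T := hncl T inter_subset_left hAT b (hBT hb) hbK
      refine (Af_ge ?_ hd).trans (Af_le_fB hd hTcl)
      have hMd : 2 * d ≤ d * (d + 1) := by nlinarith
      omega
  · have h1 := fB_ge_Kf hd C T
    have hTc := card_le_card hAT
    have h2 : d * (d + 1) ≤ 2 * rr C d w * (T.card + 1) := by
      have h3 : d * (d + 1) ≤ 2 * (T.card + 1) := by omega
      nlinarith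
    have h3 := Kf_ge_sub hr h2 (by omega)
    linarith

/-- a vertex outside the end cliques with several simplicial vertices -/
theorem loc_beta (h : Ctx C p) {w : V} (hw : w ∈ Wc C d)
    (hs : ∀ R ∈ ends C, w ∈ R → (itr C R).card < 2) :
    (d : ℝ) ≤ fB C d (nb C w ∩ Wc C d) + rr C d w := by
  by_cases hsp : ∃ y K, Sp C d y K ∧ w ∈ K ∧ w ≠ y
  · obtain ⟨y, K, hK, hwK, hwy⟩ := hsp
    exact h.loc_sp hw hs hK hwK hwy
  have hd := h.hd
  have hdw := h.hdeg w
  set T := nb C w ∩ Wc C d with hT
  have hsub : nb C w \ T ⊆ (bads C (d * (d + 1))).filter fun z => uu C z = w := by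
    intro y hy
    obtain ⟨h1, h2⟩ := mem_sdiff.1 hy
    have hyW : y ∉ Wc C d := fun h3 => h2 (mem_inter.2 ⟨h1, h3⟩)
    by_contra hc
    apply hsp
    obtain ⟨K, hK, hwK⟩ := h.special (mem_nb.1 h1) hyW
      (fun h3 => hc (mem_filter.2 h3)) (fun hS =>
        hs _ (mem_ends.2 ⟨y, hS, rfl⟩) (mem_cN.2 (Or.inr (mem_nb.1 h1).symm)))
    exact ⟨y, K, hK, hwK, (mem_nb.1 h1).ne⟩
  have hcard : (nb C w).card ≤ T.card + rr C d w := by
    have h1 := card_le_card hsub
    have h2 := card_sdiff_add_card_eq_card (show T ⊆ nb C w from inter_subset_left)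
    unfold rr
    omega
  rcases Nat.eq_zero_or_pos (rr C d w) with hr | hr
  · rw [hr, Nat.cast_zero, add_zero]
    have hTe : T = nb C w := by
      apply eq_of_subset_of_card_le (show T ⊆ nb C w from inter_subset_left)
      omega
    rw [hTe]
    have h1 : ¬ Cq C (nb C w) := (mem_Wc.1 hw).1
    by_cases h2 : ∃ u ∈ nb C w, Cq C ((nb C w).erase u)
    · have h3 : d * (d + 1) ≤ (nb C w).card := by
        by_contra hc
        push Not at hc
        exact (mem_Wc.1 hw).2 (mem_bads.2 ⟨(mem_Wc.1 hw).1, hc, h2⟩)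
      exact (Af_ge h3 hd).trans (Af_le_fB hd h1)
    · have h0 : fB C d (nb C w) = Bf d (nb C w).card := by
        unfold fB
        rw [if_neg h1, if_neg h2]
      rw [h0]
      exact Bf_ge hd hdw
  · have h1 := fB_ge_Kf hd C T
    rcases Nat.lt_or_ge (rr C d w) d with hrd | hrd
    · obtain ⟨t, ht⟩ : ∃ t, (nb C w).card = t + rr C d w := by
        refine ⟨(nb C w).card - rr C d w, ?_⟩
        have := h.deg_gt w
        omega
      have htT : t ≤ T.card := by omega
      have h2 : d * (d + 1) ≤ 2 * rr C d w * (T.card + 1) := by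
        have h3 : rr C d w * (t + 1) ≤ rr C d w * (T.card + 1) :=
          Nat.mul_le_mul_left _ (by omega)
        have h4 : t + rr C d w ≤ rr C d w * (t + 1) := by
          obtain ⟨s, hs'⟩ : ∃ s, rr C d w = s + 1 := ⟨rr C d w - 1, by omega⟩
          rw [hs']
          nlinarith [Nat.zero_le (s * t)]
        have h5 : d * (d + 1) ≤ 2 * (nb C w).card := by omega
        nlinarith
      have h3 : d ≤ T.card + 1 := by
        have : 2 * d ≤ (nb C w).card + 2 := by nlinarith
        omega
      have h4 := Kf_ge_sub hr h2 h3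
      linarith
    · have h2 : (0 : ℝ) ≤ Kf d T.card := Kf_nonneg _
      have h3 : (d : ℝ) ≤ rr C d w := by exact_mod_cast hrd
      linarith

end Ctx

end Pool.Agent.U656.RG
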