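import Mathlib
import Pool.Agent.U656.RG.EssLocal

/-!
# The defect of graphs in which any two vertices have many neighbours
-/

set_option autoImplicit false
set_option linter.unusedSectionVars false

namespace Pool.Agent.U656.RG

open Matrix Finset Pool.Agent.H283R2.DR Pool.Agent.H789R5 Pool.Agent.N423.DE

variable {V : Type} [Fintype V] [DecidableEq V] {d : ℕ}

open Classical in
/-- the end cliques with several simplicial vertices -/
noncomputable def ends2 (C : SimpleGraph V) : Finset (Finset V) :=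
  (ends C).filter fun R => 2 ≤ (itr C R).card

theorem mem_ends2 {C : SimpleGraph V} {R : Finset V} :
    R ∈ ends2 C ↔ R ∈ ends C ∧ 2 ≤ (itr C R).card := by
  classical
  unfold ends2
  rw [mem_filter]

theorem ell_ge {b : ℕ} (h : b < d) : (d : ℝ) ≤ ell d b := by
  unfold ell
  rw [if_pos h.le]
  have h3 : (b : ℝ) ≤ d := by exact_mod_cast h.le
  linarith

namespace Ctx

variable {C : SimpleGraph V} {p : V → Fin d → ℝ}

theorem bd_W (h : Ctx C p) {R : Finset V} (hR : R ∈ ends C) : bd C R ⊆ Wc C d := by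
  intro z hz
  rw [mem_bd] at hz
  exact mem_Wc.2 ⟨hz.2, fun hb => h.bad_not_end hb hR hz.1⟩

theorem bd_sub_T (h : Ctx C p) {R : Finset V} (hR : R ∈ ends C) {w : V} (hw : w ∈ R) :
    (bd C R).erase w ⊆ nb C w ∩ Wc C d := by
  intro z hz
  obtain ⟨h1, h2⟩ := mem_erase.1 hz
  exact mem_inter.2 ⟨mem_nb.2 (ends_clique hR w hw z (mem_bd.1 h2).1 (Ne.symm h1)),
    h.bd_W hR h2⟩

theorem end_mx (h : Ctx C p) {R : Finset V} (hR : R ∈ ends C) : Mx d C R := by
  obtain ⟨v, hv, rfl⟩ := mem_ends.1 hR
  exact simp_mx h.hp h.hC hv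

/-- the loss at a boundary vertex with an outer neighbour -/
theorem loss (h : Ctx C p) {R : Finset V} (hR : R ∈ ends C) {w o : V} (hw : w ∈ bd C R)
    (ho : o ∈ nb C w ∩ Wc C d) (hoR : o ∉ R) :
    2 * ((d : ℝ) - fB C d (nb C w ∩ Wc C d)) ≤ ell d (bd C R).card := by
  have hd := h.hd
  set T := nb C w ∩ Wc C d with hT
  set b := (bd C R).card with hb
  have hwR := (mem_bd.1 hw).1
  have hsub : insert o ((bd C R).erase w) ⊆ T := by
    intro z hz
    rcases mem_insert.1 hz with rfl | hz
    · exact ho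
    · exact h.bd_sub_T hR hwR hz
  have hb1 : 0 < b := card_pos.2 ⟨w, hw⟩
  have hcard : b ≤ T.card := by
    have h1 := card_le_card hsub
    rw [card_insert_of_notMem (fun h => hoR (mem_bd.1 (mem_of_mem_erase h)).1),
      card_erase_of_mem hw, ← hb] at h1
    omega
  by_cases hbd : b ≤ d
  · unfold ell
    rw [if_pos hbd]
    have h1 := (Kf_ge hbd hcard).trans (fB_ge_Kf hd C T)
    linarith
  · push Not at hbd
    have hncl : ¬ Cq C T := by
      intro hcl
      refine (h.end_mx hR).absurd hoR (fun z hz => (mem_bd.1 hz).1 : bd C R ⊆ R) hbd.le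
        fun s hs => ?_
      by_cases hsw : s = w
      · rw [hsw]
        exact (mem_nb.1 (mem_inter.1 ho).1).symm
      · exact hcl o ho s (hsub (mem_insert_of_mem (mem_erase.2 ⟨hsw, hs⟩)))
          (fun h => hoR (h ▸ (mem_bd.1 hs).1))
    have h1 := (Af_ge' hbd hcard).trans (Af_le_fB hd hncl)
    unfold ell
    rw [if_neg (by omega)]
    have hb0 : (0 : ℝ) < b := by exact_mod_cast hb1
    have h2 : ((d : ℝ) * (d + 1) - b) / b ≤ max ((d : ℝ) * (d + 1) - b) 0 / b :=
      div_le_div_of_nonneg_right (le_max_left _ _) hb0.le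
    have h3 : ((d : ℝ) * (d + 1) - b) / b = 2 * (d * (d + 1) / (2 * b)) - 1 := by
      field_simp
    linarith

/-- a boundary vertex which is the outer neighbour of a bad vertex -/
theorem loss_r (h : Ctx C p) {R : Finset V} (hR : R ∈ ends C) {w : V} (hw : w ∈ bd C R) {r : ℕ}
    (hr : 1 ≤ r) :
    2 * ((d : ℝ) - (fB C d (nb C w ∩ Wc C d) + r)) ≤ ell d (bd C R).card := by
  have hd := h.hd
  set T := nb C w ∩ Wc C d with hT
  set b := (bd C R).card with hb
  have hwR := (mem_bd.1 hw).1
  have hb1 : 0 < b := card_pos.2 ⟨w, hw⟩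
  have hcard : b ≤ T.card + 1 := by
    have h1 : ((bd C R).erase w).card ≤ T.card := card_le_card (h.bd_sub_T hR hwR)
    rw [card_erase_of_mem hw, ← hb] at h1
    omega
  have hr' : (1 : ℝ) ≤ r := by exact_mod_cast hr
  have h0 := fB_ge_Kf hd C T
  by_cases hbd : b ≤ d
  · unfold ell
    rw [if_pos hbd]
    have h1 := Kf_ge (d := d) (b := b - 1) (t := T.card) (by omega) (by omega)
    rw [Nat.cast_sub hb1, Nat.cast_one] at h1
    linarith
  · push Not at hbd
    rw [Kf_big (by omega)] at h0
    have hb0 : (0 : ℝ) < b := by exact_mod_cast hb1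
    have hcard' : (b : ℝ) ≤ T.card + 1 := by exact_mod_cast hcard
    have h1 : (d : ℝ) * (d + 1) / (2 * (T.card + 1)) ≤ d * (d + 1) / (2 * b) := by
      apply div_le_div_of_nonneg_left (by positivity) (by positivity)
      linarith
    unfold ell
    rw [if_neg (by omega)]
    have h2 : ((d : ℝ) * (d + 1) - b) / b ≤ max ((d : ℝ) * (d + 1) - b) 0 / b :=
      div_le_div_of_nonneg_right (le_max_left _ _) hb0.le
    have h3 : ((d : ℝ) * (d + 1) - b) / b = 2 * (d * (d + 1) / (2 * b)) - 1 := by
      field_simp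
    linarith

open Classical in
theorem local2 (h : Ctx C p) {w : V} (hw : w ∈ Wc C d) :
    2 * ((d : ℝ) - (fB C d (nb C w ∩ Wc C d) + rr C d w)) ≤
      ∑ R ∈ (ends2 C).filter (fun R => w ∈ R), ell d (bd C R).card := by
  have hd := h.hd
  have hpos : ∀ R ∈ (ends2 C).filter (fun R => w ∈ R), 0 ≤ ell d (bd C R).card :=
    fun R _ => ell_nonneg _ _
  have hws := (mem_Wc.1 hw).1
  by_cases h0 : ∃ R ∈ ends2 C, w ∈ R
  · obtain ⟨R1, hR1, hwR1⟩ := h0
    have hR1e := (mem_ends2.1 hR1).1
    rcases Nat.eq_zero_or_pos (rr C d w) with hr | hr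
    · rw [hr, Nat.cast_zero, add_zero]
      have hr' : ∀ z, ¬ (z ∈ bads C (d * (d + 1)) ∧ uu C z = w) := by
        rintro z ⟨h1, h2⟩
        unfold rr at hr
        rw [card_eq_zero] at hr
        have h3 : z ∈ (bads C (d * (d + 1))).filter fun z => uu C z = w := mem_filter.2 ⟨h1, h2⟩
        rw [hr] at h3
        exact notMem_empty _ h3
      by_cases h1 : ∃ R ∈ ends2 C, w ∈ R ∧ ∃ o ∈ nb C w ∩ Wc C d, o ∉ R
      · obtain ⟨R, hR, hwR, o, ho, hoR⟩ := h1
        refine (h.loss (mem_ends2.1 hR).1 (mem_bd.2 ⟨hwR, hws⟩) ho hoR).trans ?_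
        exact single_le_sum hpos (mem_filter.2 ⟨hR, hwR⟩)
      · push Not at h1
        have hz : ∃ z ∈ nb C w, z ∉ R1 := by
          by_contra hcon
          push Not at hcon
          exact hws ((ends_clique hR1e).subset hcon)
        obtain ⟨z, hz, hzR⟩ := hz
        have hzW : z ∉ Wc C d := fun hc => hzR (h1 R1 hR1 hwR1 z (mem_inter.2 ⟨hz, hc⟩))
        have hadj := mem_nb.1 hz
        by_cases hz2 : Simp C z ∧ 2 ≤ (itr C (cN C z)).card
        · have hR2 : cN C z ∈ ends2 C := mem_ends2.2 ⟨mem_ends.2 ⟨z, hz2.1, rfl⟩, hz2.2⟩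
          have hwR2 : w ∈ cN C z := mem_cN.2 (Or.inr hadj.symm)
          have hne : R1 ≠ cN C z := by
            rintro h
            exact hzR (h ▸ mem_cN.2 (Or.inl rfl))
          have hint := ends_inter h.hp h.hC hR1e (mem_ends2.1 hR2).1 hne
          have hsmall : ∀ R ∈ ends2 C, w ∈ R → bd C R ⊆ R1 ∩ cN C z := by
            intro R hR hwR u hu
            by_cases huw : u = w
            · rw [huw]; exact mem_inter.2 ⟨hwR1, hwR2⟩
            · have h2 := h.bd_sub_T (mem_ends2.1 hR).1 hwR (mem_erase.2 ⟨huw, hu⟩)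
              exact mem_inter.2 ⟨h1 R1 hR1 hwR1 u h2, h1 _ hR2 hwR2 u h2⟩
          have hell : ∀ R ∈ ends2 C, w ∈ R → (d : ℝ) ≤ ell d (bd C R).card := by
            intro R hR hwR
            exact ell_ge ((card_le_card (hsmall R hR hwR)).trans_lt hint)
          have h3 : ({R1, cN C z} : Finset (Finset V)) ⊆
              (ends2 C).filter (fun R => w ∈ R) := by
            intro R hR
            rw [mem_insert, mem_singleton] at hR
            rcases hR with rfl | rfl
            · exact mem_filter.2 ⟨hR1, hwR1⟩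
            · exact mem_filter.2 ⟨hR2, hwR2⟩
          have h4 := sum_le_sum_of_subset_of_nonneg h3 (f := fun R => ell d (bd C R).card)
            (fun R _ _ => ell_nonneg _ _)
          rw [sum_pair hne] at h4
          have h5 := hell R1 hR1 hwR1
          have h6 := hell _ hR2 hwR2
          have h7 : 0 ≤ fB C d (nb C w ∩ Wc C d) := (Kf_nonneg _).trans (fB_ge_Kf hd _ _)
          linarith
        · exfalso
          obtain ⟨K, hK, hwK⟩ := h.special hadj hzW (hr' z) (fun hS => by
            by_contra hc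
            push Not at hc
            exact hz2 ⟨hS, hc⟩)
          have h2 : K.erase z ⊆ K ∩ R1 := by
            intro a ha
            obtain ⟨h3, h4⟩ := mem_erase.1 ha
            refine mem_inter.2 ⟨h4, ?_⟩
            by_cases haw : a = w
            · rw [haw]; exact hwR1
            · exact h1 R1 hR1 hwR1 a (mem_inter.2
                ⟨mem_nb.2 (hK.mx.1 w hwK a h4 (Ne.symm haw)), hK.her ha⟩)
          have h3 := card_le_card h2
          rw [card_erase_of_mem hK.hy] at h3
          have h4 := hK.hcd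
          have h5 := mx_unique hK.mx (h.end_mx hR1e) (by omega)
          exact hzR (h5 ▸ hK.hy)
    · refine (h.loss_r hR1e (mem_bd.2 ⟨hwR1, hws⟩) hr).trans ?_
      exact single_le_sum hpos (mem_filter.2 ⟨hR1, hwR1⟩)
  · push Not at h0
    have h1 := h.loc_beta hw (fun R hR hwR => by
      by_contra hc
      push Not at hc
      exact h0 R (mem_ends2.2 ⟨hR, hc⟩) hwR)
    have h2 := sum_nonneg hpos
    linarith

/-- adding the bad vertices -/
theorem add_bads (h : Ctx C p) : ∀ A : Finset V, A ⊆ bads C (d * (d + 1)) →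
    mo (sub C (Wc C d ∪ A)) p + d * A.card + (A.filter fun z => uu C z ∈ Wc C d).card ≤
      mo (sub C (Wc C d)) p := by
  intro A
  induction A using Finset.induction_on with
  | empty => intro _; simp
  | insert z A hzA ih =>
    intro hA
    have hz : z ∈ bads C (d * (d + 1)) := hA (mem_insert_self _ _)
    have h1 := ih ((subset_insert _ _).trans hA)
    have hzW : z ∉ Wc C d := fun hc => (mem_Wc.1 hc).2 hz
    have hzWA : z ∉ Wc C d ∪ A := by rw [mem_union]; tauto
    have h2 := step h.hp h.hd h.hC (W := Wc C d ∪ insert z A) (v := z)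
      (mem_union_right _ (mem_insert_self _ _))
    have e1 : (Wc C d ∪ insert z A).erase z = Wc C d ∪ A := by
      rw [union_insert, erase_insert hzWA]
    rw [e1] at h2
    have hnum := h.bad_num hz
    have hKW : (Kc C z).erase z ⊆ Wc C d := by
      intro a ha
      obtain ⟨h3, h4⟩ := mem_erase.1 ha
      exact mem_Wc.2 (h.bad_unique hz h4 h3)
    have hsub : (Kc C z).erase z ⊆ nb C z ∩ (Wc C d ∪ insert z A) := by
      intro a ha
      refine mem_inter.2 ⟨?_, mem_union_left _ (hKW ha)⟩
      rw [Kc_erase hz] at ha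
      exact mem_of_mem_erase ha
    have hc := card_le_card hsub
    rw [card_erase_of_mem (mem_Kc hz), card_Kc hz] at hc
    have h3 : d + (if uu C z ∈ Wc C d then 1 else 0) ≤
        inc C d (nb C z ∩ (Wc C d ∪ insert z A)) := by
      by_cases hu : uu C z ∈ Wc C d
      · have hall : nb C z ⊆ nb C z ∩ (Wc C d ∪ insert z A) := by
          intro a ha
          by_cases hau : a = uu C z
          · rw [hau] at ha ⊢
            exact mem_inter.2 ⟨ha, mem_union_left _ hu⟩
          · apply hsub
            rw [Kc_erase hz]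
            exact mem_erase.2 ⟨hau, ha⟩
        rw [if_pos hu, inter_eq_left.2 (hall.trans inter_subset_right),
          inc_big (by omega) (mem_bads.1 hz).1]
      · rw [if_neg hu]
        unfold inc
        rw [min_eq_left (by omega)]
        omega
    rw [card_insert_of_notMem hzA, filter_insert]
    have e3 : d * (A.card + 1) = d * A.card + d := by ring
    rw [e3]
    split_ifs at h3 ⊢ with hu
    · rw [card_insert_of_notMem (fun h => hzA (mem_filter.1 h).1)]
      omega
    · omega

/-- **The defect.** -/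
theorem defect (h : Ctx C p) :
    2 * mo C p ≤ ∑ R ∈ ends2 C, (d * (d + 1) - (bd C R).card) := by
  classical
  have hd := h.hd
  have h1 := add_all h.hp hd h.hC (ends C) (Subset.refl _)
  rw [core_union, sub_univ] at h1
  have hBsub : bads C (d * (d + 1)) ⊆ core C := by
    intro z hz
    exact mem_core.2 (mem_bads.1 hz).1
  have h2 := h.add_bads _ (Subset.refl _)
  have hWB : Wc C d ∪ bads C (d * (d + 1)) = core C := by
    unfold Wc
    exact sdiff_union_of_subset hBsub
  rw [hWB] at h2
  have hWc : (Wc C d).card + (bads C (d * (d + 1))).card = (core C).card := by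
    unfold Wc
    exact card_sdiff_add_card_eq_card hBsub
  have h3 := potB h.hp hd h.hC (Wc C d)
  have h4 := card_core C
  have h5 : ((bads C (d * (d + 1))).filter fun z => uu C z ∈ Wc C d).card =
      ∑ w ∈ Wc C d, rr C d w := by
    rw [card_eq_sum_card_fiberwise
      (s := (bads C (d * (d + 1))).filter fun z => uu C z ∈ Wc C d) (f := uu C) (t := Wc C d)
      (by
        intro z hz
        exact mem_coe.2 (mem_filter.1 (mem_coe.1 hz)).2)]
    refine sum_congr rfl fun w hw => ?_
    unfold rr
    congr 1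
    ext z
    rw [mem_filter, mem_filter, mem_filter]
    constructor
    · rintro ⟨⟨h6, -⟩, h7⟩
      exact ⟨h6, h7⟩
    · rintro ⟨h6, h7⟩
      exact ⟨⟨h6, h7 ▸ hw⟩, h7⟩
  rw [h5] at h2
  have h6 := sum_le_sum fun w (hw : w ∈ Wc C d) => h.local2 hw
  have h7 : ∑ w ∈ Wc C d, ∑ R ∈ (ends2 C).filter (fun R => w ∈ R), ell d (bd C R).card =
      ∑ R ∈ ends2 C, ((bd C R).card : ℝ) * ell d (bd C R).card := by
    simp_rw [sum_filter]
    rw [sum_comm]
    refine sum_congr rfl fun R hR => ?_
    rw [← sum_filter, sum_const, nsmul_eq_mul]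
    congr 3
    ext w
    rw [mem_filter]
    constructor
    · rintro ⟨h8, h9⟩
      exact mem_bd.2 ⟨h9, (mem_Wc.1 h8).1⟩
    · intro h8
      exact ⟨h.bd_W (mem_ends2.1 hR).1 h8, (mem_bd.1 h8).1⟩
  rw [h7, ← mul_sum, sum_sub_distrib, sum_const, nsmul_eq_mul, sum_add_distrib] at h6
  -- the boundaries of the other end cliques are large
  have h8 : ∑ R ∈ ends C, hh d (bd C R).card = ∑ R ∈ ends2 C, hh d (bd C R).card := by
    symm
    refine sum_subset (fun R hR => (mem_ends2.1 hR).1) fun R hR hR2 => ?_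
    have h9 : (itr C R).card < 2 := by
      by_contra hc
      push Not at hc
      exact hR2 (mem_ends2.2 ⟨hR, hc⟩)
    have h10 : (itr C R).card + (bd C R).card = R.card := by
      unfold itr bd
      exact card_filter_add_card_filter_not _
    have h11 : d + 2 ≤ R.card := by
      obtain ⟨v, hv, rfl⟩ := mem_ends.1 hR
      unfold cN
      rw [card_insert_of_notMem (not_mem_nb C v)]
      have := h.deg_gt v
      omega
    unfold hh
    have e : d - (bd C R).card = 0 := by omega
    rw [e, zero_mul]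
  rw [h8] at h1
  have h1' : (2 : ℝ) * mo C p + 2 * d * ∑ R ∈ ends C, ((itr C R).card : ℝ) ≤
      2 * mo (sub C (core C)) p + ∑ R ∈ ends2 C, ((hh d (bd C R).card : ℕ) : ℝ) := by
    exact_mod_cast h1
  have h2' : (mo (sub C (core C)) p : ℝ) + d * (bads C (d * (d + 1))).card +
      ∑ w ∈ Wc C d, (rr C d w : ℝ) ≤ mo (sub C (Wc C d)) p := by
    exact_mod_cast h2
  have hWc' : ((Wc C d).card : ℝ) + (bads C (d * (d + 1))).card = (core C).card := by
    exact_mod_cast hWc
  have h4' : ((core C).card : ℝ) + ∑ R ∈ ends C, ((itr C R).card : ℝ) = Fintype.card V := by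
    exact_mod_cast h4
  have h9 : ∑ R ∈ ends2 C, ((d * (d + 1) - (bd C R).card : ℕ) : ℝ) =
      ∑ R ∈ ends2 C, ((bd C R).card : ℝ) * ell d (bd C R).card +
        ∑ R ∈ ends2 C, ((hh d (bd C R).card : ℕ) : ℝ) := by
    rw [← sum_add_distrib]
    exact sum_congr rfl fun R _ => (ell_total d _).symm
  have h10 : (2 : ℝ) * mo C p ≤ ∑ R ∈ ends2 C, ((d * (d + 1) - (bd C R).card : ℕ) : ℝ) := by
    rw [h9]
    have h11 : (d : ℝ) * Fintype.card V = d * (Wc C d).card + d * (bads C (d * (d + 1))).card +
        d * ∑ R ∈ ends C, ((itr C R).card : ℝ) := by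
      rw [← h4', ← hWc']; ring
    linarith
  exact_mod_cast h10

end Ctx

end Pool.Agent.U656.RG
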